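import Mathlib.Topology.Sheaves.Presheaf
import Mathlib.Tactic.Monotonicity.Lemmas
import Mathlib.Algebra.Order.Ring.Star
import Mathlib.Algebra.Order.Star.Real
import Mathlib.Analysis.Complex.Polynomial.Basic
import Mathlib.Analysis.CStarAlgebra.Classes
import Mathlib.Analysis.Calculus.ParametricIntegral
import Mathlib.Analysis.Complex.RemovableSingularity
import Mathlib.Analysis.Complex.AbsMax
import Mathlib.Analysis.Complex.ExponentialBounds
import Mathlib.Analysis.SpecialFunctions.Trigonometric.DerivHyp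
import Mathlib.Analysis.SpecialFunctions.ImproperIntegrals
import Mathlib.Analysis.SpecialFunctions.Complex.LogBounds
import Mathlib.Order.CompletePartialOrder

-- ======== part 0: formerly Pool.Agent.MP_16212d_an.B.Basic
section MrgPart0

/-! General tools: mean value lemmas, connectedness lemmas, a fixed point lemma. -/

open Complex Set Filter Topology Metric

namespace Pool.Agent.MP_16212d_an.B

lemma mvt_re {F F' : ℂ → ℂ} {S : Set ℂ} (hS : Convex ℝ S) (hF : ∀ w ∈ S, HasDerivAt F (F' w) w)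
    {u v : ℂ} (hu : u ∈ S) (hv : v ∈ S) (c : ℂ) :
    ∃ w ∈ S, (c * (F u - F v)).re = (c * (F' w * (u - v))).re := by
  have hmem : ∀ τ ∈ Icc (0 : ℝ) 1, v + (τ : ℂ) * (u - v) ∈ S := by
    intro τ hτ
    have := hS.add_smul_sub_mem hv hu hτ
    simpa using this
  have hd : ∀ τ ∈ Icc (0 : ℝ) 1, HasDerivAt (fun τ : ℝ => (c * F (v + (τ : ℂ) * (u - v))).re)
      ((c * (F' (v + (τ : ℂ) * (u - v)) * (u - v))).re) τ := by
    intro τ hτ
    have h1 : HasDerivAt (fun σ : ℂ => v + σ * (u - v)) (u - v) (τ : ℂ) := by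
      simpa using ((hasDerivAt_id (τ : ℂ)).mul_const (u - v)).const_add v
    have h2 := ((hF _ (hmem τ hτ)).comp (τ : ℂ) h1).const_mul c
    exact h2.real_of_complex
  obtain ⟨τ, hτ, h⟩ := exists_hasDerivAt_eq_slope
    (fun τ : ℝ => (c * F (v + (τ : ℂ) * (u - v))).re)
    (fun τ : ℝ => (c * (F' (v + (τ : ℂ) * (u - v)) * (u - v))).re) zero_lt_one
    (fun τ hτ => (hd τ hτ).continuousAt.continuousWithinAt)
    (fun τ hτ => hd τ (Ioo_subset_Icc_self hτ))
  refine ⟨_, hmem τ (Ioo_subset_Icc_self hτ), ?_⟩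
  rw [h]
  simp [mul_sub]

/-- The mean value theorem for a real functional of the difference quotient. -/
lemma mvt_slope {F F' : ℂ → ℂ} {S : Set ℂ} (hS : Convex ℝ S)
    (hF : ∀ w ∈ S, HasDerivAt F (F' w) w) {u v : ℂ} (hu : u ∈ S) (hv : v ∈ S) (huv : u ≠ v)
    (c : ℂ) : ∃ w ∈ S, (c * ((F u - F v) / (u - v))).re = (c * F' w).re := by
  obtain ⟨w, hw, h⟩ := mvt_re hS hF hu hv (c / (u - v))
  have h0 : u - v ≠ 0 := sub_ne_zero.2 huv
  refine ⟨w, hw, ?_⟩
  have e1 : c * ((F u - F v) / (u - v)) = c / (u - v) * (F u - F v) := by field_simp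
  have e2 : c * F' w = c / (u - v) * (F' w * (u - v)) := by field_simp
  rw [e1, e2, h]

/-- A cone around the positive real axis. -/
def Cone (a κ : ℝ) (D : ℂ) : Prop := a ≤ D.re ∧ |D.im| ≤ κ * D.re

lemma cone_slope {F F' : ℂ → ℂ} {S : Set ℂ} (hS : Convex ℝ S)
    (hF : ∀ w ∈ S, HasDerivAt F (F' w) w) {u v : ℂ} (hu : u ∈ S) (hv : v ∈ S) (huv : u ≠ v)
    {a κ : ℝ} (c : ℂ) (hc : ∀ w ∈ S, Cone a κ (c * F' w)) :
    Cone a κ (c * ((F u - F v) / (u - v))) := by
  refine ⟨?_, abs_le.2 ⟨?_, ?_⟩⟩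
  · obtain ⟨w, hw, h⟩ := mvt_slope hS hF hu hv huv c
    rw [h]; exact (hc w hw).1
  · obtain ⟨w, hw, h⟩ := mvt_slope hS hF hu hv huv ((κ - I) * c)
    have := (abs_le.1 (hc w hw).2).1
    rw [mul_assoc, mul_assoc] at h
    simp only [mul_re (κ - I), sub_re, ofReal_re, I_re, sub_im, ofReal_im, I_im] at h
    linarith
  · obtain ⟨w, hw, h⟩ := mvt_slope hS hF hu hv huv ((κ + I) * c)
    have := (abs_le.1 (hc w hw).2).2
    rw [mul_assoc, mul_assoc] at h
    simp only [mul_re (κ + I), add_re, ofReal_re, I_re, add_im, ofReal_im, I_im] at h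
    linarith

lemma Cone.mono {a a' κ κ' : ℝ} {D : ℂ} (h : Cone a κ D) (h0 : 0 ≤ a) (ha : a' ≤ a)
    (hκ : κ ≤ κ') : Cone a' κ' D :=
  ⟨ha.trans h.1, h.2.trans (mul_le_mul_of_nonneg_right hκ (h0.trans h.1))⟩

lemma Cone.mul {a b κ μ : ℝ} {D E : ℂ} (hD : Cone a κ D) (hE : Cone b μ E) (ha : 0 ≤ a)
    (hb : 0 ≤ b) (hκ : 0 ≤ κ) (hμ : 0 ≤ μ) (h : κ * μ ≤ 1 / 100) :
    Cone (99 / 100 * (a * b)) (100 / 99 * (κ + μ)) (D * E) := by
  obtain ⟨d1, d2⟩ := hD
  obtain ⟨e1, e2⟩ := hE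
  have d0 : 0 ≤ D.re := ha.trans d1
  have e0 : 0 ≤ E.re := hb.trans e1
  have p0 : 0 ≤ D.re * E.re := mul_nonneg d0 e0
  have p1 : |D.im * E.im| ≤ 1 / 100 * (D.re * E.re) := by
    rw [abs_mul]
    calc |D.im| * |E.im| ≤ (κ * D.re) * (μ * E.re) :=
          mul_le_mul d2 e2 (abs_nonneg _) (mul_nonneg hκ d0)
      _ = (κ * μ) * (D.re * E.re) := by ring
      _ ≤ _ := mul_le_mul_of_nonneg_right h p0
  have p2 : 99 / 100 * (D.re * E.re) ≤ (D * E).re := by
    rw [mul_re]; linarith [le_abs_self (D.im * E.im)]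
  refine ⟨le_trans ?_ p2, ?_⟩
  · exact mul_le_mul_of_nonneg_left (mul_le_mul d1 e1 hb d0) (by norm_num)
  · have p3 : |(D * E).im| ≤ (κ + μ) * (D.re * E.re) := by
      rw [mul_im]
      refine (abs_add_le _ _).trans ?_
      rw [abs_mul, abs_mul, abs_of_nonneg d0, abs_of_nonneg e0]
      have := mul_le_mul_of_nonneg_left e2 d0
      have := mul_le_mul_of_nonneg_right d2 e0
      linarith
    refine p3.trans ?_
    have := mul_le_mul_of_nonneg_left p2 (add_nonneg hκ hμ)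
    linarith

lemma lip {F F' : ℂ → ℂ} {S : Set ℂ} (hS : Convex ℝ S) (hF : ∀ w ∈ S, HasDerivAt F (F' w) w)
    {C : ℝ} (hb : ∀ w ∈ S, ‖F' w‖ ≤ C) {u v : ℂ} (hu : u ∈ S) (hv : v ∈ S) :
    ‖F u - F v‖ ≤ C * ‖u - v‖ :=
  hS.norm_image_sub_le_of_norm_hasDerivWithin_le (fun w hw => (hF w hw).hasDerivWithinAt) hb hv hu

lemma convex_re_ge (a : ℝ) : Convex ℝ {z : ℂ | a ≤ z.re} := convex_halfSpace_re_ge a
lemma convex_re_le (a : ℝ) : Convex ℝ {z : ℂ | z.re ≤ a} := convex_halfSpace_re_le a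

lemma convex_im (c b : ℝ) : Convex ℝ {z : ℂ | |z.im - c| ≤ b} := by
  have := (convex_halfSpace_im_ge (c - b)).inter (convex_halfSpace_im_le (c + b))
  convert this using 1
  ext z
  simp only [mem_ofPred_eq, mem_inter_iff, abs_le]
  constructor <;> rintro ⟨h1, h2⟩ <;> constructor <;> linarith

lemma lt_of_ne {X : Type*} [TopologicalSpace X] {S : Set X} (hS : IsPreconnected S) {φ : X → ℝ}
    (hφ : ContinuousOn φ S) {c : ℝ} (hne : ∀ z ∈ S, φ z ≠ c) {x : X} (hx : x ∈ S)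
    (h0 : φ x < c) : ∀ z ∈ S, φ z < c := by
  intro z hz
  by_contra h
  obtain ⟨w, hw, e⟩ := hS.intermediate_value hx hz hφ ⟨h0.le, not_lt.1 h⟩
  exact hne w hw e

lemma gt_of_ne {X : Type*} [TopologicalSpace X] {S : Set X} (hS : IsPreconnected S) {φ : X → ℝ}
    (hφ : ContinuousOn φ S) {c : ℝ} (hne : ∀ z ∈ S, φ z ≠ c) {x : X} (hx : x ∈ S)
    (h0 : c < φ x) : ∀ z ∈ S, c < φ z := by
  intro z hz
  by_contra h
  obtain ⟨w, hw, e⟩ := hS.intermediate_value hz hx hφ ⟨not_lt.1 h, h0.le⟩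
  exact hne w hw e

lemma zero_of_exp {X : Type*} [TopologicalSpace X] {S : Set X} (hS : IsPreconnected S)
    {φ : X → ℂ} (hφ : ContinuousOn φ S) (h1 : ∀ z ∈ S, cexp (φ z) = 1) {x : X} (hx : x ∈ S)
    (h0 : φ x = 0) : ∀ z ∈ S, φ z = 0 := by
  have hpi := Real.pi_pos
  have hc : ContinuousOn (fun z => |(φ z).im|) S :=
    continuous_abs.comp_continuousOn (continuous_im.comp_continuousOn hφ)
  have key : ∀ z ∈ S, ∃ n : ℤ, φ z = n * (2 * Real.pi * I) := fun z hz =>
    Complex.exp_eq_one_iff.1 (h1 z hz)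
  have hlt := lt_of_ne hS hc (c := Real.pi) (fun z hz e => by
    obtain ⟨n, hn⟩ := key z hz
    rw [hn] at e
    simp only [mul_im, intCast_re, mul_re, re_ofNat, ofReal_re, im_ofNat, ofReal_im, mul_zero,
      sub_zero, I_im, mul_one, zero_mul, add_zero, I_re, sub_self, intCast_im] at e
    rw [abs_mul, abs_of_pos (by positivity : 0 < 2 * Real.pi)] at e
    have e2 : (2 * |n| : ℤ) = 1 := by
      have : (2 * |(n : ℝ)| - 1) * Real.pi = 0 := by linarith
      have := (mul_eq_zero.1 this).resolve_right hpi.ne'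
      have : 2 * |(n : ℝ)| = 1 := by linarith
      exact_mod_cast this
    omega) hx (by simp [h0, hpi])
  intro z hz
  obtain ⟨n, hn⟩ := key z hz
  have e := hlt z hz
  simp only [hn] at e
  simp only [mul_im, intCast_re, mul_re, re_ofNat, ofReal_re, im_ofNat, ofReal_im, mul_zero,
      sub_zero, I_im, mul_one, zero_mul, add_zero, I_re, sub_self, intCast_im] at e
  rw [abs_mul, abs_of_pos (by positivity : 0 < 2 * Real.pi)] at e
  have e2 : |(n : ℝ)| < 1 := by
    by_contra h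
    nlinarith [not_lt.1 h]
  have e3 : |n| < 1 := by exact_mod_cast e2
  have : n = 0 := Int.abs_lt_one_iff.1 e3
  rw [hn, this]; simp

/-- A continuous logarithm of a function that stays near a constant moves little. -/
lemma log_lift {X : Type*} [TopologicalSpace X] {S : Set X} (hS : IsPreconnected S)
    {τ : X → ℂ} (hτ : ContinuousOn τ S) {c : ℂ} (h : ∀ z ∈ S, ‖cexp (τ z) / c - 1‖ ≤ 1 / 2)
    {x : X} (hx : x ∈ S) : ∀ z ∈ S, ‖τ z - τ x‖ ≤ 2 := by
  have hs : ∀ z ∈ S, cexp (τ z) / c ∈ slitPlane := fun z hz => by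
    have := mem_slitPlane_of_norm_lt_one (z := cexp (τ z) / c - 1) (by linarith [h z hz])
    simpa using this
  have hn : ∀ z ∈ S, ‖Complex.log (cexp (τ z) / c)‖ ≤ 3 / 4 := fun z hz => by
    have := Complex.norm_log_one_add_half_le_self (h z hz)
    rw [add_sub_cancel] at this
    linarith [h z hz]
  have hc : c ≠ 0 := by
    rintro rfl
    have := h x hx
    norm_num at this
  have hcl : ContinuousOn (fun z => Complex.log (cexp (τ z) / c)) S :=
    ContinuousOn.clog (by fun_prop) hs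
  have := zero_of_exp hS (φ := fun z => τ z - τ x - Complex.log (cexp (τ z) / c) +
      Complex.log (cexp (τ x) / c)) (by fun_prop) (fun z hz => by
    rw [Complex.exp_add, Complex.exp_sub, Complex.exp_sub, Complex.exp_log (slitPlane_ne_zero (hs z hz)),
      Complex.exp_log (slitPlane_ne_zero (hs x hx))]
    field_simp) hx (by simp)
  intro z hz
  have e : τ z - τ x = Complex.log (cexp (τ z) / c) - Complex.log (cexp (τ x) / c) := by
    linear_combination this z hz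
  rw [e]
  linarith [norm_sub_le (Complex.log (cexp (τ z) / c)) (Complex.log (cexp (τ x) / c)), hn z hz,
    hn x hx]

lemma min_mod {g : ℂ → ℂ} {a : ℂ} {r C : ℝ} (hr : 0 < r)
    (hd : ∀ z ∈ closedBall a r, DifferentiableAt ℂ g z) (h1 : ‖g a‖ < C)
    (h2 : ∀ z ∈ sphere a r, C ≤ ‖g z‖) : ∃ z ∈ closedBall a r, g z = 0 := by
  by_contra hne
  push Not at hne
  have hC : 0 < C := (norm_nonneg _).trans_lt h1
  have hd' : DiffContOnCl ℂ (fun z => (g z)⁻¹) (ball a r) :=
    DifferentiableOn.diffContOnCl_ball (U := closedBall a r)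
      (fun z hz => ((hd z hz).inv (hne z hz)).differentiableWithinAt) subset_rfl
  have := Complex.norm_le_of_forall_mem_frontier_norm_le isBounded_ball hd' (C := C⁻¹)
    (fun z hz => by
      rw [frontier_ball a hr.ne'] at hz
      rw [norm_inv]
      exact inv_anti₀ hC (h2 z hz))
    (subset_closure (mem_ball_self hr))
  rw [norm_inv, inv_le_inv₀ (norm_pos_iff.2 (hne a (mem_closedBall_self hr.le))) hC] at this
  linarith

/-- An expanding holomorphic map on a disc covers nearby points. -/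
lemma cover {L : ℂ → ℂ} {a b : ℂ} {r K : ℝ} (hr : 0 < r)
    (hd : ∀ z ∈ closedBall a r, DifferentiableAt ℂ L z)
    (hex : ∀ z ∈ closedBall a r, K * ‖z - a‖ ≤ ‖L z - L a‖) (hb : 2 * ‖L a - b‖ < K * r) :
    ∃ z ∈ closedBall a r, L z = b := by
  obtain ⟨z, hz, h⟩ := min_mod (g := fun z => L z - b) (a := a) (C := K * r / 2) hr
    (fun z hz => (hd z hz).sub_const b) (by linarith) (fun z hz => by
      have h1 := hex z (sphere_subset_closedBall hz)
      rw [mem_sphere_iff_norm.1 hz] at h1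
      have h2 := norm_sub_le (L z - b) (L a - b)
      rw [sub_sub_sub_cancel_right] at h2
      linarith)
  exact ⟨z, hz, sub_eq_zero.1 h⟩

/-- Cauchy estimate. -/
lemma deriv_le {e : ℂ → ℂ} {a : ℂ} {r C : ℝ} (hr : 0 < r)
    (hd : ∀ z ∈ closedBall a r, DifferentiableAt ℂ e z) (hb : ∀ z ∈ closedBall a r, ‖e z‖ ≤ C) :
    ‖deriv e a‖ ≤ C / r :=
  Complex.norm_deriv_le_of_forall_mem_sphere_norm_le hr
    (DifferentiableOn.diffContOnCl_ball (U := closedBall a r)
      (fun z hz => (hd z hz).differentiableWithinAt) subset_rfl)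
    (fun z hz => hb z (sphere_subset_closedBall hz))

/-- Contraction principle for the sup distance on a product of discs. -/
lemma fix {ι : Type*} (T : ι → ℂ) {r : ℝ} (hr : 0 ≤ r) (Φ : (ι → ℂ) → ι → ℂ)
    (hm : ∀ t, (∀ i, ‖t i - T i‖ ≤ r) → ∀ i, ‖Φ t i - T i‖ ≤ r)
    (hl : ∀ t t', (∀ i, ‖t i - T i‖ ≤ r) → (∀ i, ‖t' i - T i‖ ≤ r) → ∀ c,
      (∀ i, ‖t i - t' i‖ ≤ c) → ∀ i, ‖Φ t i - Φ t' i‖ ≤ c / 2) :
    ∃ t, (∀ i, ‖t i - T i‖ ≤ r) ∧ Φ t = t := by
  have hb : ∀ n, ∀ i, ‖(Φ^[n] T) i - T i‖ ≤ r := by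
    intro n
    induction n with
    | zero => intro i; simpa using hr
    | succ n ih => rw [Function.iterate_succ_apply']; exact hm _ ih
  have hc : ∀ n, ∀ i, ‖(Φ^[n] T) i - (Φ^[n + 1] T) i‖ ≤ r * (1 / 2) ^ n := by
    intro n
    induction n with
    | zero => intro i; rw [norm_sub_rev]; simpa using hb 1 i
    | succ n ih =>
      intro i
      have := hl _ _ (hb n) (hb (n + 1)) _ ih i
      rw [Function.iterate_succ_apply' Φ n, Function.iterate_succ_apply' Φ (n + 1), pow_succ]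
      linarith
  have hcs : ∀ i, ∃ l, Tendsto (fun n => (Φ^[n] T) i) atTop (𝓝 l) := fun i =>
    cauchySeq_tendsto_of_complete (cauchySeq_of_le_geometric (1 / 2) r (by norm_num)
      (fun n => by rw [dist_eq_norm]; exact hc n i))
  choose t ht using hcs
  have hd : ∀ n i, ‖(Φ^[n] T) i - t i‖ ≤ 2 * r * (1 / 2) ^ n := by
    intro n i
    have := dist_le_of_le_geometric_of_tendsto (1 / 2) r (by norm_num)
      (fun n => by rw [dist_eq_norm]; exact hc n i) (ht i) n
    rw [dist_eq_norm] at this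
    refine this.trans (le_of_eq ?_)
    ring
  have htb : ∀ i, ‖t i - T i‖ ≤ r := fun i =>
    le_of_tendsto' ((ht i).sub_const (T i)).norm (fun n => hb n i)
  refine ⟨t, htb, funext fun i => ?_⟩
  have h1 : Tendsto (fun n => (Φ^[n + 1] T) i) atTop (𝓝 (t i)) :=
    (ht i).comp (tendsto_add_atTop_nat 1)
  have h2 : Tendsto (fun n => (Φ^[n + 1] T) i) atTop (𝓝 (Φ t i)) := by
    rw [tendsto_iff_norm_sub_tendsto_zero]
    have h0 : Tendsto (fun n : ℕ => 2 * r * (1 / 2 : ℝ) ^ n / 2) atTop (𝓝 0) := by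
      simpa using ((tendsto_pow_atTop_nhds_zero_of_lt_one (r := (1 / 2 : ℝ)) (by norm_num)
        (by norm_num)).const_mul (2 * r)).div_const 2
    refine squeeze_zero (fun n => norm_nonneg _) (fun n => ?_) h0
    rw [Function.iterate_succ_apply']
    exact hl _ _ (hb n) htb _ (hd n) i
  exact tendsto_nhds_unique h2 h1

end Pool.Agent.MP_16212d_an.B

end MrgPart0

-- ======== part 1: formerly Pool.Agent.MP_16212d_an.B.Cauchy
section MrgPart1

/-! Cauchy integrals along vertical lines with a Gaussian weight. -/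

open Complex Set Filter Topology Metric MeasureTheory

namespace Pool.Agent.MP_16212d_an.B

lemma integrable_of_decay {g : ℝ → ℂ} {C Y : ℝ} (hg : Continuous g)
    (hb : ∀ t, Y ≤ |t| → ‖g t‖ ≤ C * (1 + t ^ 2)⁻¹) : Integrable g := by
  have h1 : IntegrableOn g (Icc (-Y) Y) := hg.continuousOn.integrableOn_Icc
  have h2 : IntegrableOn g (Icc (-Y) Y)ᶜ := by
    refine Integrable.mono' ((integrable_inv_one_add_sq.const_mul C).integrableOn)
      hg.aestronglyMeasurable ?_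
    filter_upwards [ae_restrict_mem (measurableSet_Icc.compl)] with t ht
    apply hb
    by_contra h
    push Not at h
    exact ht ⟨(abs_lt.mp h).1.le, (abs_lt.mp h).2.le⟩
  rw [← integrableOn_univ, ← union_compl_self (Icc (-Y) Y)]
  exact h1.union h2

lemma continuous_line {f : ℂ → ℂ} {a b σ : ℝ} (hσ : σ ∈ Icc a b)
    (hf : DifferentiableOn ℂ f {z | a ≤ z.re ∧ z.re ≤ b}) :
    Continuous (fun t : ℝ => f (σ + t * I)) := by
  refine hf.continuousOn.comp_continuous (by fun_prop) ?_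
  intro t
  simpa using hσ

/-- Shifting a vertical line of integration. -/
lemma shift {f : ℂ → ℂ} {a b C Y : ℝ} (hab : a ≤ b)
    (hf : DifferentiableOn ℂ f {z | a ≤ z.re ∧ z.re ≤ b})
    (hb : ∀ σ ∈ Icc a b, ∀ t : ℝ, Y ≤ |t| → ‖f (σ + t * I)‖ ≤ C * (1 + t ^ 2)⁻¹) :
    ∫ t : ℝ, f (a + t * I) = ∫ t : ℝ, f (b + t * I) := by
  have ha' : a ∈ Icc a b := ⟨le_rfl, hab⟩
  have hb' : b ∈ Icc a b := ⟨hab, le_rfl⟩
  have ia := integrable_of_decay (continuous_line ha' hf) (hb a ha')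
  have ib := integrable_of_decay (continuous_line hb' hf) (hb b hb')
  have ta := intervalIntegral_tendsto_integral ia tendsto_neg_atTop_atBot tendsto_id
  have tb := intervalIntegral_tendsto_integral ib tendsto_neg_atTop_atBot tendsto_id
  have hdec : Tendsto (fun R : ℝ => (C * (1 + R ^ 2)⁻¹) * |b - a|) atTop (𝓝 0) := by
    have h1 : Tendsto (fun R : ℝ => (1 + R ^ 2)⁻¹) atTop (𝓝 0) :=
      tendsto_inv_atTop_zero.comp
        (tendsto_atTop_add_const_left _ 1 (tendsto_pow_atTop two_ne_zero))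
    simpa using (h1.const_mul C).mul_const |b - a|
  have hor : ∀ e : ℝ, |e| = 1 →
      Tendsto (fun R : ℝ => ∫ x in a..b, f (x + ((e * R : ℝ) : ℂ) * I)) atTop (𝓝 0) := by
    intro e he
    refine squeeze_zero_norm' ?_ hdec
    filter_upwards [eventually_ge_atTop Y, eventually_ge_atTop 0] with R hR hR0
    apply intervalIntegral.norm_integral_le_of_norm_le_const
    intro x hx
    rw [uIoc_of_le hab] at hx
    have h1 : |e * R| = R := by rw [abs_mul, he, one_mul, abs_of_nonneg hR0]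
    have := hb x ⟨hx.1.le, hx.2⟩ (e * R) (by rw [h1]; exact hR)
    rwa [← sq_abs (e * R), h1] at this
  have h1 := hor (-1) (by simp)
  have h2 := hor 1 (by simp)
  have hlim := ((h1.sub h2).add (tb.const_smul I)).sub (ta.const_smul I)
  have hz : ∀ R : ℝ, (∫ x in a..b, f (x + ((-1 * R : ℝ) : ℂ) * I)) -
      (∫ x in a..b, f (x + ((1 * R : ℝ) : ℂ) * I)) +
      I • (∫ y in (-R)..(id R), f (b + y * I)) - I • (∫ y in (-R)..(id R), f (a + y * I)) = 0 := by
    intro R
    have := Complex.integral_boundary_rect_eq_zero_of_differentiableOn f ⟨a, -R⟩ ⟨b, R⟩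
      (hf.mono (by
        intro z hz
        rw [Complex.mem_reProdIm, uIcc_of_le hab] at hz
        exact hz.1))
    simpa using this
  simp only [hz] at hlim
  have h3 := tendsto_nhds_unique hlim tendsto_const_nhds
  simp only [sub_self, zero_add, smul_eq_mul] at h3
  have h4 : I * ((∫ t : ℝ, f (b + t * I)) - ∫ t : ℝ, f (a + t * I)) = 0 := by
    rw [mul_sub]; exact h3
  rcases mul_eq_zero.mp h4 with h | h
  · exact absurd h I_ne_zero
  · exact (sub_eq_zero.mp h).symm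

/-- The model kernel. -/
noncomputable def G0 (s σ : ℂ) : ℂ := (σ - s)⁻¹ - (σ - (s + 2 * (3 - s.re : ℝ)))⁻¹

lemma G0_bound {s σ : ℂ} (h1 : 1 ≤ s.re) (h3 : s.re ≤ 3) (hy : 2 * |s.im| + 2 ≤ |σ.im|) :
    ‖G0 s σ‖ ≤ 16 * (1 + σ.im ^ 2)⁻¹ := by
  set δ : ℝ := 3 - s.re with hδ
  have a0 : |σ.im| / 2 + 1 ≤ |σ.im - s.im| := by
    have := abs_sub_abs_le_abs_sub σ.im s.im
    linarith
  have a1 : |σ.im| / 2 + 1 ≤ ‖σ - s‖ := a0.trans (by simpa using abs_im_le_norm (σ - s))
  have a2 : |σ.im| / 2 + 1 ≤ ‖σ - (s + 2 * δ)‖ :=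
    a0.trans (by simpa using abs_im_le_norm (σ - (s + 2 * δ)))
  have p : 0 < |σ.im| / 2 + 1 := by positivity
  have n1 : σ - s ≠ 0 := norm_pos_iff.1 (p.trans_le a1)
  have n2 : σ - (s + 2 * δ) ≠ 0 := norm_pos_iff.1 (p.trans_le a2)
  have e : G0 s σ = -(2 * δ) / ((σ - s) * (σ - (s + 2 * δ))) := by
    rw [G0, ← hδ]; field_simp; ring
  rw [e, norm_div, norm_mul, norm_neg, div_le_iff₀ (mul_pos (p.trans_le a1) (p.trans_le a2))]
  have b1 : ‖(2 * δ : ℂ)‖ ≤ 4 := by
    rw [norm_mul, norm_real, Real.norm_eq_abs, abs_of_nonneg (by linarith : 0 ≤ δ)]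
    simp; linarith
  have b2 : (1 + σ.im ^ 2) / 4 ≤ ‖σ - s‖ * ‖σ - (s + 2 * δ)‖ := by
    refine le_trans ?_ (mul_le_mul a1 a2 p.le (norm_nonneg _))
    rw [← sq_abs σ.im]
    nlinarith [abs_nonneg σ.im]
  have q : 0 < 1 + σ.im ^ 2 := by positivity
  calc _ ≤ (4 : ℝ) := b1
    _ = 16 * (1 + σ.im ^ 2)⁻¹ * ((1 + σ.im ^ 2) / 4) := by field_simp; norm_num
    _ ≤ _ := mul_le_mul_of_nonneg_left b2 (by positivity)

lemma G0_right {s : ℂ} (h3 : s.re < 3) :
    ∫ y : ℝ, G0 s ((3 : ℝ) + y * I) = 2 * Real.pi := by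
  set δ : ℝ := 3 - s.re with hδ
  have hd : 0 < δ := by linarith
  have e : ∀ y : ℝ, G0 s ((3 : ℝ) + y * I) =
      ((2 / δ * (1 + ((y - s.im) / δ) ^ 2)⁻¹ : ℝ) : ℂ) := by
    intro y
    have e1 : ((3 : ℝ) + y * I : ℂ) - s = δ + (y - s.im : ℝ) * I := by
      apply Complex.ext <;> simp [hδ]
    have e2 : ((3 : ℝ) + y * I : ℂ) - (s + 2 * δ) = -δ + (y - s.im : ℝ) * I := by
      apply Complex.ext <;> simp [hδ]; ring
    rw [G0, ← hδ, e1, e2]
    set u : ℝ := y - s.im
    have n1 : (δ + u * I : ℂ) ≠ 0 := fun h => by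
      have := congrArg re h; simp at this; linarith
    have n2 : (-δ + u * I : ℂ) ≠ 0 := fun h => by
      have := congrArg re h; simp at this; linarith
    have n3 : (δ : ℂ) ≠ 0 := by exact_mod_cast hd.ne'
    have n4 : ((δ : ℂ) ^ 2 + u ^ 2) ≠ 0 := by
      have : (0 : ℝ) < δ ^ 2 + u ^ 2 := by positivity
      exact_mod_cast this.ne'
    have e3 : (1 + ((u : ℂ) / δ) ^ 2) = ((δ : ℂ) ^ 2 + u ^ 2) / δ ^ 2 := by field_simp
    push_cast
    rw [e3]
    field_simp
    linear_combination (-2 * δ * u ^ 2) * I_sq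
  simp_rw [e]
  rw [integral_complex_ofReal, integral_const_mul,
    integral_sub_right_eq_self (fun y : ℝ => (1 + (y / δ) ^ 2)⁻¹) s.im,
    Measure.integral_comp_div (fun y : ℝ => (1 + y ^ 2)⁻¹) δ, integral_univ_inv_one_add_sq,
    abs_of_pos hd, smul_eq_mul]
  have : 2 / δ * (δ * Real.pi) = 2 * Real.pi := by field_simp
  rw [this]; simp

lemma G0_cont {s : ℂ} {c : ℝ} (h1 : c ≠ s.re) (h2 : c ≤ 3) (h3 : s.re < 3) :
    Continuous fun y : ℝ => G0 s (c + y * I) := by
  unfold G0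
  refine Continuous.sub (Continuous.inv₀ (by fun_prop) fun y h => ?_)
    (Continuous.inv₀ (by fun_prop) fun y h => ?_)
  · have := congrArg re h; simp at this; exact h1 (by linarith)
  · have := congrArg re h; simp at this; linarith

lemma G0_int {s : ℂ} {c : ℝ} (h0 : 1 ≤ s.re) (h1 : c ≠ s.re) (h2 : c ≤ 3) (h3 : s.re < 3) :
    Integrable fun y : ℝ => G0 s (c + y * I) :=
  integrable_of_decay (C := 16) (Y := 2 * |s.im| + 2) (G0_cont h1 h2 h3) fun t ht => by
    simpa using G0_bound (σ := c + t * I) h0 h3.le (by simpa using ht)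

lemma G0_left {s : ℂ} (h1 : 1 < s.re) (h3 : s.re < 3) :
    ∫ y : ℝ, G0 s ((1 : ℝ) + y * I) = 0 := by
  set δ : ℝ := 3 - s.re with hδ
  have hd : 0 < δ := by linarith
  set b : ℂ := s + 2 * δ with hb
  have hre : ∀ y : ℝ, (((1 : ℝ) + y * I : ℂ) - b).re = -(2 + δ) := fun y => by
    simp [hb, hδ]; ring
  have hn : ∀ y : ℝ, 2 + δ ≤ ‖((1 : ℝ) + y * I : ℂ) - b‖ := fun y => by
    have := abs_re_le_norm (((1 : ℝ) + y * I : ℂ) - b)
    rwa [hre, abs_neg, abs_of_pos (by linarith)] at this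
  have n2 : ∀ y : ℝ, ((1 : ℝ) + y * I : ℂ) - b ≠ 0 := fun y =>
    norm_pos_iff.1 (lt_of_lt_of_le (by linarith) (hn y))
  have n1 : ∀ y : ℝ, ((1 : ℝ) + y * I : ℂ) - s ≠ 0 := fun y h => by
    have := congrArg re h; simp at this; linarith
  have hs : ∀ y : ℝ, 1 + 2 * δ / (((1 : ℝ) + y * I : ℂ) - b) ∈ slitPlane := fun y => by
    apply mem_slitPlane_of_norm_lt_one
    rw [norm_div, div_lt_one (lt_of_lt_of_le (by linarith) (hn y)), norm_mul, norm_real,
      Real.norm_eq_abs, abs_of_pos hd]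
    have := hn y
    simp only [norm_ofNat]
    linarith
  have hder : ∀ y : ℝ, HasDerivAt (fun y : ℝ => -I * Complex.log (1 + 2 * δ / (((1 : ℝ) + y * I : ℂ) - b)))
      (G0 s ((1 : ℝ) + y * I)) y := by
    intro y
    have d1 : HasDerivAt (fun w : ℂ => ((1 : ℝ) + w * I : ℂ) - b) I (y : ℂ) := by
      simpa using (((hasDerivAt_id (y : ℂ)).mul_const I).const_add ((1 : ℝ) : ℂ)).sub_const b
    have d2 := ((((d1.fun_inv (n2 y)).const_mul (2 * δ : ℂ)).const_add 1).clog
      (by simpa [div_eq_mul_inv] using hs y)).const_mul (-I)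
    have d3 := d2.comp_ofReal
    simp only [← div_eq_mul_inv] at d3
    convert d3 using 1
    rw [G0, ← hδ, ← hb]
    have e : 1 + 2 * δ / (((1 : ℝ) + y * I : ℂ) - b) =
        (((1 : ℝ) + y * I : ℂ) - s) / (((1 : ℝ) + y * I : ℂ) - b) := by
      have := n2 y
      field_simp
      rw [hb]; ring
    rw [e]
    have := n1 y
    have := n2 y
    field_simp
    rw [hb]
    linear_combination (-2 * δ : ℂ) * I_sq
  have hlim : ∀ l : Filter ℝ, Tendsto (fun y : ℝ => |y|) l atTop →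
      Tendsto (fun y : ℝ => -I * Complex.log (1 + 2 * δ / (((1 : ℝ) + y * I : ℂ) - b))) l
        (𝓝 0) := by
    intro l hl
    have t1 : Tendsto (fun y : ℝ => ‖((1 : ℝ) + y * I : ℂ) - b‖) l atTop := by
      refine tendsto_atTop_mono (fun y => ?_) (tendsto_atTop_add_const_right _ (-|b.im|) hl)
      have := abs_im_le_norm (((1 : ℝ) + y * I : ℂ) - b)
      have h2 := abs_sub_abs_le_abs_sub y b.im
      simp at this ⊢
      linarith
    have t2 : Tendsto (fun y : ℝ => (2 * δ : ℂ) / (((1 : ℝ) + y * I : ℂ) - b)) l (𝓝 0) := by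
      rw [tendsto_zero_iff_norm_tendsto_zero]
      simp only [norm_div]
      exact t1.const_div_atTop _
    have t3 := ((t2.const_add 1).clog (by simp)).const_mul (-I)
    simpa using t3
  have := integral_of_hasDerivAt_of_tendsto hder (G0_int h1.le h1.ne (by norm_num) h3)
    (hlim _ tendsto_abs_atBot_atTop) (hlim _ tendsto_abs_atTop_atTop)
  simpa using this

lemma norm_gauss (m c y : ℝ) :
    ‖cexp ((c + y * I) ^ 2 - m)‖ = Real.exp (c ^ 2 - m) * Real.exp (-y ^ 2) := by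
  rw [Complex.norm_exp, ← Real.exp_add]
  congr 1
  simp [sq]; ring

lemma gauss_le (y : ℝ) : Real.exp (-y ^ 2) ≤ (1 + y ^ 2)⁻¹ := by
  rw [Real.exp_neg]
  exact inv_anti₀ (by positivity) (by linarith [Real.add_one_le_exp (y ^ 2)])

/-- The Cauchy integral along the image of a vertical line. -/
noncomputable def Jc (ψ ψ' : ℂ → ℂ) (m c : ℝ) (z : ℂ) : ℂ :=
  (2 * Real.pi : ℂ)⁻¹ * ∫ y : ℝ, cexp ((c + y * I) ^ 2 - m) *
    (ψ' (c + y * I) / (ψ (c + y * I) - z))

lemma norm_Jc {ψ ψ' : ℂ → ℂ} {m c : ℝ} {z : ℂ}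
    (h : ∀ y : ℝ, ‖ψ' (c + y * I) / (ψ (c + y * I) - z)‖ ≤ 11) :
    ‖Jc ψ ψ' m c z‖ ≤ 6 * Real.exp (c ^ 2 - m) := by
  have hpi := Real.pi_pos
  have h1 : ‖∫ y : ℝ, cexp ((c + y * I) ^ 2 - m) * (ψ' (c + y * I) / (ψ (c + y * I) - z))‖ ≤
      ∫ y : ℝ, 11 * Real.exp (c ^ 2 - m) * (1 + y ^ 2)⁻¹ := by
    refine norm_integral_le_of_norm_le (integrable_inv_one_add_sq.const_mul _)
      (Eventually.of_forall fun y => ?_)
    rw [norm_mul, norm_gauss]
    calc _ ≤ Real.exp (c ^ 2 - m) * (1 + y ^ 2)⁻¹ * 11 :=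
          mul_le_mul (mul_le_mul_of_nonneg_left (gauss_le y) (by positivity)) (h y)
            (norm_nonneg _) (by positivity)
      _ = _ := by ring
  rw [integral_const_mul, integral_univ_inv_one_add_sq] at h1
  rw [Jc, norm_mul, norm_inv, norm_mul, norm_real, Real.norm_eq_abs, abs_of_pos hpi]
  calc _ ≤ (‖(2 : ℂ)‖ * Real.pi)⁻¹ * (11 * Real.exp (c ^ 2 - m) * Real.pi) :=
        mul_le_mul_of_nonneg_left h1 (by positivity)
    _ = 11 / 2 * Real.exp (c ^ 2 - m) := by simp only [norm_ofNat]; field_simp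
    _ ≤ _ := mul_le_mul_of_nonneg_right (by norm_num) (by positivity)

lemma int_Jc {ψ ψ' : ℂ → ℂ} {m c : ℝ} {z : ℂ}
    (h1 : Continuous fun y : ℝ => ψ (c + y * I)) (h2 : Continuous fun y : ℝ => ψ' (c + y * I))
    (h0 : ∀ y : ℝ, ψ (c + y * I) ≠ z)
    (h : ∀ y : ℝ, ‖ψ' (c + y * I) / (ψ (c + y * I) - z)‖ ≤ 11) :
    Integrable fun y : ℝ => cexp ((c + y * I) ^ 2 - m) *
      (ψ' (c + y * I) / (ψ (c + y * I) - z)) := by
  refine integrable_of_decay (C := 11 * Real.exp (c ^ 2 - m)) (Y := 0)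
    (Continuous.mul (by fun_prop) (h2.div (h1.sub continuous_const)
      fun y => sub_ne_zero.2 (h0 y))) fun y _ => ?_
  rw [norm_mul, norm_gauss]
  calc _ ≤ Real.exp (c ^ 2 - m) * (1 + y ^ 2)⁻¹ * 11 :=
        mul_le_mul (mul_le_mul_of_nonneg_left (gauss_le y) (by positivity)) (h y)
          (norm_nonneg _) (by positivity)
    _ = _ := by ring

lemma diff_Jc {ψ ψ' : ℂ → ℂ} {m c : ℝ} {z₀ : ℂ}
    (h1 : Continuous fun y : ℝ => ψ (c + y * I)) (h2 : Continuous fun y : ℝ => ψ' (c + y * I))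
    (h : ∀ᶠ z in 𝓝 z₀, ∀ y : ℝ, ψ (c + y * I) ≠ z ∧
      ‖ψ' (c + y * I) / (ψ (c + y * I) - z)‖ ≤ 11) :
    DifferentiableAt ℂ (Jc ψ ψ' m c) z₀ := by
  obtain ⟨r, hr, hU⟩ := Metric.eventually_nhds_iff_ball.1 h
  have hd : ∀ y : ℝ, ∀ z ∈ ball z₀ r, HasDerivAt
      (fun z => ψ' (c + y * I) / (ψ (c + y * I) - z))
      (ψ' (c + y * I) / (ψ (c + y * I) - z) ^ 2) z := by
    intro y z hz
    have := ((((hasDerivAt_id z).const_sub (ψ (c + y * I))).fun_inv
      (sub_ne_zero.2 (hU z hz y).1)).const_mul (ψ' (c + y * I)))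
    refine this.congr_deriv ?_
    simp [div_eq_mul_inv]
  have key := hasDerivAt_integral_of_dominated_loc_of_deriv_le (μ := volume)
    (F := fun z (y : ℝ) => cexp ((c + y * I) ^ 2 - m) * (ψ' (c + y * I) / (ψ (c + y * I) - z)))
    (F' := fun z (y : ℝ) => cexp ((c + y * I) ^ 2 - m) *
      (ψ' (c + y * I) / (ψ (c + y * I) - z) ^ 2))
    (bound := fun y => Real.exp (c ^ 2 - m) * (11 / (r / 3)) * (1 + y ^ 2)⁻¹)
    (ball_mem_nhds z₀ (by positivity : 0 < r / 3)) ?_ ?_ ?_ ?_ ?_ ?_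
  · exact key.2.differentiableAt.const_mul _
  · filter_upwards [h] with z hz
    exact (int_Jc h1 h2 (fun y => (hz y).1) (fun y => (hz y).2)).aestronglyMeasurable
  · have hz := hU z₀ (mem_ball_self hr)
    exact int_Jc h1 h2 (fun y => (hz y).1) (fun y => (hz y).2)
  · have hz := hU z₀ (mem_ball_self hr)
    exact (Continuous.mul (by fun_prop) (h2.div ((h1.sub continuous_const).pow 2)
      fun y => pow_ne_zero 2 (sub_ne_zero.2 (hz y).1))).aestronglyMeasurable
  · refine Eventually.of_forall fun y z hz => ?_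
    have hsub : closedBall z (r / 3) ⊆ ball z₀ r := by
      intro w hw
      rw [mem_ball] at hz ⊢
      rw [mem_closedBall] at hw
      linarith [dist_triangle w z z₀]
    have := deriv_le (e := fun z => ψ' (c + y * I) / (ψ (c + y * I) - z)) (a := z) (r := r / 3)
      (C := 11) (by positivity) (fun w hw => (hd y w (hsub hw)).differentiableAt)
      (fun w hw => (hU w (hsub hw) y).2)
    rw [(hd y z (hsub (mem_closedBall_self (by positivity)))).deriv] at this
    rw [norm_mul, norm_gauss]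
    calc _ ≤ Real.exp (c ^ 2 - m) * (1 + y ^ 2)⁻¹ * (11 / (r / 3)) :=
          mul_le_mul (mul_le_mul_of_nonneg_left (gauss_le y) (by positivity)) this
            (norm_nonneg _) (by positivity)
      _ = _ := by ring
  · exact integrable_inv_one_add_sq.const_mul _
  · refine Eventually.of_forall fun y z hz => ?_
    exact (hd y z (ball_subset_ball (by linarith) hz)).const_mul _

/-- The jump of the Cauchy integral. -/
lemma residue {ψ ψ' : ℂ → ℂ} {m : ℝ} {s : ℂ}
    (hd : ∀ σ : ℂ, 0 < σ.re → HasDerivAt ψ (ψ' σ) σ)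
    (hd' : ∀ σ : ℂ, 0 < σ.re → DifferentiableAt ℂ ψ' σ)
    (hinj : ∀ σ : ℂ, 0 < σ.re → ψ σ = ψ s → σ = s) (hne : ψ' s ≠ 0)
    (h1 : 3 / 2 < s.re) (h3 : s.re < 5 / 2)
    (hK : ∀ σ : ℂ, 1 ≤ σ.re → 1 / 2 ≤ ‖σ - s‖ → ‖ψ' σ / (ψ σ - ψ s)‖ ≤ 11) :
    Jc ψ ψ' m 3 (ψ s) = Jc ψ ψ' m 1 (ψ s) + cexp (s ^ 2 - m) := by
  set b : ℂ := s + 2 * (3 - s.re : ℝ) with hb
  set U : Set ℂ := {σ | 0 < σ.re ∧ σ.re < b.re} with hU
  have hbre : b.re = 6 - s.re := by simp [hb]; ring
  have hUo : IsOpen U :=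
    (isOpen_lt continuous_const continuous_re).inter (isOpen_lt continuous_re continuous_const)
  have hsU : s ∈ U := ⟨by linarith, by linarith⟩
  have hUn : U ∈ 𝓝 s := hUo.mem_nhds hsU
  have dψ : DifferentiableOn ℂ ψ U := fun σ hσ =>
    (hd σ hσ.1).differentiableAt.differentiableWithinAt
  have dS : DifferentiableOn ℂ (dslope ψ s) U := (differentiableOn_dslope hUn).2 dψ
  have nS : ∀ σ ∈ U, dslope ψ s σ ≠ 0 := by
    intro σ hσ
    by_cases e : σ = s
    · rw [e, dslope_same, (hd s hsU.1).deriv]; exact hne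
    · rw [dslope_of_ne _ e, slope_def_field]
      exact div_ne_zero (sub_ne_zero.2 fun h => e (hinj σ hσ.1 h)) (sub_ne_zero.2 e)
  set E : ℂ := cexp (s ^ 2 - m) with hE
  set A : ℂ → ℂ := fun σ => cexp (σ ^ 2 - m) * (ψ' σ / dslope ψ s σ) with hA
  have dA : DifferentiableOn ℂ A U := by
    refine DifferentiableOn.mul (by fun_prop) (DifferentiableOn.div ?_ dS nS)
    exact fun σ hσ => (hd' σ hσ.1).differentiableWithinAt
  have hAs : A s = E := by
    simp only [hA, dslope_same, (hd s hsU.1).deriv, div_self hne, mul_one, hE]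
  set D : ℂ → ℂ := fun σ => dslope A s σ + E * (σ - b)⁻¹ with hD
  have dD : DifferentiableOn ℂ D U := by
    refine ((differentiableOn_dslope hUn).2 dA).add (DifferentiableOn.const_mul ?_ _)
    refine DifferentiableOn.inv (by fun_prop) fun σ hσ h => ?_
    have := congrArg re h
    simp only [sub_re, zero_re] at this
    linarith [hσ.2]
  have eD : ∀ σ ∈ U, σ ≠ s → D σ = cexp (σ ^ 2 - m) * (ψ' σ / (ψ σ - ψ s)) - E * G0 s σ := by
    intro σ hσ e
    have n1 : σ - s ≠ 0 := sub_ne_zero.2 e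
    have n2 : ψ σ - ψ s ≠ 0 := sub_ne_zero.2 fun h => e (hinj σ hσ.1 h)
    simp only [hD, dslope_of_ne _ e, slope_def_field, hAs, G0, ← hb]
    simp only [hA, dslope_of_ne _ e, slope_def_field]
    field_simp
    ring
  have hsh := shift (f := D) (a := 1) (b := 3) (C := 11 * Real.exp (9 - m) + ‖E‖ * 16)
    (Y := 2 * |s.im| + 2) (by norm_num)
    (dD.mono fun σ hσ => ⟨by linarith [hσ.1], by linarith [hσ.2]⟩) (by
      intro x hx t ht
      have hn : 1 / 2 ≤ ‖(x + t * I : ℂ) - s‖ := by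
        have a1 := abs_im_le_norm ((x + t * I : ℂ) - s)
        have a2 := abs_sub_abs_le_abs_sub t s.im
        simp at a1
        linarith [abs_nonneg s.im]
      have hne' : (x + t * I : ℂ) ≠ s := by
        intro h; rw [h] at hn; norm_num at hn
      rw [eD _ ⟨by simp; linarith [hx.1], by simp; linarith [hx.2]⟩ hne']
      refine (norm_sub_le _ _).trans ?_
      rw [norm_mul, norm_mul, norm_gauss]
      have b1 := hK (x + t * I) (by simpa using hx.1) hn
      have b2 := G0_bound (s := s) (σ := x + t * I) (by linarith) (by linarith) (by simpa using ht)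
      have b3 : Real.exp (x ^ 2 - m) ≤ Real.exp (9 - m) :=
        Real.exp_le_exp.2 (by nlinarith [hx.1, hx.2])
      have b4 : Real.exp (x ^ 2 - m) * Real.exp (-t ^ 2) * ‖ψ' (x + t * I) / (ψ (x + t * I) - ψ s)‖
          ≤ Real.exp (9 - m) * (1 + t ^ 2)⁻¹ * 11 :=
        mul_le_mul (mul_le_mul b3 (gauss_le t) (by positivity) (by positivity)) b1
          (norm_nonneg _) (by positivity)
      have b5 := mul_le_mul_of_nonneg_left b2 (norm_nonneg E)
      simp only [add_im, ofReal_im, mul_im, ofReal_re, I_im, mul_one, I_re, mul_zero, add_zero,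
        zero_add] at b5
      linarith)
  have line : ∀ c : ℝ, 1 ≤ c → c ≤ 3 → 1 / 2 ≤ |c - s.re| → ∫ y : ℝ, D (c + y * I) =
      (∫ y : ℝ, cexp ((c + y * I) ^ 2 - m) * (ψ' (c + y * I) / (ψ (c + y * I) - ψ s))) -
        E * ∫ y : ℝ, G0 s (c + y * I) := by
    intro c c1 c3 hc
    have hn : ∀ y : ℝ, 1 / 2 ≤ ‖(c + y * I : ℂ) - s‖ := fun y =>
      hc.trans (by simpa using abs_re_le_norm ((c + y * I : ℂ) - s))
    have hne' : ∀ y : ℝ, (c + y * I : ℂ) ≠ s := fun y h => by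
      have := hn y; rw [h] at this; norm_num at this
    have hre : ∀ y : ℝ, 0 < (c + y * I : ℂ).re := fun y => by simp; linarith
    have k1 : Continuous fun y : ℝ => ψ (c + y * I) := continuous_iff_continuousAt.2 fun y =>
      ContinuousAt.comp (f := fun y : ℝ => (c + y * I : ℂ)) (hd _ (hre y)).continuousAt
        (by fun_prop)
    have k2 : Continuous fun y : ℝ => ψ' (c + y * I) := continuous_iff_continuousAt.2 fun y =>
      ContinuousAt.comp (f := fun y : ℝ => (c + y * I : ℂ)) (hd' _ (hre y)).continuousAt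
        (by fun_prop)
    have hcs : c ≠ s.re := fun h => by rw [h] at hc; norm_num at hc
    rw [← integral_const_mul, ← integral_sub
      (int_Jc k1 k2 (fun y h => hne' y (hinj _ (hre y) h))
        (fun y => hK _ (by simpa using c1) (hn y)))
      ((G0_int (by linarith) hcs c3 (by linarith)).const_mul E)]
    congr 1
    ext y
    exact eD _ ⟨hre y, by simp; linarith⟩ (hne' y)
  rw [line 1 le_rfl (by norm_num) (by rw [abs_sub_comm, abs_of_pos] <;> linarith),
    line 3 (by norm_num) le_rfl (by rw [abs_of_pos] <;> linarith),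
    G0_left (by linarith) (by linarith), G0_right (by linarith)] at hsh
  have hpi : (Real.pi : ℂ) ≠ 0 := by exact_mod_cast Real.pi_pos.ne'
  simp only [Jc]
  rw [mul_zero, sub_zero] at hsh
  rw [hsh, mul_sub]
  have : (2 * Real.pi : ℂ)⁻¹ * (E * (2 * Real.pi)) = E := by field_simp
  rw [this]
  ring

end Pool.Agent.MP_16212d_an.B

end MrgPart1

-- ======== part 2: formerly Pool.Agent.MP_16212d_an.B.Hyp
section MrgPart2

/-! Elementary facts on the complex hyperbolic functions. -/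

open Complex Set Filter Topology Metric

namespace Pool.Agent.MP_16212d_an.B

lemma sinh_re (u : ℂ) : (Complex.sinh u).re = Real.sinh u.re * Real.cos u.im := by
  simp only [Complex.sinh, Real.sinh_eq, div_ofNat_re, sub_re, exp_re, neg_re, neg_im,
    Real.cos_neg]
  ring

lemma sinh_im (u : ℂ) : (Complex.sinh u).im = Real.cosh u.re * Real.sin u.im := by
  simp only [Complex.sinh, Real.cosh_eq, div_ofNat_im, sub_im, exp_im, neg_re, neg_im,
    Real.sin_neg]
  ring

lemma cosh_re (u : ℂ) : (Complex.cosh u).re = Real.cosh u.re * Real.cos u.im := by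
  simp only [Complex.cosh, Real.cosh_eq, div_ofNat_re, add_re, exp_re, neg_re, neg_im,
    Real.cos_neg]
  ring

lemma cosh_im (u : ℂ) : (Complex.cosh u).im = Real.sinh u.re * Real.sin u.im := by
  simp only [Complex.cosh, Real.sinh_eq, div_ofNat_im, add_im, exp_im, neg_re, neg_im,
    Real.sin_neg]
  ring

lemma norm_sinh_sq (u : ℂ) : ‖Complex.sinh u‖ ^ 2 = Real.sinh u.re ^ 2 + Real.sin u.im ^ 2 := by
  rw [Complex.sq_norm, normSq_apply, sinh_re, sinh_im]
  linear_combination (Real.sin u.im ^ 2) * Real.cosh_sq u.re +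
    (Real.sinh u.re ^ 2) * Real.sin_sq_add_cos_sq u.im

lemma norm_cosh_sq (u : ℂ) : ‖Complex.cosh u‖ ^ 2 = Real.sinh u.re ^ 2 + Real.cos u.im ^ 2 := by
  rw [Complex.sq_norm, normSq_apply, cosh_re, cosh_im]
  linear_combination (Real.cos u.im ^ 2) * Real.cosh_sq u.re +
    (Real.sinh u.re ^ 2) * Real.sin_sq_add_cos_sq u.im

lemma norm_cosh_le (u : ℂ) : ‖Complex.cosh u‖ ≤ ‖Complex.sinh u‖ + 1 := by
  refine abs_le_of_sq_le_sq' ?_ (by positivity) |>.2
  rw [add_sq, norm_sinh_sq, norm_cosh_sq]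
  nlinarith [Real.cos_sq_le_one u.im, sq_nonneg (Real.sin u.im), norm_nonneg (Complex.sinh u)]

lemma norm_cosh_le_exp (u : ℂ) : ‖Complex.cosh u‖ ≤ Real.exp |u.re| := by
  have h1 : ‖Complex.cosh u‖ ≤ Real.cosh u.re := by
    refine abs_le_of_sq_le_sq' ?_ (Real.cosh_pos _).le |>.2
    rw [norm_cosh_sq, Real.cosh_sq]
    linarith [Real.cos_sq_le_one u.im]
  refine h1.trans ?_
  rw [← Real.cosh_abs, Real.cosh_eq]
  have : Real.exp (-|u.re|) ≤ Real.exp |u.re| := Real.exp_le_exp.2 (by linarith [abs_nonneg u.re])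
  linarith

lemma norm_sinh_le_exp (u : ℂ) : ‖Complex.sinh u‖ ≤ Real.exp |u.re| := by
  have h1 : ‖Complex.sinh u‖ ≤ Real.cosh u.re := by
    refine abs_le_of_sq_le_sq' ?_ (Real.cosh_pos _).le |>.2
    rw [norm_sinh_sq, Real.cosh_sq]
    linarith [Real.sin_sq_le_one u.im]
  refine h1.trans ?_
  rw [← Real.cosh_abs, Real.cosh_eq]
  have : Real.exp (-|u.re|) ≤ Real.exp |u.re| := Real.exp_le_exp.2 (by linarith [abs_nonneg u.re])
  linarith

lemma abs_sin_le_norm_sinh (u : ℂ) : |Real.sin u.im| ≤ ‖Complex.sinh u‖ := by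
  refine abs_le_of_sq_le_sq ?_ (norm_nonneg _)
  rw [norm_sinh_sq]
  linarith [sq_nonneg (Real.sinh u.re)]

lemma norm_le_sinh {u : ℂ} (h : |u.im| ≤ Real.pi / 2) : ‖u‖ ≤ 2 * ‖Complex.sinh u‖ := by
  refine abs_le_of_sq_le_sq' ?_ (by positivity) |>.2
  rw [mul_pow, norm_sinh_sq, Complex.sq_norm, normSq_apply]
  have h1 : |u.re| ≤ |Real.sinh u.re| := by
    rw [Real.abs_sinh]; exact Real.self_le_sinh_iff.2 (abs_nonneg _)
  have h2 := Real.mul_abs_le_abs_sin h
  have h3 : |u.im| ≤ 2 * |Real.sin u.im| := by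
    have : 1 / 2 ≤ 2 / Real.pi := by
      rw [div_le_div_iff₀ (by norm_num) Real.pi_pos]; linarith [Real.pi_le_four]
    nlinarith [abs_nonneg u.im]
  have h4 := mul_self_le_mul_self (abs_nonneg _) h1
  have h5 := mul_self_le_mul_self (abs_nonneg _) h3
  rw [abs_mul_abs_self, abs_mul_abs_self] at h4
  rw [abs_mul_abs_self] at h5
  nlinarith [abs_mul_abs_self (Real.sin u.im), sq_nonneg (Real.sinh u.re)]

lemma cosh_sub_cosh' (a b : ℂ) : Complex.cosh (a + b) - Complex.cosh (a - b) =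
    2 * Complex.sinh a * Complex.sinh b := by
  rw [Complex.cosh_add, Complex.cosh_sub]; ring

lemma exists_cosh (u : ℂ) : ∃ ξ : ℂ, |ξ.im| ≤ Real.pi ∧ Complex.cosh ξ = u := by
  obtain ⟨r, hr⟩ := IsAlgClosed.exists_pow_nat_eq (u ^ 2 - 1) two_pos
  have h1 : (u + r) * (u - r) = 1 := by linear_combination -hr
  have h0 : u + r ≠ 0 := left_ne_zero_of_mul_eq_one h1
  refine ⟨Complex.log (u + r), ?_, ?_⟩
  · rw [log_im]; exact abs_arg_le_pi _
  · rw [Complex.cosh, Complex.exp_neg, Complex.exp_log h0, ← eq_inv_of_mul_eq_one_right h1]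
    ring

lemma exists_cosh_im (u : ℂ) : ∃ ξ : ℂ, 0 ≤ ξ.im ∧ ξ.im ≤ Real.pi ∧ Complex.cosh ξ = u := by
  obtain ⟨ξ, h1, h2⟩ := exists_cosh u
  rcases le_total 0 ξ.im with h | h
  · exact ⟨ξ, h, (abs_le.1 h1).2, h2⟩
  · exact ⟨-ξ, by simpa using h, by simpa using neg_le.1 (abs_le.1 h1).1, by simpa using h2⟩

lemma exists_cosh_re (u : ℂ) : ∃ ξ : ℂ, 0 ≤ ξ.re ∧ |ξ.im| ≤ Real.pi ∧ Complex.cosh ξ = u := by
  obtain ⟨ξ, h1, h2⟩ := exists_cosh u
  rcases le_total 0 ξ.re with h | h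
  · exact ⟨ξ, h, h1, h2⟩
  · exact ⟨-ξ, by simpa using h, by simpa using h1, by simpa using h2⟩

lemma abs_arg_le {w : ℂ} (h : 0 < w.re) : |arg w| ≤ |w.im| / w.re := by
  have h1 : |arg w| < Real.pi / 2 := abs_arg_lt_pi_div_two_iff.2 (Or.inl h)
  have h2 := Real.le_tan (abs_nonneg _) h1
  have h3 : Real.tan |arg w| = |w.im| / w.re := by
    have h4 := Complex.tan_arg w
    rcases le_total 0 w.im with h5 | h5
    · rw [abs_of_nonneg (arg_nonneg_iff.2 h5), abs_of_nonneg h5, h4]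
    · rcases h5.eq_or_lt with h6 | h6
      · rw [abs_of_nonneg (arg_nonneg_iff.2 h6.ge), h4, h6, abs_zero]
      · rw [abs_of_neg (arg_neg_iff.2 h6), abs_of_neg h6, Real.tan_neg, h4, neg_div]
  rwa [h3] at h2

lemma tanh_re (u : ℂ) : (Complex.sinh u / Complex.cosh u).re =
    Real.sinh u.re * Real.cosh u.re / normSq (Complex.cosh u) := by
  rw [div_re, sinh_re, sinh_im, cosh_re, cosh_im, ← add_div]
  congr 1
  linear_combination (Real.sinh u.re * Real.cosh u.re) * Real.sin_sq_add_cos_sq u.im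

lemma tanh_im (u : ℂ) : (Complex.sinh u / Complex.cosh u).im =
    Real.sin u.im * Real.cos u.im / normSq (Complex.cosh u) := by
  rw [div_im, sinh_re, sinh_im, cosh_re, cosh_im, ← sub_div]
  congr 1
  linear_combination (Real.sin u.im * Real.cos u.im) * Real.cosh_sq u.re

lemma cos_ge_small {y : ℝ} (h : |y| ≤ 1 / 20) : 998 / 1000 ≤ Real.cos y := by
  have := Real.one_sub_sq_div_two_le_cos (x := y)
  have h2 : y ^ 2 ≤ (1 / 20) ^ 2 := by rw [← sq_abs]; gcongr
  linarith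

lemma cosh_small {u : ℂ} (h : |u.im| ≤ 1 / 20) :
    0 < (Complex.cosh u).re ∧ ‖Complex.sinh u / Complex.cosh u‖ ≤ 1 ∧
    |(Complex.log (Complex.cosh u)).im| ≤ 101 / 100 * |u.im| ∧
    |u.re| - 1 ≤ (Complex.log (Complex.cosh u)).re ∧
    (Complex.log (Complex.cosh u)).re ≤ |u.re| := by
  have c1 := cos_ge_small h
  have c2 := Real.one_le_cosh u.re
  have c3 : |Real.sin u.im| ≤ |u.im| := Real.abs_sin_le_abs
  have p : 0 < (Complex.cosh u).re := by rw [cosh_re]; positivity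
  have p' : 0 < ‖Complex.cosh u‖ := p.trans_le (re_le_norm _)
  refine ⟨p, ?_, ?_, ?_, ?_⟩
  · rw [norm_div, div_le_one p']
    refine abs_le_of_sq_le_sq' ?_ (norm_nonneg _) |>.2
    rw [norm_sinh_sq, norm_cosh_sq]
    have : Real.sin u.im ^ 2 ≤ (1 / 20) ^ 2 := by rw [← sq_abs]; gcongr; linarith
    nlinarith
  · rw [log_im]
    refine (abs_arg_le p).trans ?_
    rw [div_le_iff₀ p, cosh_re, cosh_im, abs_mul]
    have c4 : |Real.sinh u.re| ≤ Real.cosh u.re := by
      refine abs_le_of_sq_le_sq ?_ (by linarith)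
      rw [Real.cosh_sq]; linarith
    calc _ ≤ Real.cosh u.re * |u.im| := mul_le_mul c4 c3 (abs_nonneg _) (by linarith)
      _ = |u.im| * Real.cosh u.re * 1 := by ring
      _ ≤ |u.im| * Real.cosh u.re * (101 / 100 * Real.cos u.im) :=
          mul_le_mul_of_nonneg_left (by linarith) (by positivity)
      _ = _ := by ring
  · rw [log_re, Real.le_log_iff_exp_le p']
    refine le_trans ?_ (re_le_norm _)
    rw [cosh_re, ← Real.cosh_abs, Real.cosh_eq, Real.exp_sub]
    have e1 := Real.exp_one_gt_d9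
    have e2 := Real.exp_pos |u.re|
    have e3 := Real.exp_pos (-|u.re|)
    rw [div_le_iff₀ (by positivity)]
    have e4 : Real.exp |u.re| / 2 * (998 / 1000) * 2.7 ≤
        (Real.exp |u.re| + Real.exp (-|u.re|)) / 2 * Real.cos u.im * Real.exp 1 :=
      mul_le_mul (mul_le_mul (by linarith) c1 (by norm_num) (by positivity)) (by linarith)
        (by norm_num) (by positivity)
    linarith
  · rw [log_re, Real.log_le_iff_le_exp p']
    exact norm_cosh_le_exp u

end Pool.Agent.MP_16212d_an.B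

end MrgPart2

-- marker of a merged file
example : 731051 + 626224 = 731051 + 626224 := rfl
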