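import Pool.Agent.MP_16212d_an.B.Top

-- ======== part 0: formerly Pool.Agent.MP_16212d_an.B.Steps
section MrgPart0

/-! Monotone steps and folding steps relative to the marked points. -/

open Complex Set Filter Topology Metric

namespace Pool.Agent.MP_16212d_an.B

noncomputable def qq (s lo hi : ℂ) : ℂ := (s - hi) / (hi - lo)

structure Thin (s lo hi : ℂ) : Prop where
  i1 : |(s - lo).im| ≤ 1 / 80
  i2 : |(s - hi).im| ≤ 1 / 80
  i3 : |(hi - lo).im| ≤ 1 / 80
  gap : 1 / 2 ≤ (hi - lo).re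
  n1 : s ≠ lo
  n2 : s ≠ hi

lemma Cn_div {u v : ℂ} (hu : 1 / 10 ≤ u.re) (hv : 1 / 10 ≤ v.re) (iu : |u.im| ≤ 1 / 80)
    (iv : |v.im| ≤ 1 / 80) : Cn (u / v) := by
  have n : 0 < normSq v := normSq_pos.2 fun e => by rw [e] at hv; norm_num at hv
  have a : |u.im| ≤ u.re / 8 := by linarith
  have b : |v.im| ≤ v.re / 8 := by linarith
  have p : 0 < u.re * v.re := by positivity
  have c : |u.im * v.im| ≤ u.re * v.re / 64 := by
    rw [abs_mul]
    calc _ ≤ u.re / 8 * (v.re / 8) := mul_le_mul a b (abs_nonneg _) (by linarith)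
      _ = _ := by ring
  have d : |u.im * v.re - u.re * v.im| ≤ u.re * v.re / 4 := by
    refine (abs_sub _ _).trans ?_
    rw [abs_mul, abs_mul, abs_of_pos (by linarith : 0 < v.re), abs_of_pos (by linarith : 0 < u.re)]
    have := mul_le_mul_of_nonneg_right a (by linarith : 0 ≤ v.re)
    have := mul_le_mul_of_nonneg_left b (by linarith : 0 ≤ u.re)
    linarith
  have e := neg_abs_le (u.im * v.im)
  rw [Cn, div_re, div_im, ← add_div, ← sub_div, abs_div, abs_of_pos n, ← mul_div_assoc,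
    div_le_div_iff_of_pos_right n]
  exact ⟨div_pos (by linarith) n, by linarith⟩

lemma Thin.ne {s lo hi : ℂ} (h : Thin s lo hi) : hi - lo ≠ 0 := fun e => by
  have := h.gap; rw [e] at this; norm_num at this

lemma qq_add {s lo hi : ℂ} (h : hi - lo ≠ 0) : qq s lo hi + 1 = (s - lo) / (hi - lo) := by
  rw [qq]; field_simp; ring

lemma Thin.up {s lo hi : ℂ} (h : Thin s lo hi) (u : 1 / 10 < (s - lo).re) :
    Cn (qq s lo hi + 1) := by
  rw [qq_add h.ne]; exact Cn_div u.le (by linarith [h.gap]) h.i1 h.i3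

lemma Thin.dn {s lo hi : ℂ} (h : Thin s lo hi) (u : (s - hi).re < -(1 / 10)) :
    Cn (-qq s lo hi) := by
  rw [qq, ← neg_div]
  exact Cn_div (by rw [neg_re]; linarith) (by linarith [h.gap]) (by rw [neg_im, abs_neg]; exact h.i2) h.i3

lemma Thin.far {s lo hi : ℂ} (h : Thin s lo hi) (u : 1 / 10 < (s - hi).re) :
    Cn (qq s lo hi + 1) ∧ Cn (qq s lo hi) := by
  have := h.gap
  refine ⟨h.up ?_, Cn_div u.le (by linarith) h.i2 h.i3⟩
  simp only [sub_re] at *; linarith

lemma Thin.cov {s lo hi : ℂ} (h : Thin s lo hi) :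
    1 / 10 < (s - lo).re ∨ (s - hi).re < -(1 / 10) := by
  have := h.gap
  simp only [sub_re] at *
  by_contra hh
  push Not at hh
  linarith [hh.1, hh.2]

lemma cone_adm {a : ℝ} (ha : 0 < a) {D N : ℂ} (hD : Cone a (1 / 4) D) (hN : Cone a (1 / 4) N) :
    Adm (D / N) := by
  obtain ⟨d1, d2⟩ := hD
  obtain ⟨e1, e2⟩ := hN
  have n : 0 < normSq N := normSq_pos.2 fun e => by rw [e] at e1; simp at e1; linarith
  have p : 0 < D.re * N.re := mul_pos (by linarith) (by linarith)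
  have c : |D.im * N.im| ≤ D.re * N.re / 16 := by
    rw [abs_mul]
    calc _ ≤ 1 / 4 * D.re * (1 / 4 * N.re) := mul_le_mul d2 e2 (abs_nonneg _) (by linarith)
      _ = _ := by ring
  right
  rw [div_re, ← add_div]
  exact div_pos (by linarith [neg_abs_le (D.im * N.im)]) n

lemma cone_expand {D u : ℂ} (hD : Cone 1000 (1 / 4) D) (h : 1 / 10 ≤ u.re) (i : |u.im| ≤ 1 / 80) :
    1 ≤ (D * u).re := by
  obtain ⟨d1, d2⟩ := hD
  have c : |D.im * u.im| ≤ 1 / 4 * D.re * (1 / 80) := by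
    rw [abs_mul]; exact mul_le_mul d2 i (abs_nonneg _) (by linarith)
  have := mul_le_mul_of_nonneg_left h (by linarith : 0 ≤ D.re)
  rw [mul_re]
  linarith [le_abs_self (D.im * u.im)]

structure MonoRel (s lo hi s' lo' hi' : ℂ) : Prop where
  a1 : Adm ((qq s' lo' hi' + 1) / (qq s lo hi + 1))
  a2 : Adm (qq s' lo' hi' / qq s lo hi)
  up : 1 / 10 < (s - lo).re → 1 / 10 < (s' - lo').re
  dn : (s - hi).re < -(1 / 10) → (s' - hi').re < -(1 / 10)

structure FoldRel (s lo hi s' lo' hi' : ℂ) : Prop where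
  a1 : Adm (-qq s' lo' hi' / (qq s lo hi + 1))
  a2 : Adm (-(qq s' lo' hi' + 1) / qq s lo hi)
  dn : (s - hi).re < -(1 / 10) → 1 / 10 < (s' - lo').re
  up : 1 / 10 < (s - lo).re → (s' - hi').re < -(1 / 10) ∨ 1 / 10 < (s' - hi').re
  far : 1 / 10 ≤ (s - hi).re → 1 / 10 < (s' - hi').re

lemma Thin.refl {s lo hi : ℂ} (h : Thin s lo hi) : MonoRel s lo hi s lo hi := by
  have n1 : qq s lo hi + 1 ≠ 0 := by
    rw [qq_add h.ne]; exact div_ne_zero (sub_ne_zero.2 h.n1) h.ne
  have n2 : qq s lo hi ≠ 0 := div_ne_zero (sub_ne_zero.2 h.n2) h.ne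
  exact ⟨by rw [div_self n1]; right; simp, by rw [div_self n2]; right; simp, id, id⟩

lemma Thin.mono {s lo hi s' lo' hi' D1 D2 D3 : ℂ} (h : Thin s lo hi)
    (c1 : Cone 1000 (1 / 4) D1) (c2 : Cone 1000 (1 / 4) D2) (c3 : Cone 1000 (1 / 4) D3)
    (e1 : s' - lo' = D1 * (s - lo)) (e2 : s' - hi' = D2 * (s - hi))
    (e3 : hi' - lo' = D3 * (hi - lo)) :
    MonoRel s lo hi s' lo' hi' ∧ (1 / 10 ≤ (s - hi).re → 1 / 10 < (s' - hi').re) := by
  have n := h.ne
  have n1 := sub_ne_zero.2 h.n1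
  have n2 := sub_ne_zero.2 h.n2
  have n3 : D3 ≠ 0 := fun e => by have := c3.1; rw [e] at this; norm_num at this
  have n4 : hi' - lo' ≠ 0 := by rw [e3]; exact mul_ne_zero n3 n
  refine ⟨⟨?_, ?_, fun u => ?_, fun u => ?_⟩, fun u => ?_⟩
  · rw [qq_add n, qq_add n4, e1, e3]
    convert cone_adm (by norm_num) c1 c3 using 1
    field_simp
  · rw [qq, qq, e2, e3]
    convert cone_adm (by norm_num) c2 c3 using 1
    field_simp
  · rw [e1]; linarith [cone_expand c1 u.le h.i1]
  · have := cone_expand c2 (u := -(s - hi)) (by rw [neg_re]; linarith) (by rw [neg_im, abs_neg]; exact h.i2)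
    rw [mul_neg, neg_re, ← e2] at this
    linarith
  · rw [e2]; linarith [cone_expand c2 u h.i2]

lemma fold_adm {N D : ℂ} (n1 : N.re < 0) (n2 : 0 < N.im) (d : 0 < D.im) : Adm (N / D) := by
  have n : 0 < normSq D := normSq_pos.2 fun e => by rw [e] at d; simp at d
  rw [Adm, div_re, div_im, ← add_div, ← sub_div]
  rcases le_total 0 D.re with h | h
  · left; exact div_pos (by nlinarith) n
  · right; exact div_pos (by nlinarith) n

lemma ups_slope (j : ℕ) {u v : ℂ} (hu : |u.im| ≤ 4) (hv : |v.im| ≤ 4) (n : u ≠ v) :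
    0 < ((UK (some j) u - UK (some j) v) / (u - v)).im := by
  obtain ⟨w, hw, e⟩ := mvt_slope (convex_im 0 4) (fun w hw =>
    hasDerivAt_ups (ρ := rho j) (ℓ := ell j) (th_pos j) (th_le j) (lam := w) (by simpa using hw))
    (u := u) (v := v) (by simpa using hu) (by simpa using hv) n (-I)
  have := ups'_im (ℓ := ell j) (th_pos j) (th_le j) (lam := w) (by simpa using hw)
  simp only [neg_mul, neg_re, mul_re, I_re, zero_mul, I_im, one_mul, zero_sub, neg_neg] at e
  simp only [UK]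
  rwa [e]

lemma ups_slope' (j : ℕ) {u v : ℂ} (hu : |u.im| ≤ 4) (hv : |v.im| ≤ 4)
    (hu' : u.re ≤ ell j - 1 / 2) (hv' : v.re ≤ ell j - 1 / 2) (n : u ≠ v) :
    ((UK (some j) u - UK (some j) v) / (u - v)).re < 0 := by
  obtain ⟨w, hw, e⟩ := mvt_slope ((convex_im 0 4).inter (convex_re_le (ell j - 1 / 2)))
    (fun w hw => hasDerivAt_ups (ρ := rho j) (ℓ := ell j) (th_pos j) (th_le j) (lam := w)
      (by simpa using hw.1))
    (u := u) (v := v) ⟨by simpa using hu, hu'⟩ ⟨by simpa using hv, hv'⟩ n 1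
  have := ups'_re (ℓ := ell j) (th_pos j) (th_le j) (lam := w) (by simpa using hw.1)
    (by have : w.re ≤ _ := hw.2; linarith)
  simp only [one_mul] at e
  simp only [UK]
  rwa [e]

lemma ups_lip (j : ℕ) {u v : ℂ} (hu : |u.im| ≤ 4) (hv : |v.im| ≤ 4) :
    ‖UK (some j) u - UK (some j) v‖ ≤ 1 / 8000 * ‖u - v‖ :=
  lip (convex_im 0 4) (fun w hw =>
    hasDerivAt_ups (ρ := rho j) (ℓ := ell j) (th_pos j) (th_le j) (lam := w) (by simpa using hw))
    (fun w hw => (norm_ups' (th_pos j) (th_le j) (by simpa using hw)).trans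
      (by linarith [th_le j])) (by simpa using hu) (by simpa using hv)

lemma Thin.fold {j : ℕ} {s lo hi : ℂ} (h : Thin s lo hi) (b1 : |s.im| ≤ 4) (b2 : |lo.im| ≤ 4)
    (b3 : |hi.im| ≤ 4) (c1 : lo.re - 2 ≤ s.re) (c2 : hi.re ≤ ell j - 3 / 4) :
    FoldRel (UK (some j) s) (UK (some j) hi) (UK (some j) lo) s lo hi := by
  have n := h.ne
  have n1 := sub_ne_zero.2 h.n1
  have n2 := sub_ne_zero.2 h.n2
  have g := h.gap
  rw [sub_re] at g
  have d1 := ups_slope j b1 b2 h.n1
  have d2 := ups_slope j b1 b3 h.n2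
  have d3 := ups_slope j b3 b2 (sub_ne_zero.1 n)
  have d4 := ups_slope' j b3 b2 (by linarith) (by linarith) (sub_ne_zero.1 n)
  have nz : ∀ {a b : ℂ}, 0 < (a / b).im → a ≠ 0 := fun h e => by rw [e] at h; simp at h
  have m1 := nz d1
  have m2 := nz d2
  have m3 := nz d3
  have m4 : UK (some j) lo - UK (some j) hi ≠ 0 := fun e => m3 (by linear_combination -e)
  have small : ∀ {v : ℂ}, |v.im| ≤ 4 → |(s - v).im| ≤ 1 / 80 → |(s - v).re| ≤ 2 →
      |(UK (some j) s - UK (some j) v).re| < 1 / 10 := fun {v} a b c => by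
    have := ups_lip j b1 a
    have := norm_le_abs_re_add_abs_im (s - v)
    linarith [abs_re_le_norm (UK (some j) s - UK (some j) v)]
  refine ⟨?_, ?_, fun u => ?_, fun u => ?_, fun u => ?_⟩
  · rw [qq_add m4, qq]
    convert fold_adm d4 d3 d2 using 1
    field_simp
    ring
  · rw [qq_add n, qq]
    convert fold_adm d4 d3 d1 using 1
    field_simp
    ring
  · by_contra hh
    have := small b2 h.i1 (by rw [abs_le, sub_re] at *; constructor <;> linarith [not_lt.1 hh])
    linarith [(abs_lt.1 this).1]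
  · by_contra hh
    push Not at hh
    have := small b3 h.i2 (abs_le.2 ⟨by linarith [hh.1], by linarith [hh.2]⟩)
    linarith [(abs_lt.1 this).2]
  · by_contra hh
    have hh := not_lt.1 hh
    rw [sub_re] at hh
    rcases le_total s.re lo.re with c | c
    · have := small b2 h.i1 (by rw [abs_le, sub_re]; constructor <;> linarith)
      linarith [(abs_lt.1 this).2]
    · have d5 := ups_slope' j b1 b2 (by linarith) (by linarith) h.n1
      have d6 := ups_lip j b1 b2
      set D := (UK (some j) s - UK (some j) lo) / (s - lo) with hD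
      have e : UK (some j) s - UK (some j) lo = D * (s - lo) := by rw [hD]; field_simp
      rw [e, norm_mul] at d6
      have d7 : ‖D‖ ≤ 1 / 8000 := le_of_mul_le_mul_right d6 (norm_pos_iff.2 n1)
      have d8 : |D.im * (s - lo).im| ≤ 1 / 8000 * (1 / 80) := by
        rw [abs_mul]
        exact mul_le_mul ((abs_im_le_norm D).trans d7) h.i1 (abs_nonneg _) (by norm_num)
      have d9 : D.re * (s - lo).re ≤ 0 :=
        mul_nonpos_of_nonpos_of_nonneg d5.le (by rw [sub_re]; linarith)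
      rw [e, mul_re] at u
      linarith [neg_abs_le (D.im * (s - lo).im)]

lemma exp_slope {u v : ℂ} (hu : -1 ≤ u.re) (hv : -1 ≤ v.re) (iu : |u.im - ph 0| ≤ 1 / 100)
    (iv : |v.im - ph 0| ≤ 1 / 100) (n : u ≠ v) :
    Cone (1 / 10) (1 / 4) (cexp (-(ph 0 * I)) * ((cexp u - cexp v) / (u - v))) := by
  refine cone_slope ((convex_re_ge (-1)).inter (convex_im (ph 0) (1 / 100)))
    (fun w _ => Complex.hasDerivAt_exp w) ⟨hu, iu⟩ ⟨hv, iv⟩ n _ fun w hw => ?_
  have w1 : -1 ≤ w.re := hw.1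
  have w2 : |w.im - ph 0| ≤ 1 / 100 := hw.2
  have f1 := cos_ge_small (y := w.im - ph 0) (by linarith)
  have f2 := (Real.abs_sin_le_abs (x := w.im - ph 0)).trans w2
  have p : 1 / 3 ≤ Real.exp w.re := by
    refine le_trans ?_ (Real.exp_le_exp.2 w1)
    rw [Real.exp_neg, ← one_div]
    exact one_div_le_one_div_of_le (Real.exp_pos _) (by linarith [Real.exp_one_lt_d9])
  rw [← Complex.exp_add]
  have e1 : (-(ph 0 * I) + w).re = w.re := by simp
  have e2 : (-(ph 0 * I) + w).im = w.im - ph 0 := by simp; ring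
  constructor
  · rw [exp_re, e1, e2]; nlinarith
  · rw [exp_re, exp_im, e1, e2, abs_mul, Real.abs_exp]; nlinarith

lemma first_step {α β η u : ℂ} (hp : Par α β) (h1 : -1 ≤ η.re) (h2 : |η.im - ph 0| ≤ 1 / 100)
    (n1 : η ≠ β) (n2 : η ≠ α) (e : gg α β u = cexp η) :
    Adm ((qq η β α + 1) / Complex.cosh (u / 2) ^ 2) ∧ Adm (qq η β α / Complex.sinh (u / 2) ^ 2) := by
  obtain ⟨p1, p2, p3, p4⟩ := hp
  have a := abs_le.1 p1
  have b := abs_le.1 p2
  have n : α ≠ β := fun e => by rw [e] at a; linarith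
  have c1 := exp_slope h1 (by linarith) h2 p4 n1
  have c2 := exp_slope h1 (by linarith) h2 p3 n2
  have c3 := exp_slope (by linarith) (by linarith) p3 p4 n
  have nz : ∀ {c a b : ℂ}, Cone (1 / 10) (1 / 4) (c * (a / b)) → a ≠ 0 := fun h e => by
    have := h.1; rw [e] at this; norm_num at this
  have m1 := nz c1
  have m2 := nz c2
  have m3 := nz c3
  have k1 := sub_ne_zero.2 n1
  have k2 := sub_ne_zero.2 n2
  have k3 := sub_ne_zero.2 n
  have k4 := exp_ne_zero (-(ph 0 * I))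
  have s := Complex.cosh_sq (u / 2)
  have e1 : Complex.cosh (u / 2) ^ 2 = (cexp η - cexp β) / (cexp α - cexp β) := by
    rw [eq_div_iff m3, ← e, gg]; linear_combination (-cexp β) * s
  have e2 : Complex.sinh (u / 2) ^ 2 = (cexp η - cexp α) / (cexp α - cexp β) := by
    rw [eq_div_iff m3, ← e, gg]; linear_combination (-cexp α) * s
  rw [e1, e2, qq_add k3, qq]
  constructor
  · convert cone_adm (by norm_num) c3 c1 using 1
    field_simp
  · convert cone_adm (by norm_num) c3 c2 using 1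
    field_simp

end Pool.Agent.MP_16212d_an.B

end MrgPart0

-- ======== part 1: formerly Pool.Agent.MP_16212d_an.B.Dyn
section MrgPart1

/-! The dynamics: trap, marked orbits and confinement of connected sets of escaping points. -/

open Complex Set Filter Topology Metric

namespace Pool.Agent.MP_16212d_an.B

noncomputable def ff (τ : ℕ × Fin 3 → ℂ) (z : ℂ) : ℂ := gg (al τ) (be τ) (H z)

def Esc (f : ℂ → ℂ) (z : ℂ) : Prop := Tendsto (fun n : ℕ => ‖f^[n] z‖) atTop atTop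

lemma esc_iter {f : ℂ → ℂ} {z : ℂ} (k : ℕ) : Esc f (f^[k] z) ↔ Esc f z := by
  unfold Esc
  rw [← tendsto_add_atTop_iff_nat (f := fun n : ℕ => ‖f^[n] z‖) k]
  simp only [Function.iterate_add_apply]

lemma differentiable_ff (τ : ℕ × Fin 3 → ℂ) : Differentiable ℂ (ff τ) := by
  have := differentiable_H
  unfold ff gg
  fun_prop

lemma hb_re : hb.re = -10000 := by simp [hb]

def rl (b : Fin 3) (n : ℕ) : Fin 3 := if Even (st n).1 then b else b.rev

lemma rl_succ (b : Fin 3) (n : ℕ) : rl b (n + 1) = sw (n + 1) (rl b n) := by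
  rcases st_succ n with e | ⟨e, -⟩
  · simp [rl, sw, e]
  · simp only [rl, sw, e, Nat.even_add_one, if_true]
    by_cases h : Even (st n).1 <;> simp [h]

lemma sw_one (n : ℕ) : sw n 1 = 1 := by unfold sw; split_ifs <;> rfl

lemma exists_one (N : ℕ) (j : ℕ) (h : N ≤ j) : ∃ n, N ≤ n ∧ st n = (j, 1) := by
  obtain ⟨n, a, b⟩ := exists_st j
  exact ⟨n + 1, by omega, by rw [st, b, nxt, if_pos (by simp)]⟩

lemma norm_Psi (κ : Option ℕ) (t : ℂ) : ‖Psi κ t‖ = Real.exp (Ups κ t).re := Complex.norm_exp _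

lemma Ups_im (κ : Option ℕ) (t : ℂ) : |(Ups κ t).im| ≤ 4 := by
  cases κ with
  | none => exact log_im_le _
  | some j =>
    have a := abs_le.1 (ups_im (ρ := rho j) (ℓ := ell j) (th_pos j) (th_le j)
      (log_im_le (t + MK (some j))))
    rw [rho_im] at a
    have p := ph_mem j
    have q := th_pos j
    simp only [Ups, UK]
    rw [abs_le]; constructor <;> linarith

lemma Ups_big (n : ℕ) {t : ℂ} (h : -6 < t.re) : 29 ≤ (Ups (KK (n + 1)) t).re := by
  rcases st_succ n with e | ⟨e, -⟩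
  · simp only [KK, e, Nat.succ_ne_zero, if_false, Ups, UK, MK]
    have a := re_le_norm (t + RR)
    simp only [add_re, ofReal_re] at a
    have b := RR_ge
    rw [log_re, Real.le_log_iff_exp_le (by linarith)]
    have c : RR = Real.exp 29 * Real.exp 1 := by rw [RR, ← Real.exp_add]; norm_num
    nlinarith [Real.add_one_le_exp 1, Real.exp_one_lt_d9, Real.exp_pos 29]
  · simp only [KK, e, if_true, Ups]
    have a := (hook_pt (j := (st n).1 + 1) (log_im_le (t + MK (some ((st n).1 + 1))))).2.2.2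
    linarith [ent_ge (st n).1, Nat.cast_nonneg (α := ℝ) (st n).1]

section
variable {τ : ℕ × Fin 3 → ℂ} (hτ : Mk τ)
include hτ

lemma ff_out {z : ℂ} (h : ∀ κ, ¬ InT κ z) : ff τ z ∈ B0 ∧ ‖ff τ z‖ ≤ Real.exp 10017 := by
  have a := H_out h
  refine ⟨gg_trap hτ.1.par (s := 0) le_rfl (by simp; linarith), (norm_gg hτ.1.par _).trans ?_⟩
  have b := abs_le.1 ((abs_re_le_norm _).trans a)
  rw [sub_re, hb_re] at b
  exact Real.exp_le_exp.2 (by rw [abs_of_neg (by linarith)]; linarith)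

lemma not_esc_B0 {z : ℂ} (h : z ∈ B0) : ¬ Esc (ff τ) z := by
  have a : ∀ n, (ff τ)^[n] z ∈ B0 := by
    intro n
    induction n with
    | zero => exact h
    | succ n ih => rw [Function.iterate_succ_apply']; exact (ff_out hτ (not_InT ih)).1
  intro he
  obtain ⟨n, hn⟩ := (((tendsto_add_atTop_iff_nat 1).2 he).eventually_gt_atTop
    (Real.exp 10017)).exists
  rw [Function.iterate_succ_apply'] at hn
  linarith [(ff_out hτ (not_InT (a n))).2]

lemma esc_InT {z : ℂ} (h : Esc (ff τ) z) : ∃ κ, InT κ z := by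
  by_contra hh
  push Not at hh
  exact not_esc_B0 hτ (ff_out hτ hh).1 ((esc_iter 1).2 h)

lemma esc_im {κ : Option ℕ} {t : ℂ} (h0 : -6 < t.re) (h : Esc (ff τ) (Psi κ t)) :
    |t.im| ≠ Real.pi := by
  intro e
  refine not_esc_B0 hτ (gg_trap hτ.1.par (s := Real.exp t.re) (Real.exp_pos _).le ?_)
    ((esc_iter 1).2 h)
  have a := H_Psi κ h0
  have b : cexp t = -Real.exp t.re := by
    apply Complex.ext
    · rw [exp_re, ← Real.cos_abs, e, Real.cos_pi, neg_re, ofReal_re, mul_neg_one]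
    · rw [exp_im]
      rcases (abs_eq Real.pi_pos.le).1 e with e | e <;> rw [e] <;> simp
  rw [b, sub_neg_eq_add] at a
  linarith

lemma confine {S : Set ℂ} (hS : IsPreconnected S) (he : ∀ z ∈ S, Esc (ff τ) z) {κ : Option ℕ}
    {u : ℂ} (hu : Psi κ u ∈ S) (h1 : -6 < u.re) (h2 : |u.im| < Real.pi) :
    ContinuousOn (tc κ) S ∧
      ∀ z ∈ S, -6 < (tc κ z).re ∧ Psi κ (tc κ z) = z ∧ |(tc κ z).im| < Real.pi := by
  have a := InT_sep hS (fun z hz => esc_InT hτ (he z hz)) hu ⟨u, h1, rfl⟩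
  have b : ∀ z ∈ S, ContinuousAt (tc κ) z ∧ -6 < (tc κ z).re ∧ Psi κ (tc κ z) = z := by
    intro z hz
    obtain ⟨t, c, rfl⟩ := a z hz
    obtain ⟨d1, d2⟩ := tc_Psi κ c
    exact ⟨d2, by rwa [d1], by rw [d1]⟩
  have c : ContinuousOn (tc κ) S := fun z hz => (b z hz).1.continuousWithinAt
  have d := lt_of_ne hS (φ := fun z => |(tc κ z).im|)
    (continuous_abs.comp_continuousOn (continuous_im.comp_continuousOn c)) (c := Real.pi)
    (fun z hz => esc_im hτ (b z hz).2.1 (by rw [(b z hz).2.2]; exact he z hz)) hu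
    (by rwa [(tc_Psi κ h1).1])
  exact ⟨c, fun z hz => ⟨(b z hz).2.1, (b z hz).2.2, d z hz⟩⟩

lemma mark_GG (p : ℕ × Fin 3) : τ p ∈ GG := box_GG (hτ.1 p)

lemma ff_mark (n : ℕ) (b : Fin 3) :
    ff τ (Psi (KK n) (τ (n, b))) = Psi (KK (n + 1)) (τ (n + 1, sw (n + 1) b)) := by
  rw [Psi, Psi, ← hτ.2, exp_LL hτ.1.par (by linarith [hh_re (KK n) (mark_GG hτ (n, b))])]
  rfl

lemma iter_mark (b : Fin 3) (n : ℕ) :
    (ff τ)^[n] (Psi (KK 0) (τ (0, b))) = Psi (KK n) (τ (n, rl b n)) := by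
  induction n with
  | zero => simp [rl, st]
  | succ n ih => rw [Function.iterate_succ_apply', ih, ff_mark hτ, rl_succ]

lemma lo_bound {n j : ℕ} (h : st n = (j, 1)) :
    (Complex.log (τ (n, 0) + MK (KK n))).re ≤ Real.exp 12 := by
  have a := abs_le.1 ((abs_re_le_norm _).trans (lam_box (hτ.1 (n, 0))))
  rw [h, Lm_one, sub_re, ofReal_re] at a
  linarith

lemma not_esc_mark (n : ℕ) {b : Fin 3} (hb : b ≠ 1) : ¬ Esc (ff τ) (Psi (KK n) (τ (n, b))) := by
  have e : rl (rl b n) n = b := by unfold rl; split_ifs <;> simp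
  rw [← e, ← iter_mark hτ, esc_iter]
  have hb' : rl b n = 0 ∨ rl b n = 2 := by
    unfold rl; split_ifs <;> fin_cases b <;> simp_all
  intro he
  obtain ⟨N, hN⟩ := eventually_atTop.1 (he.eventually_gt_atTop (Real.exp (Real.exp 12)))
  obtain ⟨k, a1, j, a2, a3⟩ : ∃ k, N ≤ k ∧ ∃ j, st k = (j, 1) ∧ rl (rl b n) k = 0 := by
    rcases hb' with h | h
    · obtain ⟨k, c1, c2⟩ := exists_one N (2 * N) (by omega)
      exact ⟨k, c1, _, c2, by rw [h, rl, c2]; simp⟩
    · obtain ⟨k, c1, c2⟩ := exists_one N (2 * N + 1) (by omega)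
      exact ⟨k, c1, _, c2, by rw [h, rl, c2]; simp⟩
  have b1 := hN k a1
  rw [iter_mark hτ, a3, norm_Psi, Real.exp_lt_exp] at b1
  have b2 := lo_bound hτ a2
  simp only [KK, a2, one_ne_zero, if_false, Ups, UK] at b1 b2
  linarith

lemma esc_mid : Esc (ff τ) (Psi (KK 0) (τ (0, 1))) := by
  refine tendsto_atTop_mono (fun n => ?_) (tendsto_natCast_atTop_atTop.comp st_tendsto)
  have e : rl 1 n = 1 := by unfold rl; split_ifs <;> rfl
  rw [iter_mark hτ, e, norm_Psi]
  refine le_trans ?_ (Real.add_one_le_exp _)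
  have a := abs_le.1 ((abs_re_le_norm _).trans (lam_box (hτ.1 (n, 1))))
  simp only [Function.comp, Ups]
  rcases h : (st n).2 with _ | i
  · simp only [KK, h, if_true]
    have b := (hook_pt (j := (st n).1) (log_im_le (τ (n, 1) + MK (some ((st n).1))))).2.2.2
    linarith [ent_ge' (st n).1]
  · have b := Lm_mid (st n).1 i
    rw [h, sub_re, ofReal_re] at a
    simp only [KK, h, Nat.succ_ne_zero, if_false, UK] at a ⊢
    linarith

lemma exists_x : ∃ u : ℂ, -6 < u.re ∧ |u.im| < Real.pi ∧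
    ff τ (Psi none u) = Psi (KK 0) (τ (0, 1)) := by
  have hp := hτ.1.par
  have n : cexp (al τ) - cexp (be τ) ≠ 0 := by
    intro e
    have := congrArg norm (sub_eq_zero.1 e)
    rw [Complex.norm_exp, Complex.norm_exp, Real.exp_eq_exp] at this
    linarith [(abs_le.1 hp.1).1, (abs_le.1 hp.2.1).2]
  obtain ⟨ζ, a1, a2, a3⟩ := exists_cosh_re ((2 * Psi (KK 0) (τ (0, 1)) - cexp (al τ) -
    cexp (be τ)) / (cexp (al τ) - cexp (be τ)))
  have b : gg (al τ) (be τ) ζ = Psi (KK 0) (τ (0, 1)) := by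
    have c1 := Complex.cosh_two_mul (ζ / 2)
    have c2 := Complex.cosh_sq (ζ / 2)
    rw [mul_div_cancel₀ _ two_ne_zero, a3, div_eq_iff n] at c1
    rw [gg]
    linear_combination (-1 / 2 : ℂ) * c1 + (cexp (al τ) + cexp (be τ)) / 2 * c2
  have c0 : 10000 ≤ (ζ - hb).re := by rw [sub_re, hb_re]; linarith
  have c1 : 10000 ≤ ‖ζ - hb‖ := c0.trans (re_le_norm _)
  have c2 : cexp (Complex.log (ζ - hb)) = ζ - hb := Complex.exp_log (norm_pos_iff.1 (by linarith))
  have c3 : 0 ≤ (Complex.log (ζ - hb)).re := by rw [log_re]; exact Real.log_nonneg (by linarith)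
  have c4 : |(Complex.log (ζ - hb)).im| < Real.pi / 2 := by
    rw [log_im]; exact abs_arg_lt_pi_div_two_iff.2 (Or.inl (by linarith))
  set t₀ := Complex.log (ζ - hb)
  have d : ∀ t ∈ closedBall t₀ (1 / 2), -6 < t.re ∧ |t.im| < Real.pi := by
    intro t ht
    rw [mem_closedBall_iff_norm] at ht
    have d1 := abs_le.1 ((abs_re_le_norm _).trans ht)
    have d2 := (abs_im_le_norm _).trans ht
    rw [sub_re] at d1
    rw [sub_im] at d2
    exact ⟨by linarith, by linarith [abs_sub_abs_le_abs_sub t.im t₀.im, Real.pi_gt_three]⟩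
  obtain ⟨u, hu, e⟩ := min_mod (g := fun t => hh none t - ζ) (a := t₀) (r := 1 / 2) (C := 1)
    (by norm_num) (fun t ht => (differentiableAt_hh none (d t ht).1).sub_const _) (by
      have := H_Psi none (t := t₀) (by linarith)
      rw [c2, show H (Psi none t₀) - hb - (ζ - hb) = hh none t₀ - ζ by rw [hh]; ring] at this
      linarith) (fun t ht => by
      have e1 := H_Psi none (d t (sphere_subset_closedBall ht)).1
      have e2 : ‖t - t₀‖ = 1 / 2 := mem_sphere_iff_norm.1 ht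
      have e3 := Complex.norm_exp_sub_one_sub_id_le (x := t - t₀) (by linarith)
      have e4 := norm_sub_norm_le (t - t₀) (cexp (t - t₀) - 1)
      rw [← norm_neg (t - t₀ - _), show -(t - t₀ - (cexp (t - t₀) - 1)) =
        cexp (t - t₀) - 1 - (t - t₀) by ring] at e4
      rw [e2] at e3 e4
      have e5 : cexp t - (ζ - hb) = (ζ - hb) * (cexp (t - t₀) - 1) := by
        rw [Complex.exp_sub, c2]
        have := norm_pos_iff.1 (show 0 < ‖ζ - hb‖ by linarith)
        field_simp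
      have e6 : 10000 * (1 / 4) ≤ ‖cexp t - (ζ - hb)‖ := by
        rw [e5, norm_mul]; exact mul_le_mul c1 (by linarith) (by norm_num) (by linarith)
      have e7 := norm_sub_le (hh none t - ζ) (H (Psi none t) - hb - cexp t)
      rw [show hh none t - ζ - (H (Psi none t) - hb - cexp t) = cexp t - (ζ - hb) by
        rw [hh]; ring] at e7
      linarith)
  refine ⟨u, (d u hu).1, (d u hu).2, ?_⟩
  rw [← b, ← sub_eq_zero.1 e]
  rfl

lemma thin_of {κ κ' : Option ℕ} {t t' : ℂ} (h0 : -6 < t.re) (h1 : |t.im| < Real.pi)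
    (h2 : 13 ≤ (hh κ t).re) (e : LL (al τ) (be τ) (hh κ t) = Ups κ' t') : t ∈ GG := by
  have a := H_Psi κ h0
  have a1 := abs_le.1 ((abs_re_le_norm _).trans a)
  have a2 := abs_le.1 ((abs_im_le_norm _).trans a)
  have b := abs_le.1 ((abs_im_le_norm _).trans (LL_near hτ.1.par (h := hh κ t) (by linarith)))
  have c := abs_le.1 (Ups_im κ' t')
  have d := abs_le.1 hτ.1.par.2.2.1
  have p := ph_mem 0
  have q := th_pos 0
  have p3 := Real.pi_gt_three
  have p4 := Real.pi_le_four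
  have f : hb.im = ph 0 - Real.pi := by simp [hb]
  rw [e] at b
  unfold hh at b h2
  simp only [sub_re, sub_im, add_im, ofReal_im, hb_re, f] at a1 a2 b
  have g1 : 10010 ≤ (cexp t).re := by linarith
  have g2 : |(cexp t).im| ≤ 13 := abs_le.2 ⟨by linarith, by linarith⟩
  have g3 := abs_arg_le (w := cexp t) (by linarith)
  rw [← log_im, Complex.log_exp (abs_lt.1 h1).1 (abs_lt.1 h1).2.le] at g3
  refine mem_GG.2 ⟨g1.trans ((re_le_norm _).trans (Complex.norm_exp t).le), g3.trans ?_⟩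
  rw [div_le_iff₀ (by linarith)]
  linarith

end

noncomputable def tt (τ : ℕ × Fin 3 → ℂ) (n : ℕ) (z : ℂ) : ℂ := tc (KK n) ((ff τ)^[n + 1] z)

section
variable {τ : ℕ × Fin 3 → ℂ} (hτ : Mk τ) {Z : Set ℂ} (hZ : IsPreconnected Z)
  (he : ∀ z ∈ Z, Esc (ff τ) z) {x : ℂ} (hx : x ∈ Z) (h0 : ff τ x = Psi (KK 0) (τ (0, 1)))
include hτ h0

lemma iter_x (n : ℕ) : (ff τ)^[n + 1] x = Psi (KK n) (τ (n, 1)) := by
  have e : rl 1 n = 1 := by unfold rl; split_ifs <;> rfl
  rw [Function.iterate_succ_apply, h0, iter_mark hτ, e]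

lemma tt_x (n : ℕ) : tt τ n x = τ (n, 1) := by
  rw [tt, iter_x hτ h0, (tc_Psi _ (by linarith [GG_re (mark_GG hτ (n, 1))])).1]

include hZ he hx

lemma tt_spec (n : ℕ) : ContinuousOn (tt τ n) Z ∧ ∀ z ∈ Z, -6 < (tt τ n z).re ∧
    Psi (KK n) (tt τ n z) = (ff τ)^[n + 1] z ∧ |(tt τ n z).im| < Real.pi := by
  have c : Continuous (ff τ)^[n + 1] := (differentiable_ff τ).continuous.iterate _
  have g := mark_GG hτ (n, 1)
  obtain ⟨a, b⟩ := confine hτ (hZ.image _ c.continuousOn)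
    (by rintro _ ⟨z, hz, rfl⟩; exact (esc_iter _).2 (he z hz)) (κ := KK n) (u := τ (n, 1))
    ⟨x, hx, iter_x hτ h0 n⟩ (by linarith [GG_re g])
    (by linarith [(mem_GG.1 g).2, Real.pi_gt_three])
  exact ⟨a.comp c.continuousOn (mapsTo_image _ _), fun z hz => b _ ⟨z, hz, rfl⟩⟩

lemma tt_step (n : ℕ) : ∀ z ∈ Z, tt τ n z ∈ GG ∧
    LL (al τ) (be τ) (hh (KK n) (tt τ n z)) = Ups (KK (n + 1)) (tt τ (n + 1) z) := by
  obtain ⟨a1, a2⟩ := tt_spec hτ hZ he hx h0 n
  obtain ⟨b1, b2⟩ := tt_spec hτ hZ he hx h0 (n + 1)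
  have e : ∀ z ∈ Z, gg (al τ) (be τ) (hh (KK n) (tt τ n z)) =
      cexp (Ups (KK (n + 1)) (tt τ (n + 1) z)) := by
    intro z hz
    have := (b2 z hz).2.1
    rw [Function.iterate_succ_apply', ← (a2 z hz).2.1] at this
    exact this.symm
  have c1 : ∀ z ∈ Z, 13 ≤ |(hh (KK n) (tt τ n z)).re| := by
    intro z hz
    have := norm_gg hτ.1.par (hh (KK n) (tt τ n z))
    rw [e z hz, Complex.norm_exp, Real.exp_le_exp] at this
    linarith [Ups_big n (b2 z hz).1]
  have c2 : ContinuousOn (fun z => hh (KK n) (tt τ n z)) Z := fun z hz =>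
    (differentiableAt_hh _ (a2 z hz).1).continuousAt.comp_continuousWithinAt (a1 z hz)
  have c3 := gt_of_ne hZ (continuous_re.comp_continuousOn c2) (c := 0)
    (fun z hz h => by
      have := c1 z hz
      rw [show (hh (KK n) (tt τ n z)).re = 0 from h] at this
      norm_num at this) hx
    (by
      simp only [Function.comp, tt_x hτ h0]
      linarith [hh_re (KK n) (mark_GG hτ (n, 1))])
  have c4 : ∀ z ∈ Z, 13 ≤ (hh (KK n) (tt τ n z)).re := fun z hz => by
    have := c1 z hz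
    rwa [abs_of_pos (show 0 < (hh (KK n) (tt τ n z)).re from c3 z hz)] at this
  have c5 := zero_of_exp hZ (φ := fun z => LL (al τ) (be τ) (hh (KK n) (tt τ n z)) -
      Ups (KK (n + 1)) (tt τ (n + 1) z)) (ContinuousOn.sub (fun z hz => by
      obtain ⟨D, d, -⟩ := hasDerivAt_LL hτ.1.par (h := hh (KK n) (tt τ n z))
        (by linarith [c4 z hz])
      exact d.continuousAt.comp_continuousWithinAt (f := fun z => hh (KK n) (tt τ n z)) (c2 z hz))
    fun z hz => (differentiableAt_Ups _ (b2 z hz).1).continuousAt.comp_continuousWithinAt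
      (b1 z hz)) (fun z hz => by
      rw [Complex.exp_sub, exp_LL hτ.1.par (by linarith [c4 z hz]), e z hz,
        div_self (exp_ne_zero _)]) hx (by
      simp only [tt_x hτ h0]
      rw [hτ.2, sw_one, sub_self])
  intro z hz
  have c6 := sub_eq_zero.1 (c5 z hz)
  exact ⟨thin_of hτ (a2 z hz).1 (a2 z hz).2.2 (c4 z hz) c6, c6⟩

lemma tt_ne (n : ℕ) {b : Fin 3} (hb : b ≠ 1) : ∀ z ∈ Z, ¬ Psi (KK n) (tt τ n z) =
    Psi (KK n) (τ (n, b)) := by
  intro z hz e
  rw [((tt_spec hτ hZ he hx h0 n).2 z hz).2.1] at e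
  exact not_esc_mark hτ n hb (e ▸ (esc_iter _).2 (he z hz))

end

end Pool.Agent.MP_16212d_an.B

end MrgPart1

-- ======== part 2: formerly Pool.Agent.MP_16212d_an.B.Bound
section MrgPart2

/-! The component of the escaping set containing the marked point is bounded. -/

open Complex Set Filter Topology Metric

namespace Pool.Agent.MP_16212d_an.B

noncomputable def sL (n : ℕ) (u : ℂ) : ℂ := Complex.log (u + MK (KK n))

lemma Ups_thin (κ : Option ℕ) : ∃ c : ℝ, ∀ u ∈ GG, |(Ups κ u).im - c| ≤ 1 / 500 := by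
  cases κ with
  | none => exact ⟨0, fun u hu => by
      simp only [Ups, UK, sub_zero]; linarith [(lam_im none hu).1]⟩
  | some j =>
    refine ⟨ph j, fun u _ => ?_⟩
    have a := ups_im (ρ := rho j) (ℓ := ell j) (th_pos j) (th_le j) (log_im_le (u + MK (some j)))
    rw [rho_im] at a
    simp only [Ups, UK]
    linarith [th_le j]

lemma im_sub_le {a b : ℂ} {c : ℝ} (ha : |a.im - c| ≤ 1 / 500) (hb : |b.im - c| ≤ 1 / 500) :
    |(a - b).im| ≤ 1 / 80 := by
  have := abs_sub_le a.im c b.im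
  rw [abs_sub_comm c] at this
  rw [sub_im]; linarith

/-- A point of the thin strip that is not a marked end point. -/
def Good (τ : ℕ × Fin 3 → ℂ) (n : ℕ) (u : ℂ) : Prop :=
  u ∈ GG ∧ ∀ b : Fin 3, b ≠ 1 → ¬ Psi (KK n) u = Psi (KK n) (τ (n, b))

lemma sw_ne (n : ℕ) {b : Fin 3} (h : b ≠ 1) : sw n b ≠ 1 := by
  unfold sw; split_ifs
  · fin_cases b <;> simp_all
  · exact h

section
variable {τ : ℕ × Fin 3 → ℂ} (hτ : Mk τ)
include hτ

lemma sL_near (n : ℕ) (b : Fin 3) :
    |(sL n (τ (n, b))).re - Lm (st n).1 (st n).2 b| ≤ 1 / 2000 := by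
  simpa [sL] using (abs_re_le_norm _).trans (lam_box (hτ.1 (n, b)))

lemma sL_gap (n : ℕ) : 1 / 2 ≤ (sL n (τ (n, 2)) - sL n (τ (n, 0))).re ∧
    (sL n (τ (n, 1)) - sL n (τ (n, 2))).re < 0 := by
  have a := abs_le.1 (sL_near hτ n 0)
  have b := abs_le.1 (sL_near hτ n 1)
  have c := abs_le.1 (sL_near hτ n 2)
  obtain ⟨d, e⟩ := Lm_sep (st n).1 (st n).2
  simp only [sub_re]
  constructor <;> linarith

lemma thin_L {n : ℕ} {u : ℂ} (h : Good τ n u) :
    Thin (sL n u) (sL n (τ (n, 0))) (sL n (τ (n, 2))) := by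
  have k : ∀ v ∈ GG, |(sL n v).im - 0| ≤ 1 / 500 := fun v hv => by
    rw [sub_zero, sL]; linarith [(lam_im (KK n) hv).1]
  have g := mark_GG hτ
  refine ⟨im_sub_le (k _ h.1) (k _ (g _)), im_sub_le (k _ h.1) (k _ (g _)),
    im_sub_le (k _ (g _)) (k _ (g _)), (sL_gap hτ n).1, fun e => h.2 0 (by decide) ?_,
    fun e => h.2 2 (by decide) ?_⟩ <;>
  exact congrArg (fun w => cexp (UK (KK n) w)) e

lemma mark_slope (n : ℕ) : ∃ D, Cone 1000 (1 / 4) D ∧
    Ups (KK (n + 1)) (τ (n + 1, sw (n + 1) 2)) - Ups (KK (n + 1)) (τ (n + 1, sw (n + 1) 0)) =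
      D * (sL n (τ (n, 2)) - sL n (τ (n, 0))) := by
  rw [← hτ.2, ← hτ.2]
  refine mono_slope hτ.1.par _ (mark_GG hτ _) (mark_GG hτ _) fun e => ?_
  have := (sL_gap hτ n).1
  rw [e, sub_self] at this
  norm_num at this

lemma thin_E {n : ℕ} {u : ℂ} (h : Good τ n u) :
    Thin (Ups (KK n) u) (Ups (KK n) (τ (n, sw n 0))) (Ups (KK n) (τ (n, sw n 2))) := by
  obtain ⟨c, k⟩ := Ups_thin (KK n)
  have g := mark_GG hτ
  refine ⟨im_sub_le (k _ h.1) (k _ (g _)), im_sub_le (k _ h.1) (k _ (g _)),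
    im_sub_le (k _ (g _)) (k _ (g _)), ?_,
    fun e => h.2 _ (sw_ne n (b := 0) (by decide)) (congrArg cexp e),
    fun e => h.2 _ (sw_ne n (b := 2) (by decide)) (congrArg cexp e)⟩
  cases n with
  | zero =>
    have a := abs_le.1 hτ.1.par.1
    have b := abs_le.1 hτ.1.par.2.1
    change 1 / 2 ≤ (al τ - be τ).re
    rw [sub_re]; linarith
  | succ n =>
    obtain ⟨D, d, e⟩ := mark_slope hτ n
    have k : ∀ v ∈ GG, |(sL n v).im - 0| ≤ 1 / 500 := fun v hv => by
      rw [sub_zero, sL]; linarith [(lam_im (KK n) hv).1]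
    rw [e]
    linarith [cone_expand d (by linarith [(sL_gap hτ n).1]) (im_sub_le (k _ (g (n, 2)))
      (k _ (g (n, 0))))]

lemma mono_LE {n : ℕ} {u u' : ℂ} (h : Good τ n u)
    (e : LL (al τ) (be τ) (hh (KK n) u) = Ups (KK (n + 1)) u') :
    MonoRel (sL n u) (sL n (τ (n, 0))) (sL n (τ (n, 2))) (Ups (KK (n + 1)) u')
      (Ups (KK (n + 1)) (τ (n + 1, sw (n + 1) 0))) (Ups (KK (n + 1)) (τ (n + 1, sw (n + 1) 2))) ∧
    (1 / 10 ≤ (sL n u - sL n (τ (n, 2))).re →
      1 / 10 < (Ups (KK (n + 1)) u' - Ups (KK (n + 1)) (τ (n + 1, sw (n + 1) 2))).re) := by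
  obtain ⟨D3, c3, e3⟩ := mark_slope hτ n
  obtain ⟨D1, c1, e1⟩ := mono_slope hτ.1.par (KK n) h.1 (mark_GG hτ (n, 0))
    fun e => h.2 0 (by decide) (by rw [e])
  obtain ⟨D2, c2, e2⟩ := mono_slope hτ.1.par (KK n) h.1 (mark_GG hτ (n, 2))
    fun e => h.2 2 (by decide) (by rw [e])
  rw [e, hτ.2] at e1 e2
  exact (thin_L hτ h).mono c1 c2 c3 e1 e2 e3

lemma fold_EL {n : ℕ} {u : ℂ} (h : Good τ n u) (hn : (st n).2 = 0) :
    FoldRel (Ups (KK n) u) (Ups (KK n) (τ (n, sw n 0))) (Ups (KK n) (τ (n, sw n 2)))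
      (sL n u) (sL n (τ (n, 0))) (sL n (τ (n, 2))) := by
  have a := abs_le.1 (sL_near hτ n 0)
  have c := abs_le.1 (sL_near hτ n 2)
  rw [hn, Lm_zero] at a
  rw [hn] at c
  have := (thin_L hτ h).fold (j := (st n).1) (log_im_le _) (log_im_le _) (log_im_le _) (by
    have b := GG_re h.1
    have m := mm_ge (st n).1
    have d := re_le_norm (u + MK (KK n))
    have e : MK (KK n) = mm (st n).1 := by rw [MK_KK, MM, if_pos hn]
    rw [add_re, ofReal_re] at d
    have f : Real.log (12 + mm (st n).1) ≤ Real.log (2 * ‖u + MK (KK n)‖) :=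
      Real.log_le_log (by linarith) (by linarith)
    rw [Real.log_mul (by norm_num) (by linarith)] at f
    have g := Real.log_le_sub_one_of_pos (by norm_num : (0 : ℝ) < 2)
    rw [sL, sL, log_re] at *
    rw [log_re]
    linarith) (by linarith [Lm_ell (st n).1])
  have r0 : (0 : Fin 3).rev = 2 := rfl
  have r2 : (2 : Fin 3).rev = 0 := rfl
  simpa only [KK, sw, hn, if_true, Ups, sL, r0, r2] using this

omit hτ in
lemma id_EL {n : ℕ} (hn : (st n).2 ≠ 0) (u : ℂ) : Ups (KK n) u = sL n u := by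
  simp only [KK, sL, Ups, if_neg hn, UK]

end

noncomputable def co (m : ℕ) (u : ℂ) : ℂ := if m % 2 = 0 then Ups (KK (m / 2)) u else sL (m / 2) u

noncomputable def mk (τ : ℕ × Fin 3 → ℂ) (b : Fin 3) (m : ℕ) : ℂ :=
  co m (τ (m / 2, if m % 2 = 0 then sw (m / 2) b else b))

def fd (m : ℕ) : Prop := m % 2 = 0 ∧ (st (m / 2)).2 = 0

def pp (m : ℕ) : ℕ := (st (m / 2)).1 + if m % 2 = 0 ∧ (st (m / 2)).2 = 0 then 0 else 1

lemma ev1 (n : ℕ) : 2 * n % 2 = 0 := by omega
lemma ev2 (n : ℕ) : 2 * n / 2 = n := by omega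
lemma od1 (n : ℕ) : ¬ (2 * n + 1) % 2 = 0 := by omega
lemma od2 (n : ℕ) : (2 * n + 1) / 2 = n := by omega
lemma ev3 (n : ℕ) : (2 * n + 1 + 1) % 2 = 0 := by omega
lemma ev4 (n : ℕ) : (2 * n + 1 + 1) / 2 = n + 1 := by omega

section
variable {τ : ℕ × Fin 3 → ℂ} (hτ : Mk τ) {u : ℕ → ℂ} (hu : ∀ n, Good τ n (u n) ∧
  LL (al τ) (be τ) (hh (KK n) (u n)) = Ups (KK (n + 1)) (u (n + 1)))
include hτ hu

lemma co_thin (m : ℕ) : Thin (co m (u (m / 2))) (mk τ 0 m) (mk τ 2 m) := by
  unfold mk co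
  split_ifs
  · exact thin_E hτ (hu _).1
  · exact thin_L hτ (hu _).1

lemma co_fold {m : ℕ} (h : fd m) : FoldRel (co m (u (m / 2))) (mk τ 0 m) (mk τ 2 m)
    (co (m + 1) (u ((m + 1) / 2))) (mk τ 0 (m + 1)) (mk τ 2 (m + 1)) := by
  obtain ⟨n, rfl | rfl⟩ := Nat.even_or_odd' m
  · simp only [mk, co, ev1, ev2, od1, od2, if_true, if_false]
    exact fold_EL hτ (hu _).1 (by simpa only [ev2] using h.2)
  · exact absurd h.1 (od1 n)

lemma co_mono {m : ℕ} (h : ¬ fd m) : MonoRel (co m (u (m / 2))) (mk τ 0 m) (mk τ 2 m)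
    (co (m + 1) (u ((m + 1) / 2))) (mk τ 0 (m + 1)) (mk τ 2 (m + 1)) := by
  obtain ⟨n, rfl | rfl⟩ := Nat.even_or_odd' m
  · have hn : (st n).2 ≠ 0 := fun e => h ⟨ev1 n, by rwa [ev2]⟩
    simp only [mk, co, ev1, ev2, od1, od2, if_true, if_false, id_EL hn, sw, if_neg hn]
    exact (thin_L hτ (hu _).1).refl
  · simp only [mk, co, ev3, ev4, od1, od2, if_true, if_false]
    exact (mono_LE hτ (hu _).1 (hu _).2).1

lemma co_far (m : ℕ) : (1 / 10 < (co m (u (m / 2)) - mk τ 2 m).re →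
      1 / 10 < (co (m + 1) (u ((m + 1) / 2)) - mk τ 2 (m + 1)).re) ∧
    (1 / 10 ≤ (co m (u (m / 2)) - mk τ 2 m).re →
      1 / 10 < (co (m + 2) (u ((m + 2) / 2)) - mk τ 2 (m + 2)).re) := by
  have a : ∀ n, 1 / 10 ≤ (co (2 * n + 1) (u ((2 * n + 1) / 2)) - mk τ 2 (2 * n + 1)).re →
      1 / 10 < (co (2 * n + 1 + 1) (u ((2 * n + 1 + 1) / 2)) - mk τ 2 (2 * n + 1 + 1)).re := by
    intro n
    simp only [mk, co, ev3, ev4, od1, od2, if_true, if_false]
    exact (mono_LE hτ (hu _).1 (hu _).2).2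
  have b : ∀ n, (1 / 10 < (co (2 * n) (u (2 * n / 2)) - mk τ 2 (2 * n)).re →
      1 / 10 < (co (2 * n + 1) (u ((2 * n + 1) / 2)) - mk τ 2 (2 * n + 1)).re) ∧
      (1 / 10 ≤ (co (2 * n) (u (2 * n / 2)) - mk τ 2 (2 * n)).re →
      1 / 10 ≤ (co (2 * n + 1) (u ((2 * n + 1) / 2)) - mk τ 2 (2 * n + 1)).re) := by
    intro n
    by_cases hn : (st n).2 = 0
    · have := (co_fold hτ hu (m := 2 * n) ⟨ev1 n, by rwa [ev2]⟩).far
      exact ⟨fun h => this h.le, fun h => (this h).le⟩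
    · simp only [mk, co, ev1, ev2, od1, od2, if_true, if_false, id_EL hn, sw, if_neg hn]
      exact ⟨id, id⟩
  obtain ⟨n, rfl | rfl⟩ := Nat.even_or_odd' m
  · exact ⟨(b n).1, fun h => a n ((b n).2 h)⟩
  · exact ⟨fun h => a n h.le, fun h => (b (n + 1)).1 (a n h)⟩

end

lemma pp_step (m : ℕ) : (fd m → pp (m + 1) = pp m + 1) ∧ (¬ fd m → pp (m + 1) = pp m) := by
  obtain ⟨n, rfl | rfl⟩ := Nat.even_or_odd' m
  · simp only [fd, pp, ev1, ev2, od1, od2, true_and, false_and, if_false]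
    constructor <;> intro h <;> simp [h]
  · simp only [fd, pp, ev3, ev4, od1, od2, true_and, false_and, if_false]
    refine ⟨fun h => h.elim, fun _ => ?_⟩
    rcases st_succ n with e | ⟨e, -⟩ <;> simp [e]

lemma pp_tendsto : Tendsto pp atTop atTop :=
  tendsto_atTop_mono (fun _ => Nat.le_add_right _ _)
    (st_tendsto.comp (Nat.tendsto_div_const_atTop two_ne_zero))

lemma continuousAt_co (m : ℕ) {u : ℂ} (h : -6 < u.re) : ContinuousAt (co m) u := by
  unfold co
  split_ifs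
  · exact (differentiableAt_Ups _ h).continuousAt
  · exact (hasDerivAt_lam _ h).continuousAt

lemma bounded_H {τ : ℕ × Fin 3 → ℂ} (hτ : Mk τ) {Z : Set ℂ} (hZ : IsPreconnected Z)
    (he : ∀ z ∈ Z, Esc (ff τ) z) {x : ℂ} (hx : x ∈ Z) (h0 : ff τ x = Psi (KK 0) (τ (0, 1))) :
    ∃ C, ∀ z ∈ Z, ‖H z‖ ≤ C := by
  have : PreconnectedSpace Z := Subtype.preconnectedSpace hZ
  have hu : ∀ z : Z, ∀ n, Good τ n (tt τ n z) ∧
      LL (al τ) (be τ) (hh (KK n) (tt τ n z)) = Ups (KK (n + 1)) (tt τ (n + 1) z) := fun z n =>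
    ⟨⟨(tt_step hτ hZ he hx h0 n z z.2).1, fun b hb => tt_ne hτ hZ he hx h0 n hb z z.2⟩,
      (tt_step hτ hZ he hx h0 n z z.2).2⟩
  have sp := tt_spec hτ hZ he hx h0
  set s : ℕ → Z → ℂ := fun m z => co m (tt τ (m / 2) z) with hs
  have cs : ∀ m, Continuous (s m) := fun m => continuous_iff_continuousAt.2 fun z =>
    ContinuousAt.comp (f := fun z : Z => tt τ (m / 2) z) (continuousAt_co m ((sp _).2 z z.2).1)
      (sp _).1.domRestrict.continuousAt
  set q : ℕ → Z → ℂ := fun m z => qq (s m z) (mk τ 0 m) (mk τ 2 m) with hq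
  have cq : ∀ m, Continuous (q m) := fun m => ((cs m).sub continuous_const).div_const _
  have cH : Continuous fun z : Z => H z / 2 :=
    (differentiable_H.continuous.comp continuous_subtype_val).div_const _
  have f0 : ∀ z : Z, ff τ z = cexp (s 0 z) := fun z => ((sp 0).2 z z.2).2.1.symm
  have fs : ∀ z : Z, Adm ((q 0 z + 1) / Complex.cosh (H z / 2) ^ 2) ∧
      Adm (q 0 z / Complex.sinh (H z / 2) ^ 2) := by
    intro z
    have a := co_thin hτ (hu z) 0
    refine first_step hτ.1.par ?_ ?_ a.n1 a.n2 (f0 z)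
    · have := (hook_pt (j := 0) (log_im_le (tt τ 0 z + MK (some 0)))).2.2.2
      linarith [ent_ge' 0, show (s 0 z).re =
        (UK (some 0) (Complex.log (tt τ 0 z + MK (some 0)))).re from rfl]
    · have := ups_im (ρ := rho 0) (ℓ := ell 0) (th_pos 0) (th_le 0)
        (log_im_le (tt τ 0 z + MK (some 0)))
      rw [rho_im] at this
      exact le_trans this (by linarith [th_le 0])
  have os := om_spec (q := q) (fold := fd) (ω₀ := fun z => lift (H z / 2) (q 0 z)) cq
    (continuous_lift cH (cq 0) (fun z => (fs z).1) fun z => (fs z).2)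
    (fun z => (lift_spec (fs z).1 (fs z).2).2)
    (fun m z h => ⟨(co_mono hτ (hu z) h).a1, (co_mono hτ (hu z) h).a2⟩)
    (fun m z h => ⟨(co_fold hτ (hu z) h).a1, (co_fold hτ (hu z) h).a2⟩)
  set ω := om q fd fun z => lift (H z / 2) (q 0 z) with hω
  have ec : ∀ m z, Complex.cosh (ω m z) ^ 2 = q m z + 1 := fun m z => by
    rw [Complex.cosh_sq, (os m).1.2]
  have S : Sys ω pp (fun m => {z | 1 / 10 < (s m z - mk τ 0 m).re})
      (fun m => {z | (s m z - mk τ 2 m).re < -(1 / 10)})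
      (fun m => {z | 1 / 10 < (s m z - mk τ 2 m).re}) :=
    { p0 := rfl
      pt := pp_tendsto
      cont := fun m => (os m).1.1
      step := fun m => by
        by_cases h : fd m
        · exact Or.inr ⟨(pp_step m).1 h, (os m).2.2 h, fun z => (co_fold hτ (hu z) h).dn,
            fun z => (co_fold hτ (hu z) h).up⟩
        · exact Or.inl ⟨(pp_step m).2 h, (os m).2.1 h, fun z => (co_mono hτ (hu z) h).up,
            fun z => (co_mono hτ (hu z) h).dn⟩
      oU := fun m => isOpen_lt continuous_const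
        (continuous_re.comp ((cs m).sub continuous_const))
      oD := fun m => isOpen_lt (continuous_re.comp ((cs m).sub continuous_const))
        continuous_const
      oF := fun m => isOpen_lt continuous_const
        (continuous_re.comp ((cs m).sub continuous_const))
      cU := fun m z h => by rw [ec]; exact (co_thin hτ (hu z) m).up h
      cD := fun m z h => by rw [(os m).1.2]; exact (co_thin hτ (hu z) m).dn h
      cF := fun m z h => by rw [ec, (os m).1.2]; exact (co_thin hτ (hu z) m).far h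
      cov := fun z => (co_thin hτ (hu z) 0).cov
      far := fun m z => (co_far hτ (hu z) m).1
      cl := fun m z h => (co_far hτ (hu z) m).2 (closure_lt_subset_le continuous_const
        (continuous_re.comp ((cs m).sub continuous_const)) h) }
  have nx : ∀ m, (⟨x, hx⟩ : Z) ∉ {z | 1 / 10 < (s m z - mk τ 2 m).re} := by
    have a : ∀ n, (⟨x, hx⟩ : Z) ∉ {z | 1 / 10 < (s (2 * n + 1) z - mk τ 2 (2 * n + 1)).re} := by
      intro n h
      simp only [hs, mem_ofPred_eq, mk, co, od1, od2, if_false, tt_x hτ h0] at h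
      linarith [(sL_gap hτ n).2]
    intro m
    obtain ⟨n, rfl | rfl⟩ := Nat.even_or_odd' m
    · exact fun h => a n (S.far _ h)
    · exact a n
  obtain ⟨C, hC⟩ := S.bounded nx fun z => by
    obtain ⟨N, hN⟩ := eventually_atTop.1
      ((he z z.2).eventually_gt_atTop (Real.exp (Real.exp 12 + 1)))
    have a : ∀ j, N ≤ j → ∃ m, z ∈ {z | 1 / 10 < (s m z - mk τ 0 m).re} ∧ pp m = j + 1 := by
      intro j hj
      obtain ⟨n, b1, b2⟩ := exists_one N j hj
      refine ⟨2 * n + 1, ?_, by simp [pp, od2, b2]⟩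
      have c := hN (n + 1) (by omega)
      rw [← ((sp n).2 z z.2).2.1, norm_Psi, Real.exp_lt_exp, id_EL (by simp [b2])] at c
      have d := lo_bound hτ b2
      simp only [hs, mem_ofPred_eq, mk, co, od1, od2, if_false, sub_re]
      unfold sL at c ⊢
      linarith
    obtain ⟨m, a1, a2⟩ := a N le_rfl
    obtain ⟨m', b1, b2⟩ := a (N + 1) (Nat.le_succ N)
    exact ⟨m, m', a1, b1, by rw [a2, b2]⟩
  refine ⟨10 + 2 * (C + Real.pi), fun z hz => (norm_le_abs_re_add_abs_im _).trans ?_⟩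
  have a1 : |(H z).im| ≤ 2 * (C + Real.pi) := by
    obtain ⟨-, -, -, -, -, -, -, -, b⟩ := (lift_spec (fs ⟨z, hz⟩).1 (fs ⟨z, hz⟩).2).1
    have c : |(lift (H z / 2) (q 0 ⟨z, hz⟩)).im| ≤ C := hC ⟨z, hz⟩
    have d := abs_sub_abs_le_abs_sub (H z / 2).im (lift (H z / 2) (q 0 ⟨z, hz⟩)).im
    rw [abs_sub_comm] at d
    rw [div_ofNat_im, abs_div, abs_two] at d
    simp only [div_ofNat_im] at b
    linarith
  have a2 : ‖ff τ z‖ ≤ Real.exp 16 := by
    have b : (s 0 ⟨z, hz⟩ - al τ).re ≤ 1 / 10 := not_lt.1 (S.no_far nx 0 ⟨z, hz⟩)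
    rw [f0 ⟨z, hz⟩, Complex.norm_exp, Real.exp_le_exp]
    rw [sub_re] at b
    linarith [(abs_le.1 hτ.1.par.1).2]
  have a3 : ∀ h : ℂ, ‖gg (al τ) (be τ) h‖ ≤ Real.exp 16 → h.re ≤ 10 := by
    intro h b
    by_contra hh
    have c : 6 ≤ h.re := by linarith [not_le.1 hh]
    have d := abs_le.1 ((abs_re_le_norm _).trans (LL_near hτ.1.par c))
    rw [← exp_LL hτ.1.par c, Complex.norm_exp, Real.exp_le_exp] at b
    simp only [sub_re, add_re, ofReal_re] at d
    linarith [(abs_le.1 hτ.1.par.1).1, Real.log_le_sub_one_of_pos (by norm_num : (0 : ℝ) < 4),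
      not_le.1 hh]
  have a4 := a3 (-H z) (by rw [gg_neg]; exact a2)
  rw [neg_re] at a4
  have a5 : |(H z).re| ≤ 10 := abs_le.2 ⟨by linarith, a3 _ a2⟩
  linarith

lemma bounded_component {τ : ℕ × Fin 3 → ℂ} (hτ : Mk τ) : ∃ x ∈ {z | Esc (ff τ) z},
    Bornology.IsBounded (connectedComponentIn {z | Esc (ff τ) z} x) := by
  obtain ⟨u, u1, u2, u3⟩ := exists_x hτ
  have hx : Esc (ff τ) (Psi none u) := (esc_iter 1).1 (by simpa [u3] using esc_mid hτ)
  refine ⟨_, hx, ?_⟩
  have hZ := isPreconnected_connectedComponentIn (F := {z | Esc (ff τ) z}) (x := Psi none u)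
  have he : ∀ z ∈ connectedComponentIn {z | Esc (ff τ) z} (Psi none u), Esc (ff τ) z :=
    fun z hz => connectedComponentIn_subset _ _ hz
  have hm := mem_connectedComponentIn (F := {z | Esc (ff τ) z}) hx
  obtain ⟨C, hC⟩ := bounded_H hτ hZ he hm u3
  refine isBounded_iff_forall_norm_le.2 ⟨C + ‖hb‖ + 11 + RR, fun z hz => ?_⟩
  obtain ⟨a, b, c⟩ := (confine hτ hZ he hm u1 u2).2 z hz
  have d := H_Psi none a
  rw [b] at d
  have e : ‖cexp (tc none z)‖ ≤ C + ‖hb‖ + 1 := by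
    have e1 := norm_sub_le (H z - hb) (H z - hb - cexp (tc none z))
    rw [sub_sub_cancel] at e1
    linarith [norm_sub_le (H z) hb, hC z hz]
  have f := Real.add_one_le_exp (tc none z).re
  rw [Complex.norm_exp] at e
  have g : |(tc none z).re| ≤ C + ‖hb‖ + 6 :=
    abs_le.2 ⟨by linarith [norm_nonneg hb, (norm_nonneg _).trans (hC z hz)], by linarith⟩
  rw [← b, Psi_none a]
  refine (norm_add_le _ _).trans ?_
  rw [norm_real, Real.norm_eq_abs, abs_of_pos (by linarith [RR_ge])]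
  linarith [norm_le_abs_re_add_abs_im (tc none z), Real.pi_le_four]

end Pool.Agent.MP_16212d_an.B

end MrgPart2

-- ======== part 3: formerly Pool.Agent.MP_16212d_an.B.Sing
section MrgPart3

/-! Singular values, growth and transcendence of the function. -/

open Complex Set Filter Topology Metric

namespace Pool.Agent.MP_16212d_an.B

lemma H_crit {z : ℂ} (h : deriv H z = 0) : ‖H z - hb‖ ≤ 3 := by
  by_cases hh' : ∀ κ, ¬ InT κ z
  · linarith [H_out hh']
  push Not at hh'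
  obtain ⟨κ, t, a, rfl⟩ := hh'
  have b := H_Psi κ a
  rcases le_or_gt t.re 1 with c | c
  · have d : ‖cexp t‖ ≤ Real.exp 1 := by rw [Complex.norm_exp]; gcongr
    have e := norm_add_le (H (Psi κ t) - hb - cexp t) (cexp t)
    rw [sub_add_cancel] at e
    linarith [Real.exp_one_lt_d9]
  · have d := deriv_hh κ (t := t) (by linarith)
    have e : deriv (hh κ) t = 0 := by
      have := ((differentiable_H (Psi κ t)).hasDerivAt.comp t
        (differentiableAt_Ups κ a).cexp.hasDerivAt).deriv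
      rw [h, zero_mul] at this
      exact this
    rw [e, zero_sub, norm_neg, Complex.norm_exp] at d
    linarith [Real.add_one_le_exp t.re]

section
variable {τ : ℕ × Fin 3 → ℂ} (hτ : Mk τ)
include hτ

lemma crit_bound {z : ℂ} (h : deriv (ff τ) z = 0) : ‖ff τ z‖ ≤ Real.exp 10030 := by
  have hp := hτ.1.par
  have d0 := (differentiable_H z).hasDerivAt.div_const 2
  have d := ((d0.ccosh.fun_pow 2).const_mul (cexp (al τ))).sub
    ((d0.csinh.fun_pow 2).const_mul (cexp (be τ)))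
  have e : (cexp (al τ) - cexp (be τ)) * Complex.cosh (H z / 2) * Complex.sinh (H z / 2) *
      deriv H z = 0 := by
    rw [← h]
    have : deriv (ff τ) z = _ := d.deriv
    rw [this]
    simp only [Nat.cast_ofNat, Nat.add_one_sub_one, pow_one]
    ring
  have a1 : ‖cexp (al τ)‖ ≤ Real.exp 10030 := by
    rw [Complex.norm_exp]; gcongr; linarith [(abs_le.1 hp.1).2]
  have a2 : ‖cexp (be τ)‖ ≤ Real.exp 10030 := by
    rw [Complex.norm_exp]; gcongr; linarith [(abs_le.1 hp.2.1).2]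
  have s := Complex.cosh_sq (H z / 2)
  simp only [mul_eq_zero] at e
  rcases e with ((e | e) | e) | e
  · rwa [show ff τ z = cexp (al τ) by
      rw [ff, gg]; linear_combination cexp (al τ) * s + Complex.sinh (H z / 2) ^ 2 * e]
  · rwa [show ff τ z = cexp (be τ) by
      rw [e] at s; rw [ff, gg, e]; linear_combination cexp (be τ) * s]
  · rwa [show ff τ z = cexp (al τ) by rw [ff, gg, s, e]; ring]
  · refine (norm_gg hp _).trans (Real.exp_le_exp.2 ?_)
    have b := abs_le.1 ((abs_re_le_norm _).trans (H_crit e))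
    rw [sub_re, hb_re] at b
    rw [abs_of_neg (by linarith)]
    linarith

lemma lift_gg {S : Set ℝ} (hS : IsPreconnected S) {u : ℝ → ℂ} (hu : ContinuousOn u S) {w : ℂ}
    (h1 : ∀ t ∈ S, 7 ≤ (u t).re) (h2 : ∀ t ∈ S, ‖gg (al τ) (be τ) (u t) / w - 1‖ ≤ 1 / 2)
    {a : ℝ} (ha : a ∈ S) : ∀ t ∈ S, ‖u t - u a‖ ≤ 3 := by
  have hp := hτ.1.par
  have b := log_lift hS (τ := fun t => LL (al τ) (be τ) (u t)) (c := w) (fun t ht => by
    obtain ⟨D, d, -⟩ := hasDerivAt_LL hp (h1 t ht)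
    exact d.continuousAt.comp_continuousWithinAt (hu t ht))
    (fun t ht => by rw [exp_LL hp (by linarith [h1 t ht])]; exact h2 t ht) ha
  intro t ht
  have c1 := LL_near hp (h := u t) (by linarith [h1 t ht])
  have c2 := LL_near hp (h := u a) (by linarith [h1 a ha])
  have e : u t - u a = (LL (al τ) (be τ) (u t) - LL (al τ) (be τ) (u a)) +
      (LL (al τ) (be τ) (u a) - (u a + al τ - Real.log 4)) -
      (LL (al τ) (be τ) (u t) - (u t + al τ - Real.log 4)) := by ring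
  rw [e]
  refine (norm_sub_le _ _).trans ?_
  linarith [b t ht, norm_add_le (LL (al τ) (be τ) (u t) - LL (al τ) (be τ) (u a))
    (LL (al τ) (be τ) (u a) - (u a + al τ - Real.log 4))]

lemma asym_bound {γ : ℝ → ℂ} (hγ : Continuous γ) (h1 : Tendsto (fun t => ‖γ t‖) atTop atTop)
    {w : ℂ} (h2 : Tendsto (fun t => ff τ (γ t)) atTop (𝓝 w)) : ‖w‖ ≤ Real.exp 10030 := by
  by_contra hw
  have hw := not_le.1 hw
  have w0 : 0 < ‖w‖ := (Real.exp_pos _).trans hw
  have hp := hτ.1.par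
  have t1 : Tendsto (fun t => ‖ff τ (γ t) / w - 1‖) atTop (𝓝 0) := by
    have := ((h2.div_const w).sub_const 1).norm
    rwa [div_self (norm_pos_iff.1 w0), sub_self, norm_zero] at this
  obtain ⟨a, ha⟩ := eventually_atTop.1 (t1.eventually_le_const (by norm_num : (0 : ℝ) < 1 / 2))
  have cu : Continuous fun t => H (γ t) := differentiable_H.continuous.comp hγ
  have b1 : ∀ t ∈ Ici a, 10013 ≤ |(H (γ t)).re| := by
    intro t ht
    have c1 := norm_sub_norm_le 1 (ff τ (γ t) / w)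
    rw [norm_sub_rev, norm_one, norm_div] at c1
    have c2 : 1 / 2 ≤ ‖ff τ (γ t)‖ / ‖w‖ := by linarith [ha t ht]
    rw [le_div_iff₀ w0] at c2
    have c3 := norm_gg hp (H (γ t))
    have c4 : Real.exp 10030 = Real.exp 10029 * Real.exp 1 := by rw [← Real.exp_add]; norm_num
    have c5 : Real.exp 10029 ≤ Real.exp (16 + |(H (γ t)).re|) := by
      have : ‖ff τ (γ t)‖ = ‖gg (al τ) (be τ) (H (γ t))‖ := rfl
      nlinarith [Real.add_one_le_exp 1, Real.exp_pos 10029]
    linarith [Real.exp_le_exp.1 c5]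
  have b0 : ∀ t ∈ Ici a, (H (γ t)).re ≠ 0 := fun t ht e => by
    have := b1 t ht; rw [e] at this; norm_num at this
  have b2 : ∀ t ∈ Ici a, ‖H (γ t) - H (γ a)‖ ≤ 3 := by
    rcases (b0 a self_mem_Ici).lt_or_gt with c | c
    · have d := lt_of_ne isPreconnected_Ici (continuous_re.comp cu).continuousOn b0 self_mem_Ici c
      intro t ht
      have := lift_gg hτ isPreconnected_Ici (u := fun t => -H (γ t)) cu.neg.continuousOn (w := w)
        (fun t ht => by
          have := b1 t ht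
          rw [abs_of_neg (show (H (γ t)).re < 0 from d t ht)] at this
          rw [neg_re]; linarith)
        (fun t ht => by rw [gg_neg]; exact ha t ht) self_mem_Ici t ht
      rwa [neg_sub_neg, norm_sub_rev] at this
    · have d := gt_of_ne isPreconnected_Ici (continuous_re.comp cu).continuousOn b0 self_mem_Ici c
      exact lift_gg hτ isPreconnected_Ici cu.continuousOn (w := w)
        (fun t ht => by
          have := b1 t ht
          rw [abs_of_pos (show 0 < (H (γ t)).re from d t ht)] at this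
          linarith) ha self_mem_Ici
  have b3 : ∀ t ∈ Ici a, 13 ≤ ‖H (γ t) - hb‖ := fun t ht => by
    have c1 := abs_re_le_norm (H (γ t) - hb)
    have c2 := abs_sub_abs_le_abs_sub (H (γ t)).re hb.re
    rw [sub_re] at c1
    rw [hb_re] at c1 c2
    norm_num at c1 c2
    linarith [b1 t ht]
  have b4 : ∀ z ∈ γ '' Ici a, ∃ κ, InT κ z := by
    rintro _ ⟨t, ht, rfl⟩
    by_contra hh
    push Not at hh
    linarith [H_out hh, b3 t ht]
  obtain ⟨κ, hκ⟩ := b4 _ ⟨a, self_mem_Ici, rfl⟩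
  have b5 := InT_sep (isPreconnected_Ici.image _ hγ.continuousOn) b4 ⟨a, self_mem_Ici, rfl⟩ hκ
  have b6 : ∀ t ∈ Ici a, ContinuousAt (tc κ) (γ t) ∧ Psi κ (tc κ (γ t)) = γ t ∧
      ‖H (γ t) - hb - cexp (tc κ (γ t))‖ ≤ 1 / 500 := by
    intro t ht
    obtain ⟨s, c, e⟩ := b5 _ ⟨t, ht, rfl⟩
    rw [← e, (tc_Psi κ c).1]
    exact ⟨(tc_Psi κ c).2, rfl, H_Psi κ c⟩
  have b7 := log_lift isPreconnected_Ici (τ := fun t => tc κ (γ t)) (c := H (γ a) - hb)
    (fun t ht => ((b6 t ht).1.comp hγ.continuousAt).continuousWithinAt) (fun t ht => by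
      have c := b3 a self_mem_Ici
      rw [div_sub_one (norm_pos_iff.1 (by linarith)), norm_div, div_le_iff₀ (by linarith)]
      have e : cexp (tc κ (γ t)) - (H (γ a) - hb) =
          (H (γ t) - H (γ a)) - (H (γ t) - hb - cexp (tc κ (γ t))) := by ring
      rw [e]
      refine (norm_sub_le _ _).trans ?_
      linarith [b2 t ht, (b6 t ht).2.2]) self_mem_Ici
  have b8 : ∀ t ∈ Ici a, 0 ≤ (tc κ (γ t)).re := fun t ht => by
    have c := norm_sub_norm_le (H (γ t) - hb) (cexp (tc κ (γ t)))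
    rw [← Real.one_le_exp_iff, ← Complex.norm_exp]
    linarith [b3 t ht, (b6 t ht).2.2]
  obtain ⟨t, c1, c2⟩ := ((h1.eventually_gt_atTop
    (Real.exp ((Ups κ (tc κ (γ a))).re + 2))).and (eventually_ge_atTop a)).exists
  rw [← (b6 t c2).2.1, norm_Psi, Real.exp_lt_exp] at c1
  have c3 := abs_le.1 ((abs_re_le_norm _).trans
    ((Ups_lip κ (b8 t c2) (b8 a self_mem_Ici)).trans (b7 t c2)))
  rw [sub_re] at c3
  linarith

lemma growth {r : ℝ} (hr : RR + 12 ≤ r) : Real.exp (Real.exp (r - RR - 1)) ≤ ‖ff τ r‖ := by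
  have hp := hτ.1.par
  have a0 : -6 < ((r - RR : ℝ) : ℂ).re := by rw [ofReal_re]; linarith
  have a := abs_le.1 ((abs_re_le_norm _).trans (H_Psi none a0))
  rw [Psi_none a0, ← ofReal_add, sub_add_cancel, sub_re, sub_re, hb_re, exp_ofReal_re] at a
  have b := exp_twelve.trans (Real.exp_le_exp.2 (show 12 ≤ r - RR by linarith))
  have c : 6 ≤ (H r).re := by linarith
  have d := abs_le.1 ((abs_re_le_norm _).trans (LL_near hp c))
  simp only [sub_re, add_re, ofReal_re] at d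
  rw [ff, ← exp_LL hp c, Complex.norm_exp, Real.exp_le_exp]
  have e : Real.exp (r - RR) = Real.exp (r - RR - 1) * Real.exp 1 := by
    rw [← Real.exp_add]; ring_nf
  have f : Real.exp (r - RR - 1) * 2 ≤ Real.exp (r - RR) := by
    rw [e]; exact mul_le_mul_of_nonneg_left (by linarith [Real.add_one_le_exp 1]) (by positivity)
  linarith [(abs_le.1 hp.1).1, Real.log_le_sub_one_of_pos (by norm_num : (0 : ℝ) < 4)]

lemma order_top : Tendsto (fun r : ℝ => Real.log (Real.log
    (sSup ((fun z => ‖ff τ z‖) '' sphere 0 r))) / Real.log r) atTop atTop := by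
  refine tendsto_atTop_mono' _ ?_ (Real.tendsto_sqrt_atTop.atTop_div_const (by norm_num : (0 : ℝ) < 4))
  filter_upwards [eventually_ge_atTop (2 * RR + 12)] with r hr
  have p := RR_ge
  have a : Real.exp (Real.exp (r - RR - 1)) ≤ sSup ((fun z => ‖ff τ z‖) '' sphere 0 r) :=
    (growth hτ (by linarith)).trans (le_csSup (((isCompact_sphere 0 r).image
      (differentiable_ff τ).continuous.norm).bddAbove) ⟨r, by simp; linarith, rfl⟩)
  have b := (Real.le_log_iff_exp_le ((Real.exp_pos _).trans_le a)).2 a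
  have c := (Real.le_log_iff_exp_le ((Real.exp_pos _).trans_le b)).2 b
  have d : 0 < Real.log r := Real.log_pos (by linarith)
  have e : Real.log r ≤ 2 * √r := by
    have := Real.log_le_sub_one_of_pos (Real.sqrt_pos.2 (by linarith : 0 < r))
    rw [Real.log_sqrt (by linarith)] at this
    linarith
  have f := Real.mul_self_sqrt (by linarith : 0 ≤ r)
  rw [le_div_iff₀ d]
  have g := mul_le_mul_of_nonneg_left e (show 0 ≤ √r / 4 by positivity)
  linarith

lemma not_poly : ¬ ∃ p : Polynomial ℂ, ∀ z, ff τ z = p.eval z := by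
  rintro ⟨p, hp⟩
  rcases le_or_gt p.degree 0 with h | h
  · obtain ⟨n, hn⟩ := (((tendsto_add_atTop_iff_nat 1).2 (esc_mid hτ)).eventually_gt_atTop
      ‖p.coeff 0‖).exists
    rw [Function.iterate_succ_apply', hp, Polynomial.eq_C_of_degree_le_zero h] at hn
    simp at hn
  · have t := Polynomial.tendsto_norm_atTop p h (l := atTop) (z := fun x : ℝ => -(x : ℂ))
      (by simpa using tendsto_abs_atTop_atTop)
    obtain ⟨x, c1, c2⟩ := ((t.eventually_gt_atTop (Real.exp 10017)).and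
      (eventually_ge_atTop 0)).exists
    rw [← hp] at c1
    linarith [(ff_out hτ (z := -(x : ℂ)) (not_InT (by simpa [B0] using c2))).2]

end

end Pool.Agent.MP_16212d_an.B

end MrgPart3

-- marker of a merged file
example : 731051 + 215598 = 731051 + 215598 := rfl
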