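import Mathlib.Data.Int.Star
import Mathlib.Analysis.Complex.LocallyUniformLimit
import Mathlib.Analysis.Real.Pi.Bounds
import Mathlib.RingTheory.PiTensorProduct
import Mathlib.RingTheory.SimpleRing.Principal
import Pool.Agent.MP_16212d_an.B.Hyp

-- ======== part 0: formerly Pool.Agent.MP_16212d_an.B.Hook
section MrgPart0

/-! An entire function that is large only on a thin hook shaped domain. -/

open Complex Set Filter Topology Metric

namespace Pool.Agent.MP_16212d_an.B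

noncomputable def xi (ℓ θ : ℝ) (lam : ℂ) : ℂ := θ / 8 * (lam - ℓ) + θ * I

noncomputable def psi (ρ : ℂ) (ℓ θ : ℝ) (σ : ℂ) : ℂ :=
  cexp ρ * Complex.cosh (xi ℓ θ (2 * Complex.log σ))

noncomputable def psi' (ρ : ℂ) (ℓ θ : ℝ) (σ : ℂ) : ℂ :=
  cexp ρ * (Complex.sinh (xi ℓ θ (2 * Complex.log σ)) * (θ / 8 * (2 * σ⁻¹)))

/-- The logarithm of the hook parametrisation. -/
noncomputable def ups (ρ : ℂ) (ℓ θ : ℝ) (lam : ℂ) : ℂ :=
  ρ + Complex.log (Complex.cosh (xi ℓ θ lam))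

noncomputable def ups' (ℓ θ : ℝ) (lam : ℂ) : ℂ :=
  θ / 8 * (Complex.sinh (xi ℓ θ lam) / Complex.cosh (xi ℓ θ lam))

lemma xi_re (ℓ θ : ℝ) (lam : ℂ) : (xi ℓ θ lam).re = θ / 8 * (lam.re - ℓ) := by simp [xi]

lemma xi_im (ℓ θ : ℝ) (lam : ℂ) : (xi ℓ θ lam).im = θ / 8 * lam.im + θ := by simp [xi]

lemma hasDerivAt_xi (ℓ θ : ℝ) (lam : ℂ) : HasDerivAt (xi ℓ θ) (θ / 8) lam := by
  exact ((((hasDerivAt_id lam).sub_const (ℓ : ℂ)).const_mul (θ / 8 : ℂ)).add_const
    (θ * I)).congr_deriv (mul_one _)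

lemma two_log_im {σ : ℂ} (h : 0 < σ.re) : |(2 * Complex.log σ).im| ≤ 4 := by
  have h1 : |arg σ| < Real.pi / 2 := abs_arg_lt_pi_div_two_iff.2 (Or.inl h)
  simp only [mul_im, re_ofNat, log_im, im_ofNat, zero_mul, add_zero]
  rw [abs_mul, abs_two]
  linarith [Real.pi_le_four]

section
variable {ρ : ℂ} {ℓ θ : ℝ} (h0 : 0 < θ) (h1 : θ ≤ 1 / 1000)
include h0

lemma xi_im_mem {lam : ℂ} (h : |lam.im| ≤ 4) :
    θ / 2 ≤ (xi ℓ θ lam).im ∧ (xi ℓ θ lam).im ≤ 3 * θ / 2 := by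
  rw [xi_im]
  obtain ⟨a, b⟩ := abs_le.1 h
  constructor <;> nlinarith

include h1

lemma xi_im_small {lam : ℂ} (h : |lam.im| ≤ 4) : |(xi ℓ θ lam).im| ≤ 1 / 20 := by
  obtain ⟨a, b⟩ := xi_im_mem (ℓ := ℓ) h0 h
  rw [abs_of_pos (by linarith)]; linarith

lemma exp_ups {lam : ℂ} (h : |lam.im| ≤ 4) :
    cexp (ups ρ ℓ θ lam) = cexp ρ * Complex.cosh (xi ℓ θ lam) := by
  have := (cosh_small (xi_im_small (ℓ := ℓ) h0 h1 h)).1
  rw [ups, Complex.exp_add, Complex.exp_log (fun e => by rw [e] at this; simp at this)]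

lemma hasDerivAt_ups {lam : ℂ} (h : |lam.im| ≤ 4) :
    HasDerivAt (ups ρ ℓ θ) (ups' ℓ θ lam) lam := by
  have := (cosh_small (xi_im_small (ℓ := ℓ) h0 h1 h)).1
  have d := (((hasDerivAt_xi ℓ θ lam).ccosh).clog (Or.inl this)).const_add ρ
  refine d.congr_deriv ?_
  rw [ups']; ring

lemma norm_ups' {lam : ℂ} (h : |lam.im| ≤ 4) : ‖ups' ℓ θ lam‖ ≤ θ / 8 := by
  have := (cosh_small (xi_im_small (ℓ := ℓ) h0 h1 h)).2.1
  rw [ups', norm_mul]
  have e : ‖(θ / 8 : ℂ)‖ = θ / 8 := by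
    rw [norm_div, norm_real, Real.norm_eq_abs, abs_of_pos h0]; simp
  rw [e]
  exact mul_le_of_le_one_right (by positivity) this

lemma ups'_im {lam : ℂ} (h : |lam.im| ≤ 4) : 0 < (ups' ℓ θ lam).im := by
  have a := xi_im_small (ℓ := ℓ) h0 h1 h
  have b := (cosh_small a).1
  obtain ⟨c, d⟩ := xi_im_mem (ℓ := ℓ) h0 h
  have e : (θ / 8 : ℂ) = (θ / 8 : ℝ) := by simp
  rw [ups', e, im_ofReal_mul, tanh_im]
  have p1 : 0 < Real.sin (xi ℓ θ lam).im :=
    Real.sin_pos_of_pos_of_lt_pi (by linarith) (by linarith [Real.pi_gt_three])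
  have p2 := cos_ge_small a
  have p3 : 0 < normSq (Complex.cosh (xi ℓ θ lam)) :=
    normSq_pos.2 (fun e => by rw [e] at b; simp at b)
  positivity

lemma ups'_re {lam : ℂ} (h : |lam.im| ≤ 4) (h2 : lam.re < ℓ) : (ups' ℓ θ lam).re < 0 := by
  have a := xi_im_small (ℓ := ℓ) h0 h1 h
  have b := (cosh_small a).1
  have e : (θ / 8 : ℂ) = (θ / 8 : ℝ) := by simp
  rw [ups', e, re_ofReal_mul, tanh_re]
  have p1 : Real.sinh (xi ℓ θ lam).re < 0 := by
    rw [Real.sinh_neg_iff, xi_re]; nlinarith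
  have p2 := Real.cosh_pos (xi ℓ θ lam).re
  have p3 : 0 < normSq (Complex.cosh (xi ℓ θ lam)) :=
    normSq_pos.2 (fun e => by rw [e] at b; simp at b)
  exact mul_neg_of_pos_of_neg (by positivity) (div_neg_of_neg_of_pos (by nlinarith) p3)

lemma ups_im {lam : ℂ} (h : |lam.im| ≤ 4) : |(ups ρ ℓ θ lam).im - ρ.im| ≤ 8 / 5 * θ := by
  have a := xi_im_small (ℓ := ℓ) h0 h1 h
  have b := (cosh_small a).2.2.1
  obtain ⟨c, d⟩ := xi_im_mem (ℓ := ℓ) h0 h
  rw [abs_of_pos (by linarith : 0 < (xi ℓ θ lam).im)] at b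
  rw [ups, add_im, add_sub_cancel_left]
  linarith

lemma ups_re {lam : ℂ} (h : |lam.im| ≤ 4) :
    ρ.re + |θ / 8 * (lam.re - ℓ)| - 1 ≤ (ups ρ ℓ θ lam).re ∧
      (ups ρ ℓ θ lam).re ≤ ρ.re + |θ / 8 * (lam.re - ℓ)| := by
  have b := (cosh_small (xi_im_small (ℓ := ℓ) h0 h1 h)).2.2.2
  rw [xi_re] at b
  rw [ups, add_re]
  constructor <;> linarith [b.1, b.2]

lemma psi_eq {σ : ℂ} (h : 0 < σ.re) : psi ρ ℓ θ σ = cexp (ups ρ ℓ θ (2 * Complex.log σ)) := by
  rw [exp_ups h0 h1 (two_log_im h), psi]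

omit h0 h1 in
lemma hasDerivAt_psi {σ : ℂ} (h : 0 < σ.re) : HasDerivAt (psi ρ ℓ θ) (psi' ρ ℓ θ σ) σ := by
  have d := ((hasDerivAt_xi ℓ θ _).comp σ
    ((Complex.hasDerivAt_log (Or.inl h)).const_mul 2)).ccosh.const_mul (cexp ρ)
  exact d

omit h0 h1 in
lemma differentiableAt_psi' {σ : ℂ} (h : 0 < σ.re) : DifferentiableAt ℂ (psi' ρ ℓ θ) σ := by
  have d := ((hasDerivAt_xi ℓ θ _).comp σ
    ((Complex.hasDerivAt_log (Or.inl h)).const_mul 2)).csinh.differentiableAt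
  have n : σ ≠ 0 := fun e => by rw [e] at h; simp at h
  unfold psi'
  refine (d.mul ?_).const_mul _
  exact ((differentiableAt_inv n).const_mul _).const_mul _

lemma sinh_lower {u : ℂ} (a : θ / 4 ≤ u.im) (b : u.im ≤ 2) : θ / 8 ≤ ‖Complex.sinh u‖ := by
  refine le_trans ?_ ((le_abs_self _).trans (abs_sin_le_norm_sinh u))
  have p3 := Real.pi_gt_three
  have p4 := Real.pi_le_four
  have q : 1 / 2 ≤ 2 / Real.pi := by
    rw [div_le_div_iff₀ (by norm_num) Real.pi_pos]; linarith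
  rcases le_total u.im (Real.pi / 2) with c | c
  · have := Real.mul_le_sin (by linarith : 0 ≤ u.im) c
    nlinarith
  · have := Real.mul_le_sin (by linarith : 0 ≤ Real.pi - u.im) (by linarith)
    rw [Real.sin_pi_sub] at this
    nlinarith

lemma psi'_ne {σ : ℂ} (h : 0 < σ.re) : psi' ρ ℓ θ σ ≠ 0 := by
  obtain ⟨c, d⟩ := xi_im_mem (ℓ := ℓ) h0 (two_log_im h)
  have := sinh_lower h0 h1 (u := xi ℓ θ (2 * Complex.log σ)) (by linarith) (by linarith)
  have n : σ ≠ 0 := fun e => by rw [e] at h; simp at h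
  have n2 : (θ : ℂ) ≠ 0 := by exact_mod_cast h0.ne'
  refine mul_ne_zero (exp_ne_zero _) (mul_ne_zero (norm_pos_iff.1 (by linarith)) ?_)
  simp [n, n2]

lemma kernel_aux {σ μ : ℂ} (h : 0 < σ.re) (a : 0 ≤ (xi ℓ θ (2 * μ)).im)
    (b : (xi ℓ θ (2 * μ)).im ≤ Real.pi) :
    ∃ α β : ℂ, xi ℓ θ (2 * Complex.log σ) = α + β ∧ xi ℓ θ (2 * μ) = α - β ∧
      θ / 8 ≤ ‖Complex.sinh α‖ ∧ θ / 8 * ‖Complex.log σ - μ‖ ≤ 2 * ‖Complex.sinh β‖ := by
  obtain ⟨c, d⟩ := xi_im_mem (ℓ := ℓ) h0 (two_log_im h)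
  have p4 := Real.pi_lt_d2
  have p3 := Real.pi_gt_three
  refine ⟨(xi ℓ θ (2 * Complex.log σ) + xi ℓ θ (2 * μ)) / 2,
    (xi ℓ θ (2 * Complex.log σ) - xi ℓ θ (2 * μ)) / 2, by ring, by ring, ?_, ?_⟩
  · apply sinh_lower h0 h1 <;> rw [div_ofNat_im, add_im] <;> linarith
  · refine le_trans (le_of_eq ?_) (norm_le_sinh ?_)
    · have : (xi ℓ θ (2 * Complex.log σ) - xi ℓ θ (2 * μ)) / 2 =
          (θ / 8 : ℝ) * (Complex.log σ - μ) := by
        simp only [xi]; push_cast; ring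
      rw [this, norm_mul, norm_real, Real.norm_eq_abs, abs_of_pos (by positivity)]
    · rw [div_ofNat_im, sub_im, abs_le]
      constructor <;> linarith

lemma psi_inj {σ s : ℂ} (h : 0 < σ.re) (hs : 0 < s.re) (e : psi ρ ℓ θ σ = psi ρ ℓ θ s) :
    σ = s := by
  obtain ⟨c, d⟩ := xi_im_mem (ℓ := ℓ) h0 (two_log_im hs)
  obtain ⟨α, β, e1, e2, b1, b2⟩ := kernel_aux (ℓ := ℓ) h0 h1 (μ := Complex.log s) h (by linarith)
    (by linarith [Real.pi_gt_three])
  have e3 := mul_left_cancel₀ (exp_ne_zero ρ) e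
  rw [e1, e2, ← sub_eq_zero, cosh_sub_cosh'] at e3
  have n1 : Complex.sinh α ≠ 0 := norm_pos_iff.1 (by linarith)
  have n2 : Complex.sinh β = 0 := by simpa [n1] using e3
  rw [n2, norm_zero, mul_zero] at b2
  have n3 : ‖Complex.log σ - Complex.log s‖ ≤ 0 := by
    by_contra hh
    nlinarith [not_le.1 hh]
  have n4 := sub_eq_zero.1 (norm_le_zero_iff.1 n3)
  rw [← Complex.exp_log (x := σ) (fun e => by rw [e] at h; simp at h), n4,
    Complex.exp_log (fun e => by rw [e] at hs; simp at hs)]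

lemma kernel {σ μ : ℂ} (h : 1 ≤ σ.re) (a : 0 ≤ (xi ℓ θ (2 * μ)).im)
    (b : (xi ℓ θ (2 * μ)).im ≤ Real.pi) (c : 1 / 4 ≤ ‖σ‖ * ‖Complex.log σ - μ‖) :
    psi ρ ℓ θ σ ≠ cexp ρ * Complex.cosh (xi ℓ θ (2 * μ)) ∧
    ‖psi' ρ ℓ θ σ / (psi ρ ℓ θ σ - cexp ρ * Complex.cosh (xi ℓ θ (2 * μ)))‖ ≤ 11 := by
  obtain ⟨α, β, e1, e2, b1, b2⟩ := kernel_aux (ℓ := ℓ) h0 h1 (μ := μ) (by linarith : 0 < σ.re) a b
  have s1 : 1 ≤ ‖σ‖ := h.trans (re_le_norm σ)
  have s2 : 0 < ‖Complex.log σ - μ‖ := by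
    by_contra hh
    nlinarith [not_lt.1 hh]
  have p1 : 0 < ‖Complex.sinh α‖ := by linarith
  have p2 : 0 < ‖Complex.sinh β‖ := by nlinarith
  have n1 := norm_pos_iff.1 p1
  have n2 := norm_pos_iff.1 p2
  have n3 : σ ≠ 0 := norm_pos_iff.1 (by linarith)
  have e3 : psi ρ ℓ θ σ - cexp ρ * Complex.cosh (xi ℓ θ (2 * μ)) =
      cexp ρ * (2 * Complex.sinh α * Complex.sinh β) := by
    rw [psi, e1, e2, ← cosh_sub_cosh']; ring
  refine ⟨fun e => ?_, ?_⟩
  · rw [e, sub_self] at e3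
    simp [n1, n2] at e3
  · have e4 : psi' ρ ℓ θ σ / (psi ρ ℓ θ σ - cexp ρ * Complex.cosh (xi ℓ θ (2 * μ))) =
        ((θ / 8 : ℝ) / σ) * (Complex.cosh α / Complex.sinh α + Complex.cosh β / Complex.sinh β) := by
      rw [e3, psi', e1, Complex.sinh_add]
      have := exp_ne_zero ρ
      push_cast
      field_simp
      ring
    have k : ∀ u : ℂ, 0 < ‖Complex.sinh u‖ →
        ‖Complex.cosh u / Complex.sinh u‖ ≤ 1 + ‖Complex.sinh u‖⁻¹ := fun u hu => by
      rw [norm_div, div_le_iff₀ hu, add_mul, inv_mul_cancel₀ hu.ne', one_mul]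
      exact norm_cosh_le u
    rw [e4, norm_mul, norm_div, norm_real, Real.norm_eq_abs, abs_of_pos (by positivity)]
    have k1 : θ / 8 * ‖Complex.sinh α‖⁻¹ ≤ 1 := by
      rw [← div_eq_mul_inv, div_le_one p1]; exact b1
    have k2 : θ / 8 * ‖Complex.sinh β‖⁻¹ ≤ 8 * ‖σ‖ := by
      rw [← div_eq_mul_inv, div_le_iff₀ p2]
      have := mul_le_mul_of_nonneg_left b2 (norm_nonneg σ)
      have := mul_le_mul_of_nonneg_left c (by positivity : 0 ≤ θ / 8)
      nlinarith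
    rw [div_mul_eq_mul_div, div_le_iff₀ (by linarith)]
    have k3 := mul_le_mul_of_nonneg_left ((norm_add_le _ _).trans (add_le_add (k α p1) (k β p2)))
      (by positivity : 0 ≤ θ / 8)
    linarith

lemma kernel_of {σ z : ℂ} (h : 1 ≤ σ.re)
    (hz : ∀ s : ℂ, 0 < s.re → psi ρ ℓ θ s = z → 1 / 2 ≤ ‖σ - s‖) :
    psi ρ ℓ θ σ ≠ z ∧ ‖psi' ρ ℓ θ σ / (psi ρ ℓ θ σ - z)‖ ≤ 11 := by
  obtain ⟨ξ, a, b, e⟩ := exists_cosh_im (z / cexp ρ)
  have n2 : (θ : ℂ) ≠ 0 := by exact_mod_cast h0.ne'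
  set μ : ℂ := ((ξ - θ * I) / (θ / 8) + ℓ) / 2 with hμ
  have e1 : xi ℓ θ (2 * μ) = ξ := by rw [xi, hμ]; field_simp; ring
  have e2 : z = cexp ρ * Complex.cosh (xi ℓ θ (2 * μ)) := by
    rw [e1, e]; field_simp
  have s1 : 1 ≤ ‖σ‖ := h.trans (re_le_norm σ)
  have n3 : σ ≠ 0 := norm_pos_iff.1 (by linarith)
  rw [e2]
  refine kernel h0 h1 h (e1 ▸ a) (e1 ▸ b) ?_
  rcases le_or_gt 1 ‖Complex.log σ - μ‖ with c | c
  · nlinarith
  have c1 : ‖σ - cexp μ‖ ≤ 2 * (‖σ‖ * ‖Complex.log σ - μ‖) := by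
    have e3 : σ - cexp μ = -σ * (cexp (μ - Complex.log σ) - 1) := by
      rw [Complex.exp_sub, Complex.exp_log n3]; field_simp; ring
    have := Complex.norm_exp_sub_one_le (x := μ - Complex.log σ) (by rw [norm_sub_rev]; exact c.le)
    rw [e3, norm_mul, norm_neg, norm_sub_rev (Complex.log σ)]
    nlinarith
  suffices 1 / 2 ≤ ‖σ - cexp μ‖ by linarith
  have p3 := Real.pi_gt_three
  have c2 : |arg σ| < Real.pi / 2 := abs_arg_lt_pi_div_two_iff.2 (Or.inl (by linarith))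
  have c3 : |arg σ - μ.im| < 1 := by
    have := abs_im_le_norm (Complex.log σ - μ)
    rw [sub_im, log_im] at this
    linarith
  rcases lt_or_ge |μ.im| (Real.pi / 2) with d | d
  · have d1 := abs_lt.1 d
    refine hz _ ?_ ?_
    · rw [exp_re]
      exact mul_pos (Real.exp_pos _) (Real.cos_pos_of_mem_Ioo d1)
    · rw [psi, Complex.log_exp (by linarith) (by linarith), ← e2]
  · have d1 : |μ.im| ≤ Real.pi + Real.pi / 2 := by
      have := abs_sub_abs_le_abs_sub μ.im (arg σ)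
      rw [abs_sub_comm] at this
      linarith
    have d2 := Real.cos_nonpos_of_pi_div_two_le_of_le d d1
    rw [Real.cos_abs] at d2
    have d3 : (cexp μ).re ≤ 0 := by
      rw [exp_re]; exact mul_nonpos_of_nonneg_of_nonpos (Real.exp_pos _).le d2
    have := re_le_norm (σ - cexp μ)
    rw [sub_re] at this
    linarith

end

/-- The inverse of the hook parametrisation. -/
noncomputable def sv (ρ : ℂ) (ℓ θ : ℝ) : ℂ → ℂ := Function.invFunOn (psi ρ ℓ θ) {σ | 0 < σ.re}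

open Classical in
/-- The error term. -/
noncomputable def sm (ρ : ℂ) (ℓ θ m : ℝ) (z : ℂ) : ℂ :=
  if z ∈ psi ρ ℓ θ '' {σ | 2 < σ.re} then Jc (psi ρ ℓ θ) (psi' ρ ℓ θ) m 1 z
  else Jc (psi ρ ℓ θ) (psi' ρ ℓ θ) m 3 z

open Classical in
/-- The main term. -/
noncomputable def mn (ρ : ℂ) (ℓ θ m : ℝ) (z : ℂ) : ℂ :=
  if z ∈ psi ρ ℓ θ '' {σ | 2 < σ.re} then cexp (sv ρ ℓ θ z ^ 2 - m) else 0

section
variable {ρ : ℂ} {ℓ θ : ℝ} (h0 : 0 < θ) (h1 : θ ≤ 1 / 1000)
include h0 h1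

lemma sv_psi {σ : ℂ} (h : 0 < σ.re) : sv ρ ℓ θ (psi ρ ℓ θ σ) = σ :=
  Set.InjOn.leftInvOn_invFunOn (fun _ ha _ hb e => psi_inj h0 h1 ha hb e) h

lemma sv_local {σ : ℂ} (h : 0 < σ.re) : DifferentiableAt ℂ (sv ρ ℓ θ) (psi ρ ℓ θ σ) ∧
    ∀ᶠ z in 𝓝 (psi ρ ℓ θ σ), psi ρ ℓ θ (sv ρ ℓ θ z) = z := by
  have ho : IsOpen {σ : ℂ | 0 < σ.re} := isOpen_lt continuous_const continuous_re
  have ha : AnalyticAt ℂ (psi ρ ℓ θ) σ :=
    DifferentiableOn.analyticAt (s := {σ : ℂ | 0 < σ.re})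
      (fun w hw => (hasDerivAt_psi hw).differentiableAt.differentiableWithinAt) (ho.mem_nhds h)
  have hs : HasStrictDerivAt (psi ρ ℓ θ) (psi' ρ ℓ θ σ) σ := by
    have := ha.hasStrictDerivAt
    rwa [(hasDerivAt_psi h).deriv] at this
  have hl : ∀ᶠ w in 𝓝 σ, sv ρ ℓ θ (psi ρ ℓ θ w) = w := by
    filter_upwards [ho.mem_nhds h] with w hw using sv_psi h0 h1 hw
  refine ⟨(hs.to_local_left_inverse (psi'_ne h0 h1 h) hl).hasDerivAt.differentiableAt, ?_⟩
  rw [← hs.map_nhds_eq (psi'_ne h0 h1 h), eventually_map]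
  filter_upwards [hl] with w hw
  rw [hw]

lemma hook_open {c : ℝ} (hc : 0 ≤ c) {z : ℂ} (hz : z ∈ psi ρ ℓ θ '' {σ | c < σ.re}) :
    ∀ᶠ w in 𝓝 z, w ∈ psi ρ ℓ θ '' {σ | c < σ.re} := by
  obtain ⟨σ, hσ, rfl⟩ := hz
  have hσ' : c < σ.re := hσ
  obtain ⟨a, b⟩ := sv_local (ρ := ρ) (ℓ := ℓ) h0 h1 (hc.trans_lt hσ')
  have c1 : ∀ᶠ w in 𝓝 (psi ρ ℓ θ σ), c < (sv ρ ℓ θ w).re := by
    refine (continuous_re.continuousAt.comp a.continuousAt).eventually (lt_mem_nhds ?_)
    simpa [sv_psi h0 h1 (hc.trans_lt hσ')] using hσ'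
  filter_upwards [b, c1] with w h2 h3 using ⟨_, h3, h2⟩

lemma norm_psi {σ : ℂ} (h : 0 < σ.re) :
    Real.exp (ρ.re + |θ / 8 * (2 * Real.log ‖σ‖ - ℓ)| - 1) ≤ ‖psi ρ ℓ θ σ‖ := by
  rw [psi_eq h0 h1 h, Complex.norm_exp, Real.exp_le_exp]
  have := (ups_re (ρ := ρ) (ℓ := ℓ) h0 h1 (two_log_im h)).1
  simpa [log_re] using this

lemma hook_closed {c : ℝ} (hc : 0 < c) {z : ℂ} (hz : z ∉ psi ρ ℓ θ '' {σ | c ≤ σ.re}) :
    ∀ᶠ w in 𝓝 z, w ∉ psi ρ ℓ θ '' {σ | c ≤ σ.re} := by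
  set A : ℝ := Real.exp (((‖z‖ + 1 + 1 - ρ.re) / (θ / 8) + ℓ) / 2) with hA
  set K : Set ℂ := {σ | c ≤ σ.re} ∩ closedBall 0 A with hK
  have k1 : IsCompact K :=
    (isCompact_closedBall 0 A).inter_left (isClosed_le continuous_const continuous_re)
  have k2 : IsClosed (psi ρ ℓ θ '' K) := (k1.image_of_continuousOn fun σ hσ =>
    (hasDerivAt_psi (hc.trans_le hσ.1)).continuousAt.continuousWithinAt).isClosed
  have k3 : z ∉ psi ρ ℓ θ '' K := fun h => hz (image_mono inter_subset_left h)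
  have k4 : ∀ᶠ w in 𝓝 z, ‖w‖ < ‖z‖ + 1 :=
    continuous_norm.continuousAt.eventually (gt_mem_nhds (by linarith))
  filter_upwards [k2.isOpen_compl.mem_nhds k3, k4] with w a b
  rintro ⟨σ, hσ, rfl⟩
  have hσ' : 0 < σ.re := hc.trans_le hσ
  refine a ⟨σ, ⟨hσ, ?_⟩, rfl⟩
  rw [mem_closedBall_zero_iff, hA,
    ← Real.log_le_iff_le_exp (hσ'.trans_le (re_le_norm σ))]
  have c1 := norm_psi (ρ := ρ) (ℓ := ℓ) h0 h1 hσ'
  have c2 := Real.add_one_le_exp (ρ.re + |θ / 8 * (2 * Real.log ‖σ‖ - ℓ)| - 1)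
  have c3 := le_abs_self (θ / 8 * (2 * Real.log ‖σ‖ - ℓ))
  have c4 : 2 * Real.log ‖σ‖ - ℓ ≤ (‖z‖ + 1 + 1 - ρ.re) / (θ / 8) := by
    rw [le_div_iff₀ (by positivity)]; linarith
  linarith

lemma ker_one {z : ℂ} (hz : z ∈ psi ρ ℓ θ '' {σ | 2 < σ.re}) (y : ℝ) :
    psi ρ ℓ θ ((1 : ℝ) + y * I) ≠ z ∧
      ‖psi' ρ ℓ θ ((1 : ℝ) + y * I) / (psi ρ ℓ θ ((1 : ℝ) + y * I) - z)‖ ≤ 11 := by
  obtain ⟨σ, hσ, rfl⟩ := hz
  have hσ' : 2 < σ.re := hσ
  refine kernel_of h0 h1 (by simp) fun s hs e => ?_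
  rw [psi_inj h0 h1 hs (by linarith) e, norm_sub_rev]
  have := re_le_norm (σ - ((1 : ℝ) + y * I))
  simp at this ⊢
  linarith

lemma ker_three {z : ℂ} (hz : z ∉ psi ρ ℓ θ '' {σ | 5 / 2 ≤ σ.re}) (y : ℝ) :
    psi ρ ℓ θ ((3 : ℝ) + y * I) ≠ z ∧
      ‖psi' ρ ℓ θ ((3 : ℝ) + y * I) / (psi ρ ℓ θ ((3 : ℝ) + y * I) - z)‖ ≤ 11 := by
  refine kernel_of h0 h1 (by simp) fun s hs e => ?_
  have : s.re < 5 / 2 := not_le.1 fun h => hz ⟨s, h, e⟩
  have := re_le_norm (((3 : ℝ) + y * I) - s)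
  simp at this ⊢
  linarith

omit h0 h1 in
lemma not_mem_of {z : ℂ} (hz : z ∉ psi ρ ℓ θ '' {σ | 2 < σ.re}) :
    z ∉ psi ρ ℓ θ '' {σ | 5 / 2 ≤ σ.re} :=
  fun ⟨σ, hσ, e⟩ => hz ⟨σ, lt_of_lt_of_le (by norm_num : (2 : ℝ) < 5 / 2) hσ, e⟩

lemma norm_sm (m : ℝ) (z : ℂ) : ‖sm ρ ℓ θ m z‖ ≤ 6 * Real.exp (9 - m) := by
  unfold sm
  split_ifs with h
  · refine (norm_Jc fun y => (ker_one h0 h1 h y).2).trans ?_
    gcongr; norm_num
  · refine (norm_Jc fun y => (ker_three h0 h1 (not_mem_of h) y).2).trans ?_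
    norm_num

lemma differentiable_hook (m : ℝ) :
    Differentiable ℂ fun z => sm ρ ℓ θ m z + mn ρ ℓ θ m z := by
  have cont : ∀ c : ℝ, 0 < c → (Continuous fun y : ℝ => psi ρ ℓ θ (c + y * I)) ∧
      Continuous fun y : ℝ => psi' ρ ℓ θ (c + y * I) := by
    intro c hc
    have hre : ∀ y : ℝ, 0 < (c + y * I : ℂ).re := fun y => by simpa using hc
    exact ⟨continuous_iff_continuousAt.2 fun y =>
      ContinuousAt.comp (f := fun y : ℝ => (c + y * I : ℂ)) (hasDerivAt_psi (hre y)).continuousAt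
        (by fun_prop), continuous_iff_continuousAt.2 fun y =>
      ContinuousAt.comp (f := fun y : ℝ => (c + y * I : ℂ))
        (differentiableAt_psi' (hre y)).continuousAt (by fun_prop)⟩
  intro z
  by_cases hz : z ∈ psi ρ ℓ θ '' {σ | 2 < σ.re}
  · have ho := hook_open h0 h1 (by norm_num) hz
    have d1 : DifferentiableAt ℂ (Jc (psi ρ ℓ θ) (psi' ρ ℓ θ) m 1) z :=
      diff_Jc (cont 1 one_pos).1 (cont 1 one_pos).2 (ho.mono fun w hw => ker_one h0 h1 hw)
    have d2 : DifferentiableAt ℂ (sv ρ ℓ θ) z := by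
      obtain ⟨σ, hσ, rfl⟩ := hz
      exact (sv_local h0 h1 (lt_trans two_pos hσ)).1
    have d3 : DifferentiableAt ℂ
        (fun z => Jc (psi ρ ℓ θ) (psi' ρ ℓ θ) m 1 z + cexp (sv ρ ℓ θ z ^ 2 - m)) z := by
      fun_prop
    refine d3.congr_of_eventuallyEq (ho.mono fun w hw => ?_)
    simp only [sm, mn, if_pos hw]
  · have ho := hook_closed h0 h1 (by norm_num) (not_mem_of hz)
    have d1 : DifferentiableAt ℂ (Jc (psi ρ ℓ θ) (psi' ρ ℓ θ) m 3) z :=
      diff_Jc (cont 3 three_pos).1 (cont 3 three_pos).2 (ho.mono fun w hw => ker_three h0 h1 hw)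
    refine d1.congr_of_eventuallyEq (ho.mono fun w hw => ?_)
    by_cases h : w ∈ psi ρ ℓ θ '' {σ | 2 < σ.re}
    · simp only [sm, mn, if_pos h]
      obtain ⟨s, hs, rfl⟩ := h
      have hs' : 2 < s.re := hs
      have hs2 : s.re < 5 / 2 := not_le.1 fun h => hw ⟨s, h, rfl⟩
      rw [sv_psi h0 h1 (by linarith)]
      refine (residue (fun σ => hasDerivAt_psi) (fun σ => differentiableAt_psi')
        (fun σ hσ => psi_inj h0 h1 hσ (by linarith)) (psi'_ne h0 h1 (by linarith))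
        (by linarith) hs2 fun σ hσ hn => (kernel_of h0 h1 hσ fun s' a e => ?_).2).symm
      rwa [psi_inj h0 h1 a (by linarith) e]
    · simp only [sm, mn, if_neg h, add_zero]

end

end Pool.Agent.MP_16212d_an.B

end MrgPart0

-- ======== part 1: formerly Pool.Agent.MP_16212d_an.B.Par
section MrgPart1

/-! The real parameters of the construction. -/

open Set Filter Topology

namespace Pool.Agent.MP_16212d_an.B

noncomputable def th (j : ℕ) : ℝ := 1 / 1000 * (1 / 2) ^ j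
noncomputable def ph (j : ℕ) : ℝ := 2 - 8 * th j
noncomputable def mm (j : ℕ) : ℝ := 20 + j
noncomputable def RR : ℝ := Real.exp 30
noncomputable def MM (j i : ℕ) : ℝ := if i = 0 then mm j else RR

noncomputable def row (j : ℕ) (e : Fin 3 → ℝ) (b : Fin 3) : ℕ → ℝ
  | 0 => Real.log (12 + mm j) + (e 2 - e b.rev) / (th j / 8)
  | i + 1 => Real.exp (Real.exp (row j e b i) - MM j i) - 10000

noncomputable def ent : ℕ → Fin 3 → ℝ
  | 0 => ![3, 8, 13]
  | j + 1 => fun b => row j (ent j) b (j + 2)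

noncomputable def Lm (j i : ℕ) (b : Fin 3) : ℝ := row j (ent j) b i
noncomputable def Tm (j i : ℕ) (b : Fin 3) : ℝ := Real.exp (Lm j i b) - MM j i
noncomputable def ell (j : ℕ) : ℝ := Real.log (12 + mm j) + (ent j 2 - ent j 0 + 3) / (th j / 8)

lemma th_pos (j : ℕ) : 0 < th j := by unfold th; positivity

lemma th_le (j : ℕ) : th j ≤ 1 / 1000 := by
  unfold th
  exact mul_le_of_le_one_right (by norm_num) (pow_le_one₀ (by norm_num) (by norm_num))

lemma th_lt {j j' : ℕ} (h : j < j') : th j' ≤ th j / 2 := by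
  have : (1 / 2 : ℝ) ^ j' ≤ (1 / 2) ^ (j + 1) :=
    pow_le_pow_of_le_one (by norm_num) (by norm_num) h
  rw [pow_succ] at this
  unfold th; linarith

lemma ph_sep {j j' : ℕ} {a : ℝ} (h1 : |a - ph j'| ≤ 8 / 5 * th j') (h2 : |a - ph j| ≤ 2 * th j) :
    j' = j := by
  have a1 := abs_le.1 h1
  have a2 := abs_le.1 h2
  have := th_pos j
  have := th_pos j'
  unfold ph at a1 a2
  rcases lt_trichotomy j' j with h | h | h
  · linarith [th_lt h]
  · exact h
  · linarith [th_lt h]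

lemma mm_ge (j : ℕ) : 20 ≤ mm j := by unfold mm; linarith [Nat.cast_nonneg (α := ℝ) j]

lemma exp_twelve : 150000 ≤ Real.exp 12 := by
  have h := Real.exp_one_gt_d9
  have : Real.exp 12 = Real.exp 1 ^ 12 := by rw [← Real.exp_nat_mul]; norm_num
  rw [this]
  calc (150000 : ℝ) ≤ 2.7 ^ 12 := by norm_num
    _ ≤ _ := by gcongr; linarith

lemma RR_ge : 150000 ≤ RR := exp_twelve.trans (Real.exp_le_exp.2 (by norm_num))

lemma MM_ge (j i : ℕ) : 20 ≤ MM j i := by
  unfold MM; split_ifs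
  · exact mm_ge j
  · linarith [RR_ge]

def Sep (e : Fin 3 → ℝ) : Prop := e 0 + 1 ≤ e 1 ∧ e 1 + 1 ≤ e 2

lemma Sep.le {e : Fin 3 → ℝ} (h : Sep e) (b : Fin 3) : e 0 ≤ e b ∧ e b ≤ e 2 := by
  obtain ⟨h1, h2⟩ := h
  fin_cases b <;> simp <;> try constructor <;> linarith
  all_goals linarith

lemma exp_step {a b : ℝ} (h0 : 0 ≤ a) (h : a + 1 ≤ b) : Real.exp a + 1 ≤ Real.exp b := by
  have h1 := Real.exp_le_exp.2 h
  rw [Real.exp_add] at h1
  have h2 := Real.add_one_le_exp 1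
  have h3 := Real.one_le_exp h0
  nlinarith

lemma row_T {j : ℕ} {e : Fin 3 → ℝ} (h : Sep e) (b : Fin 3) :
    12 ≤ Real.exp (row j e b 0) - MM j 0 := by
  have h1 : 0 ≤ (e 2 - e b.rev) / (th j / 8) :=
    div_nonneg (by linarith [(h.le b.rev).2]) (by linarith [th_pos j])
  have h2 : 0 < 12 + mm j := by linarith [mm_ge j]
  have := Real.exp_le_exp.2 (show Real.log (12 + mm j) ≤ row j e b 0 by simp only [row]; linarith)
  rw [Real.exp_log h2] at this
  simp only [MM, if_true]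
  linarith

lemma big_step {L : ℝ} (h : 31 ≤ L) : L + 10001 ≤ Real.exp L - RR := by
  have h1 : Real.exp L = RR * Real.exp (L - 30) := by rw [RR, ← Real.exp_add]; ring_nf
  have h2 := Real.add_one_le_exp (L - 30)
  have := RR_ge
  nlinarith

lemma row_ge {j : ℕ} {e : Fin 3 → ℝ} (h : Sep e) (b : Fin 3) (i : ℕ) :
    100 ≤ row j e b 1 ∧ row j e b 1 + i ≤ row j e b (i + 1) := by
  have h1 : 100 ≤ row j e b 1 := by
    have := Real.exp_le_exp.2 (row_T (j := j) h b)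
    simp only [row] at this ⊢
    linarith [exp_twelve]
  refine ⟨h1, ?_⟩
  induction i with
  | zero => simp
  | succ i ih =>
    have h2 := big_step (L := row j e b (i + 1)) (by linarith [Nat.cast_nonneg (α := ℝ) i])
    have h3 := Real.add_one_le_exp (Real.exp (row j e b (i + 1)) - RR)
    have : row j e b (i + 1 + 1) = Real.exp (Real.exp (row j e b (i + 1)) - RR) - 10000 := by
      rw [row]; simp [MM]
    push_cast
    linarith

lemma row_T' {j : ℕ} {e : Fin 3 → ℝ} (h : Sep e) (b : Fin 3) (i : ℕ) :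
    12 ≤ Real.exp (row j e b i) - MM j i := by
  cases i with
  | zero => exact row_T h b
  | succ i =>
    obtain ⟨h1, h2⟩ := row_ge (j := j) h b i
    have h3 := big_step (L := row j e b (i + 1)) (by linarith [Nat.cast_nonneg (α := ℝ) i])
    simp only [MM, Nat.succ_ne_zero, if_false]
    linarith [Nat.cast_nonneg (α := ℝ) i]

lemma row_sep {j : ℕ} {e : Fin 3 → ℝ} (h : Sep e) (i : ℕ) : Sep fun b => row j e b i := by
  induction i with
  | zero =>
    have p := th_pos j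
    have q := th_le j
    have k : ∀ x y : ℝ, x + 1 ≤ y → x / (th j / 8) + 1 ≤ y / (th j / 8) := by
      intro x y hxy
      rw [div_add_one (by positivity), div_le_div_iff_of_pos_right (by positivity)]
      linarith
    have e0 : (0 : Fin 3).rev = 2 := rfl
    have e1 : (1 : Fin 3).rev = 1 := rfl
    have e2 : (2 : Fin 3).rev = 0 := rfl
    constructor <;> simp only [row, e0, e1, e2]
    · linarith [k (e 2 - e 2) (e 2 - e 1) (by linarith [h.2])]
    · linarith [k (e 2 - e 1) (e 2 - e 0) (by linarith [h.1])]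
  | succ i ih =>
    have k : ∀ b b' : Fin 3, row j e b i + 1 ≤ row j e b' i →
        row j e b (i + 1) + 1 ≤ row j e b' (i + 1) := by
      intro b b' hb
      have h1 := row_T' (j := j) h b i
      have h2 : 0 ≤ row j e b i := by
        rw [← Real.one_le_exp_iff]; linarith [MM_ge j i]
      have h3 := exp_step h2 hb
      have h4 := exp_step (a := Real.exp (row j e b i) - MM j i)
        (b := Real.exp (row j e b' i) - MM j i) (by linarith) (by linarith)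
      simp only [row]
      linarith
    exact ⟨k 0 1 ih.1, k 1 2 ih.2⟩

lemma ent_sep (j : ℕ) : Sep (ent j) := by
  induction j with
  | zero => constructor <;> simp [ent] <;> norm_num
  | succ j ih => exact row_sep ih (j + 2)

lemma Lm_sep (j i : ℕ) : Sep (Lm j i) := row_sep (ent_sep j) i

lemma Tm_ge (j i : ℕ) (b : Fin 3) : 12 ≤ Tm j i b := row_T' (ent_sep j) b i

lemma Lm_succ (j i : ℕ) (b : Fin 3) : Lm j (i + 1) b = Real.exp (Tm j i b) - 10000 := rfl

lemma ent_succ (j : ℕ) (b : Fin 3) : ent (j + 1) b = Real.exp (Tm j (j + 1) b) - 10000 := rfl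

lemma ent_ge (j : ℕ) : 100 + j ≤ ent (j + 1) 0 := by
  obtain ⟨h1, h2⟩ := row_ge (j := j) (ent_sep j) 0 (j + 1)
  have : ent (j + 1) 0 = row j (ent j) 0 (j + 1 + 1) := rfl
  push_cast at h2
  linarith

lemma ent_ge' (j : ℕ) : 3 + j ≤ ent j 0 := by
  cases j with
  | zero => simp [ent]
  | succ j => have := ent_ge j; push_cast; linarith

lemma Lm_zero (j : ℕ) : Lm j 0 0 = Real.log (12 + mm j) := by
  have e0 : (0 : Fin 3).rev = 2 := rfl
  simp [Lm, row, e0]

lemma Lm_one (j : ℕ) : Lm j 1 0 = Real.exp 12 - 10000 := by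
  rw [Lm_succ, Tm, Lm_zero, Real.exp_log (by linarith [mm_ge j])]
  simp [MM]

lemma Lm_mid (j i : ℕ) : (j : ℝ) ≤ Lm j (i + 1) 1 := by
  have h1 := (row_ge (j := j) (ent_sep j) 1 i).2
  have h2 := (Lm_sep j 0).1
  rw [Lm_zero] at h2
  have h3 := Real.exp_le_exp.2 h2
  have m := mm_ge j
  rw [Real.exp_add, Real.exp_log (by linarith)] at h3
  have h4 := Real.add_one_le_exp 1
  have h5 : 12 + j ≤ Tm j 0 1 := by
    simp only [Tm, MM, if_true]
    have : mm j = 20 + j := rfl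
    nlinarith
  have h6 := Real.exp_le_exp.2 h5
  rw [Real.exp_add] at h6
  have h7 := Real.add_one_le_exp (j : ℝ)
  have h8 := exp_twelve
  have h9 : row j (ent j) 1 1 = Real.exp (Tm j 0 1) - 10000 := Lm_succ j 0 1
  have h10 : (0 : ℝ) ≤ j := Nat.cast_nonneg j
  have h11 : (0 : ℝ) ≤ i := Nat.cast_nonneg i
  unfold Lm
  nlinarith

lemma Lm_hook (j : ℕ) (b : Fin 3) :
    th j / 8 * (Lm j 0 b.rev - ell j) = -(ent j b - ent j 0 + 3) := by
  have := th_pos j
  simp only [Lm, row, ell, Fin.rev_rev]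
  field_simp
  ring

lemma Lm_ell (j : ℕ) : Lm j 0 2 + 1 ≤ ell j := by
  have h : th j / 8 * (Lm j 0 2 - ell j) = -(ent j 0 - ent j 0 + 3) := Lm_hook j 0
  have := th_pos j
  have := th_le j
  nlinarith

/-- The itinerary. -/
def nxt (s : ℕ × ℕ) : ℕ × ℕ := if s.2 ≤ s.1 then (s.1, s.2 + 1) else (s.1 + 1, 0)

def st : ℕ → ℕ × ℕ
  | 0 => (0, 0)
  | n + 1 => nxt (st n)

lemma st_le (n : ℕ) : (st n).2 ≤ (st n).1 + 1 := by
  induction n with
  | zero => simp [st]
  | succ n ih => simp only [st, nxt]; split_ifs <;> simp; omega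

lemma st_mono : Monotone fun n => (st n).1 := by
  refine monotone_nat_of_le_succ fun n => ?_
  simp only [st, nxt]; split_ifs <;> simp

lemma exists_st (j : ℕ) : ∃ n, j ≤ n ∧ st n = (j, 0) := by
  induction j with
  | zero => exact ⟨0, le_rfl, rfl⟩
  | succ j ih =>
    obtain ⟨n, h0, hn⟩ := ih
    have : ∀ i, i ≤ j + 1 → st (n + i) = (j, i) := by
      intro i
      induction i with
      | zero => intro _; exact hn
      | succ i ih2 =>
        intro hi
        rw [← add_assoc, st, ih2 (by omega), nxt, if_pos (by simp; omega)]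
    refine ⟨n + (j + 1) + 1, by omega, ?_⟩
    rw [st, this _ le_rfl, nxt, if_neg (by simp)]

lemma st_tendsto : Tendsto (fun n => (st n).1) atTop atTop := by
  refine st_mono.tendsto_atTop_atTop fun j => ?_
  obtain ⟨n, -, hn⟩ := exists_st j
  exact ⟨n, by rw [hn]⟩

lemma st_succ (n : ℕ) : (st (n + 1) = ((st n).1, (st n).2 + 1)) ∨
    (st (n + 1) = ((st n).1 + 1, 0) ∧ (st n).2 = (st n).1 + 1) := by
  have := st_le n
  simp only [st, nxt]
  split_ifs with h
  · exact Or.inl rfl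
  · exact Or.inr ⟨rfl, by omega⟩

end Pool.Agent.MP_16212d_an.B

end MrgPart1

-- ======== part 2: formerly Pool.Agent.MP_16212d_an.B.HH
section MrgPart2

/-! The inner function `H` and its tracts. -/

open Complex Set Filter Topology Metric

namespace Pool.Agent.MP_16212d_an.B

noncomputable def rho (j : ℕ) : ℂ := (ent j 0 - 3 : ℝ) + ph j * I
noncomputable def hb : ℂ := -10000 + (ph 0 - Real.pi : ℝ) * I
noncomputable def ps (j : ℕ) : ℂ → ℂ := psi (rho j) (ell j) (th j)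
noncomputable def smj (j : ℕ) : ℂ → ℂ := sm (rho j) (ell j) (th j) (mm j)
noncomputable def mnj (j : ℕ) : ℂ → ℂ := mn (rho j) (ell j) (th j) (mm j)

noncomputable def H (z : ℂ) : ℂ := hb + cexp (z - RR) + ∑' j, (smj j z + mnj j z)

noncomputable def MK : Option ℕ → ℝ
  | none => RR
  | some j => mm j

noncomputable def UK : Option ℕ → ℂ → ℂ
  | none => fun lam => lam
  | some j => ups (rho j) (ell j) (th j)

noncomputable def Ups (κ : Option ℕ) (t : ℂ) : ℂ := UK κ (Complex.log (t + MK κ))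

noncomputable def Psi (κ : Option ℕ) (t : ℂ) : ℂ := cexp (Ups κ t)

noncomputable def tc : Option ℕ → ℂ → ℂ
  | none => fun z => z - RR
  | some j => fun z => sv (rho j) (ell j) (th j) z ^ 2 - mm j

lemma rho_re (j : ℕ) : (rho j).re = ent j 0 - 3 := by simp [rho]
lemma rho_im (j : ℕ) : (rho j).im = ph j := by simp [rho]

lemma MK_ge (κ : Option ℕ) : 20 ≤ MK κ := by
  cases κ with
  | none => simp only [MK]; linarith [RR_ge]
  | some j => exact mm_ge j

lemma ph_mem (j : ℕ) : 199 / 100 ≤ ph j - 2 * th j ∧ ph j + 2 * th j ≤ 2 := by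
  have := th_pos j
  have := th_le j
  unfold ph; constructor <;> linarith

lemma log_im_le (w : ℂ) : |(Complex.log w).im| ≤ 4 := by
  rw [log_im]; exact (abs_arg_le_pi w).trans Real.pi_le_four

lemma cos_neg_of {a : ℝ} (h1 : 19 / 10 ≤ a) (h2 : a ≤ 21 / 10) :
    Real.cos a < 0 ∧ 1 / 2 ≤ Real.sin a := by
  have p3 := Real.pi_gt_three
  have p4 := Real.pi_lt_d2
  refine ⟨Real.cos_neg_of_pi_div_two_lt_of_lt (by linarith) (by linarith), ?_⟩
  have := Real.mul_le_sin (by linarith : 0 ≤ Real.pi - a) (by linarith)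
  rw [Real.sin_pi_sub] at this
  refine le_trans ?_ this
  rw [div_mul_eq_mul_div, le_div_iff₀ (by linarith)]
  linarith

lemma hook_pt {j : ℕ} {lam : ℂ} (h : |lam.im| ≤ 4) :
    |arg (cexp (UK (some j) lam)) - ph j| ≤ 8 / 5 * th j ∧ (cexp (UK (some j) lam)).re < 0 ∧
      ‖cexp (UK (some j) lam)‖ / 2 ≤ (cexp (UK (some j) lam)).im ∧
      ent j 0 - 4 ≤ (UK (some j) lam).re := by
  have a := ups_im (ρ := rho j) (ℓ := ell j) (th_pos j) (th_le j) h
  have b := (ups_re (ρ := rho j) (ℓ := ell j) (th_pos j) (th_le j) h).1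
  rw [rho_im] at a
  rw [rho_re] at b
  simp only [UK]
  set η := ups (rho j) (ell j) (th j) lam
  have a' := abs_le.1 a
  have p := ph_mem j
  have q := th_pos j
  have p3 := Real.pi_gt_three
  obtain ⟨c, d⟩ := cos_neg_of (a := η.im) (by linarith) (by linarith)
  refine ⟨?_, ?_, ?_, by linarith [abs_nonneg (th j / 8 * (lam.re - ell j))]⟩
  · rwa [← log_im, Complex.log_exp (by linarith) (by linarith)]
  · rw [exp_re]; exact mul_neg_of_pos_of_neg (Real.exp_pos _) c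
  · rw [exp_im, Complex.norm_exp]; nlinarith [Real.exp_pos η.re]

lemma ps_eq {j : ℕ} {σ : ℂ} (h : 0 < σ.re) : ps j σ = cexp (UK (some j) (2 * Complex.log σ)) :=
  psi_eq (th_pos j) (th_le j) h

lemma mnj_ne {j : ℕ} {z : ℂ} (h : mnj j z ≠ 0) : ∃ σ : ℂ, 2 < σ.re ∧ ps j σ = z := by
  by_contra hh
  exact h (by simp only [mnj, mn]; exact if_neg hh)

lemma mnj_ps {j : ℕ} {σ : ℂ} (h : 2 < σ.re) : mnj j (ps j σ) = cexp (σ ^ 2 - mm j) := by
  simp only [mnj, mn, ps]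
  rw [if_pos ⟨σ, h, rfl⟩, sv_psi (th_pos j) (th_le j) (by linarith)]

lemma ps_disj {j j' : ℕ} {σ σ' : ℂ} (h : 0 < σ.re) (h' : 0 < σ'.re) (e : ps j σ = ps j' σ') :
    j' = j := by
  have a := (hook_pt (j := j) (two_log_im h)).1
  have b := (hook_pt (j := j') (two_log_im h')).1
  rw [← ps_eq h] at a
  rw [← ps_eq h', ← e] at b
  exact ph_sep b (by linarith [th_pos j])

lemma exp_six : Real.exp (-6) ≤ 1 / 400 := by
  have h := Real.exp_one_gt_d9
  have : Real.exp 6 = Real.exp 1 ^ 6 := by rw [← Real.exp_nat_mul]; norm_num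
  rw [Real.exp_neg, this, ← one_div]
  refine one_div_le_one_div_of_le (by norm_num) ?_
  calc (400 : ℝ) ≤ 2.718 ^ 6 := by norm_num
    _ ≤ _ := by gcongr; linarith

lemma norm_smj (j : ℕ) (z : ℂ) : ‖smj j z‖ ≤ 1 / 2000 * (1 / 2) ^ j := by
  refine (norm_sm (th_pos j) (th_le j) _ z).trans ?_
  have e : Real.exp (9 - mm j) = Real.exp 1 * (Real.exp 12)⁻¹ * Real.exp (-1) ^ j := by
    rw [← Real.exp_neg, ← Real.exp_nat_mul, ← Real.exp_add, ← Real.exp_add, mm]; ring_nf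
  have h1 : Real.exp (-1) ≤ 1 / 2 := by
    rw [Real.exp_neg, ← one_div]
    exact one_div_le_one_div_of_le (by norm_num) (by linarith [Real.add_one_le_exp 1])
  have h2 : (Real.exp 12)⁻¹ ≤ 150000⁻¹ := inv_anti₀ (by norm_num) exp_twelve
  have h3 := Real.exp_one_lt_d9
  rw [e]
  calc _ ≤ 6 * (3 * 150000⁻¹ * (1 / 2 : ℝ) ^ j) := by gcongr; linarith
    _ ≤ _ := by
      have : (0 : ℝ) ≤ (1 / 2) ^ j := by positivity
      linarith

lemma summable_geo (c : ℝ) : Summable fun j : ℕ => c * (1 / 2 : ℝ) ^ j :=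
  summable_geometric_two.mul_left c

lemma summable_smj (z : ℂ) : Summable fun j => smj j z :=
  Summable.of_norm_bounded (summable_geo _) fun j => norm_smj j z

lemma norm_tsum_smj (z : ℂ) : ‖∑' j, smj j z‖ ≤ 1 / 1000 := by
  have := tsum_of_norm_bounded ((summable_geo (1 / 2000)).hasSum) fun j => norm_smj j z
  rwa [tsum_mul_left, tsum_geometric_two, show (1 / 2000 * 2 : ℝ) = 1 / 1000 by norm_num] at this

lemma H_sub {z : ℂ} {j : ℕ} (h : ∀ j' ≠ j, mnj j' z = 0) :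
    ‖H z - hb - cexp (z - RR) - mnj j z‖ ≤ 1 / 1000 := by
  have h1 := hasSum_single j h
  rw [H, (summable_smj z).tsum_add h1.summable, h1.tsum_eq]
  convert norm_tsum_smj z using 2
  ring

lemma exists_main (z : ℂ) : ∃ j, ∀ j' ≠ j, mnj j' z = 0 := by
  by_cases h : ∃ j, mnj j z ≠ 0
  · obtain ⟨j, hj⟩ := h
    obtain ⟨σ, a, b⟩ := mnj_ne hj
    refine ⟨j, fun j' hj' => ?_⟩
    by_contra hh
    obtain ⟨σ', a', b'⟩ := mnj_ne hh
    exact hj' (ps_disj (by linarith) (by linarith) (b.trans b'.symm))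
  · push Not at h
    exact ⟨0, fun j _ => h j⟩

lemma differentiable_H : Differentiable ℂ H := by
  have d : ∀ j, Differentiable ℂ fun z => smj j z + mnj j z := fun j =>
    differentiable_hook (th_pos j) (th_le j) _
  suffices Differentiable ℂ fun z => ∑' j, (smj j z + mnj j z) by
    unfold H; fun_prop
  intro z
  obtain ⟨N, hN⟩ := exists_nat_gt ‖z‖
  have hb : ∀ j, ∃ C, ∀ w ∈ closedBall (0 : ℂ) N, ‖smj j w + mnj j w‖ ≤ C := fun j =>
    (isCompact_closedBall 0 (N : ℝ)).exists_bound_of_continuousOn (d j).continuous.continuousOn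
  choose C hC using hb
  have hs : Summable fun j => if j < N then C j else 1 / 2000 * (1 / 2 : ℝ) ^ j := by
    refine (summable_geo (1 / 2000)).congr_atTop ?_
    filter_upwards [eventually_ge_atTop N] with j hj
    rw [if_neg (not_lt.2 hj)]
  refine (differentiableOn_tsum_of_summable_norm hs (fun j => (d j).differentiableOn)
    (isOpen_ball (x := (0 : ℂ)) (ε := N)) fun j w hw => ?_).differentiableAt
    (isOpen_ball.mem_nhds (by simpa using hN))
  split_ifs with h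
  · exact hC j w (ball_subset_closedBall hw)
  · have : mnj j w = 0 := by
      by_contra hh
      obtain ⟨σ, a, b⟩ := mnj_ne hh
      have a' : 0 < σ.re := by linarith
      have c := (hook_pt (j := j) (two_log_im a')).2.2.2
      have c2 := ent_ge' j
      have c3 := Real.add_one_le_exp (UK (some j) (2 * Complex.log σ)).re
      rw [← Complex.norm_exp, ← ps_eq a', b] at c3
      have c4 : (N : ℝ) ≤ j := by exact_mod_cast not_lt.1 h
      rw [mem_ball_zero_iff] at hw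
      linarith
    rw [this, add_zero]
    exact norm_smj j w

lemma sqrt_spec {w : ℂ} (h : 14 < w.re) : 2 < (cexp (Complex.log w / 2)).re ∧
    cexp (Complex.log w / 2) ^ 2 = w ∧ 2 * Complex.log (cexp (Complex.log w / 2)) = Complex.log w := by
  have n : w ≠ 0 := fun e => by rw [e] at h; simp at h; linarith
  have a : |arg w| < Real.pi / 2 := abs_arg_lt_pi_div_two_iff.2 (Or.inl (by linarith))
  have a' := abs_lt.1 a
  have p := Real.pi_pos
  have e1 : cexp (Complex.log w / 2) ^ 2 = w := by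
    rw [sq, ← Complex.exp_add, add_halves, Complex.exp_log n]
  have b : 0 < (cexp (Complex.log w / 2)).re := by
    rw [exp_re]
    refine mul_pos (Real.exp_pos _) (Real.cos_pos_of_mem_Ioo ⟨?_, ?_⟩) <;>
      rw [div_ofNat_im, log_im] <;> linarith
  refine ⟨?_, e1, ?_⟩
  · have := congrArg re e1
    rw [sq, mul_re] at this
    nlinarith [mul_self_nonneg (cexp (Complex.log w / 2)).im]
  · rw [Complex.log_exp] <;> (try rw [div_ofNat_im, log_im]) <;> first | linarith | ring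

lemma Psi_none {t : ℂ} (h : -6 < t.re) : Psi none t = t + RR := by
  refine Complex.exp_log fun e => ?_
  have := congrArg re e
  simp [MK] at this
  linarith [RR_ge]

lemma Psi_some {j : ℕ} {t : ℂ} (h : -6 < t.re) :
    ∃ σ : ℂ, 2 < σ.re ∧ σ ^ 2 - mm j = t ∧ Psi (some j) t = ps j σ := by
  obtain ⟨a, b, c⟩ := sqrt_spec (w := t + mm j) (by simp; linarith [mm_ge j])
  refine ⟨_, a, by rw [b]; ring, ?_⟩
  rw [ps_eq (by linarith), c]; rfl

lemma Psi_ps {j : ℕ} {σ : ℂ} (h0 : 0 < σ.re) (h : -6 < (σ ^ 2 - mm j).re) :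
    Psi (some j) (σ ^ 2 - mm j) = ps j σ := by
  obtain ⟨s, a, b, c⟩ := Psi_some (j := j) h
  rw [c]
  have : (s - σ) * (s + σ) = 0 := by linear_combination b
  rcases mul_eq_zero.1 this with e | e
  · rw [sub_eq_zero.1 e]
  · have := congrArg re e
    simp at this; linarith

lemma tc_Psi (κ : Option ℕ) {t : ℂ} (h : -6 < t.re) :
    tc κ (Psi κ t) = t ∧ ContinuousAt (tc κ) (Psi κ t) := by
  cases κ with
  | none => exact ⟨by simp [tc, Psi_none h], by simp only [tc]; fun_prop⟩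
  | some j =>
    obtain ⟨s, a, b, c⟩ := Psi_some (j := j) h
    have := (sv_local (ρ := rho j) (ℓ := ell j) (th_pos j) (th_le j)
      (by linarith : 0 < s.re)).1.continuousAt
    rw [c]
    refine ⟨by simp only [tc, ps]; rw [sv_psi (th_pos j) (th_le j) (by linarith), b], ?_⟩
    exact (this.pow 2).sub continuousAt_const

lemma H_Psi (κ : Option ℕ) {t : ℂ} (h : -6 < t.re) : ‖H (Psi κ t) - hb - cexp t‖ ≤ 1 / 500 := by
  cases κ with
  | none =>
    have z0 : ∀ j, mnj j (Psi none t) = 0 := by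
      intro j
      by_contra hh
      obtain ⟨σ, a, b⟩ := mnj_ne hh
      have c := (hook_pt (j := j) (two_log_im (by linarith : 0 < σ.re))).2.1
      rw [← ps_eq (by linarith), b, Psi_none h] at c
      simp at c
      linarith [RR_ge]
    have := H_sub (z := Psi none t) (j := 0) fun j _ => z0 j
    rw [z0, sub_zero] at this
    rw [Psi_none h, add_sub_cancel_right] at this
    rw [Psi_none h]
    linarith
  | some j =>
    obtain ⟨s, a, b, c⟩ := Psi_some (j := j) h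
    have s0 : 0 < s.re := by linarith
    have := H_sub (z := ps j s) (j := j) fun j' hj' => by
      by_contra hh
      obtain ⟨σ, a', b'⟩ := mnj_ne hh
      exact hj' (ps_disj s0 (by linarith) b'.symm)
    rw [mnj_ps a, b] at this
    rw [c]
    have d := (hook_pt (j := j) (two_log_im s0)).2.1
    rw [← ps_eq s0] at d
    have e : ‖cexp (ps j s - RR)‖ ≤ 1 / 1000 := by
      rw [Complex.norm_exp]
      have f1 : Real.exp (ps j s - RR).re ≤ Real.exp (-12) :=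
        Real.exp_le_exp.2 (by simp; linarith [RR_ge])
      have f2 : (Real.exp 12)⁻¹ ≤ 150000⁻¹ := inv_anti₀ (by norm_num) exp_twelve
      rw [Real.exp_neg] at f1
      linarith
    have := norm_add_le (H (ps j s) - hb - cexp (ps j s - RR) - cexp t) (cexp (ps j s - RR))
    rw [show H (ps j s) - hb - cexp (ps j s - RR) - cexp t + cexp (ps j s - RR) =
      H (ps j s) - hb - cexp t by ring] at this
    linarith

/-- Membership in a tract. -/
def InT (κ : Option ℕ) (z : ℂ) : Prop := ∃ t : ℂ, -6 < t.re ∧ Psi κ t = z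

lemma H_out {z : ℂ} (h : ∀ κ, ¬ InT κ z) : ‖H z - hb‖ ≤ 1 / 100 := by
  obtain ⟨j, hj⟩ := exists_main z
  have a := H_sub hj
  have b : ‖cexp (z - RR)‖ ≤ 1 / 400 := by
    rw [Complex.norm_exp]
    refine le_trans (Real.exp_le_exp.2 (not_lt.1 fun hh => h none ⟨_, hh, ?_⟩)) exp_six
    rw [Psi_none hh]; ring
  have c : ‖mnj j z‖ ≤ 1 / 400 := by
    by_cases hh : mnj j z = 0
    · rw [hh]; norm_num
    obtain ⟨σ, a', rfl⟩ := mnj_ne hh
    rw [mnj_ps a', Complex.norm_exp]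
    exact le_trans (Real.exp_le_exp.2 (not_lt.1 fun hh =>
      h (some j) ⟨_, hh, Psi_ps (by linarith) hh⟩)) exp_six
  have := norm_add₃_le (a := H z - hb - cexp (z - RR) - mnj j z) (b := cexp (z - RR))
    (c := mnj j z)
  rw [show H z - hb - cexp (z - RR) - mnj j z + cexp (z - RR) + mnj j z = H z - hb by ring] at this
  linarith

lemma InT_none {z : ℂ} (h : InT none z) : 0 < z.re := by
  obtain ⟨t, a, rfl⟩ := h
  rw [Psi_none a]; simp; linarith [RR_ge]

lemma InT_some {j : ℕ} {z : ℂ} (h : InT (some j) z) :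
    |arg z - ph j| ≤ 8 / 5 * th j ∧ z.re < 0 ∧ ‖z‖ / 2 ≤ z.im := by
  obtain ⟨t, -, rfl⟩ := h
  obtain ⟨a, b, c, -⟩ := hook_pt (j := j) (log_im_le (t + MK (some j)))
  exact ⟨a, b, c⟩

lemma InT_sep {S : Set ℂ} (hS : IsPreconnected S) (h : ∀ z ∈ S, ∃ κ, InT κ z) {x : ℂ}
    (hx : x ∈ S) {κ : Option ℕ} (hκ : InT κ x) : ∀ z ∈ S, InT κ z := by
  have hne : ∀ z ∈ S, z.re ≠ 0 := by
    intro z hz
    obtain ⟨κ', h'⟩ := h z hz
    cases κ' with
    | none => exact (InT_none h').ne'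
    | some j => exact (InT_some h').2.1.ne
  cases κ with
  | none =>
    intro z hz
    have := gt_of_ne hS continuous_re.continuousOn hne hx (InT_none hκ) z hz
    obtain ⟨κ', h'⟩ := h z hz
    cases κ' with
    | none => exact h'
    | some j => linarith [(InT_some h').2.1]
  | some j =>
    have h1 : ∀ z ∈ S, ∃ j', InT (some j') z := by
      intro z hz
      have := lt_of_ne hS continuous_re.continuousOn hne hx (InT_some hκ).2.1 z hz
      obtain ⟨κ', h'⟩ := h z hz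
      cases κ' with
      | none => linarith [InT_none h']
      | some j => exact ⟨j, h'⟩
    have p := th_pos j
    have h2 : ContinuousOn (fun z => |arg z - ph j|) S := by
      refine continuous_abs.comp_continuousOn (ContinuousOn.sub ?_ continuousOn_const)
      intro z hz
      obtain ⟨j', h'⟩ := h1 z hz
      obtain ⟨-, b, c⟩ := InT_some h'
      have : 0 < ‖z‖ := norm_pos_iff.2 fun e => by rw [e] at b; simp at b
      exact (continuousAt_arg (Or.inr (by linarith))).continuousWithinAt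
    have h3 := lt_of_ne hS h2 (c := 2 * th j) (fun z hz e => by
      obtain ⟨j', h'⟩ := h1 z hz
      have a := (InT_some h').1
      have := ph_sep a e.le
      subst this
      linarith) hx (by linarith [(InT_some hκ).1])
    intro z hz
    obtain ⟨j', h'⟩ := h1 z hz
    rwa [ph_sep (InT_some h').1 (h3 z hz).le] at h'

end Pool.Agent.MP_16212d_an.B

end MrgPart2

-- marker of a merged file
example : 731051 + 553973 = 731051 + 553973 := rfl
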