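import Mathlib.Combinatorics.SimpleGraph.Basic
import Pool.Agent.MP_16212d_an.B.HH
import Pool.Agent.MP_16212d_an.B.Hyp

-- ======== part 0: formerly Pool.Agent.MP_16212d_an.B.Mono
section MrgPart0

/-! The outer function and expansion estimates in logarithmic coordinates. -/

open Complex Set Filter Topology Metric

namespace Pool.Agent.MP_16212d_an.B

noncomputable def gg (α β h : ℂ) : ℂ :=
  cexp α * Complex.cosh (h / 2) ^ 2 - cexp β * Complex.sinh (h / 2) ^ 2

noncomputable def QQ (ζ h : ℂ) : ℂ := (1 + cexp (-h)) ^ 2 - cexp ζ * (1 - cexp (-h)) ^ 2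

noncomputable def LL (α β h : ℂ) : ℂ := h + α - Real.log 4 + Complex.log (QQ (β - α) h)

def Par (α β : ℂ) : Prop :=
  |α.re - 13| ≤ 2 ∧ |β.re - 3| ≤ 2 ∧ |α.im - ph 0| ≤ 1 / 100 ∧ |β.im - ph 0| ≤ 1 / 100

noncomputable def hh (κ : Option ℕ) (t : ℂ) : ℂ := H (Psi κ t)

def GG : Set ℂ := {t | Real.log 10010 ≤ t.re} ∩ {t | |t.im - 0| ≤ 1 / 50}

lemma convex_GG : Convex ℝ GG := (convex_re_ge _).inter (convex_im _ _)

lemma mem_GG {t : ℂ} : t ∈ GG ↔ 10010 ≤ Real.exp t.re ∧ |t.im| ≤ 1 / 50 := by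
  simp only [GG, mem_inter_iff, mem_ofPred_eq, sub_zero]
  rw [Real.log_le_iff_le_exp (by norm_num)]

lemma GG_re {t : ℂ} (h : t ∈ GG) : 9 ≤ t.re := by
  have h1 := (mem_GG.1 h).1
  by_contra hh
  have h2 := Real.exp_le_exp.2 (not_le.1 hh).le
  have h3 : Real.exp 9 = Real.exp 1 ^ 9 := by rw [← Real.exp_nat_mul]; norm_num
  have h4 : Real.exp 1 ^ 9 ≤ 2.72 ^ 9 := by
    gcongr; linarith [Real.exp_one_lt_d9]
  norm_num at h4
  linarith

lemma norm_exp_le {w : ℂ} (h : w.re ≤ -6) : ‖cexp w‖ ≤ 1 / 400 := by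
  rw [Complex.norm_exp]; exact (Real.exp_le_exp.2 h).trans exp_six

lemma QQ_near {ζ h : ℂ} (hζ : ζ.re ≤ -6) (hh : 6 ≤ h.re) :
    ‖cexp ζ * (1 - cexp (-h)) ^ 2‖ ≤ 1 / 300 ∧ ‖QQ ζ h - 1‖ ≤ 1 / 100 := by
  have a := norm_exp_le hζ
  have b := norm_exp_le (w := -h) (by simpa using hh)
  set ε := cexp (-h)
  have c : ‖1 - ε‖ ≤ 401 / 400 := by
    have := norm_sub_le 1 ε; rw [norm_one] at this; linarith
  have d : ‖cexp ζ * (1 - ε) ^ 2‖ ≤ 1 / 300 := by
    rw [norm_mul, norm_pow]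
    calc _ ≤ 1 / 400 * (401 / 400 : ℝ) ^ 2 := by gcongr
      _ ≤ _ := by norm_num
  refine ⟨d, ?_⟩
  have e : QQ ζ h - 1 = ε * (2 + ε) - cexp ζ * (1 - ε) ^ 2 := by rw [QQ]; ring
  have f : ‖ε * (2 + ε)‖ ≤ 1 / 400 * (801 / 400) := by
    rw [norm_mul]
    have := norm_add_le 2 ε
    rw [norm_ofNat] at this
    gcongr; linarith
  rw [e]
  linarith [norm_sub_le (ε * (2 + ε)) (cexp ζ * (1 - ε) ^ 2)]

lemma QQ_slit {ζ h : ℂ} (hζ : ζ.re ≤ -6) (hh : 6 ≤ h.re) : QQ ζ h ∈ slitPlane := by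
  have := mem_slitPlane_of_norm_lt_one (z := QQ ζ h - 1) (by linarith [(QQ_near hζ hh).2])
  simpa using this

lemma norm_log_QQ {ζ h : ℂ} (hζ : ζ.re ≤ -6) (hh : 6 ≤ h.re) :
    ‖Complex.log (QQ ζ h)‖ ≤ 3 / 200 := by
  have a := (QQ_near hζ hh).2
  have := Complex.norm_log_one_add_half_le_self (z := QQ ζ h - 1) (by linarith)
  rw [add_sub_cancel] at this
  linarith

lemma Par.zeta {α β : ℂ} (h : Par α β) : (β - α).re ≤ -6 := by
  have a := abs_le.1 h.1
  have b := abs_le.1 h.2.1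
  rw [sub_re]; linarith

lemma gg_neg (α β h : ℂ) : gg α β (-h) = gg α β h := by
  simp [gg, neg_div]

lemma exp_LL {α β h : ℂ} (hp : Par α β) (hh : 6 ≤ h.re) : cexp (LL α β h) = gg α β h := by
  rw [LL, Complex.exp_add, Complex.exp_log (slitPlane_ne_zero (QQ_slit hp.zeta hh)),
    Complex.exp_sub, ← ofReal_exp, Real.exp_log (by norm_num), Complex.exp_add, QQ,
    Complex.exp_sub, gg, Complex.cosh, Complex.sinh]
  have e1 : cexp h = cexp (h / 2) ^ 2 := by rw [sq, ← Complex.exp_add, add_halves]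
  rw [Complex.exp_neg, Complex.exp_neg, e1]
  have := exp_ne_zero (h / 2)
  have := exp_ne_zero α
  push_cast
  field_simp
  ring

lemma LL_near {α β h : ℂ} (hp : Par α β) (hh : 6 ≤ h.re) :
    ‖LL α β h - (h + α - Real.log 4)‖ ≤ 3 / 200 := by
  rw [LL, add_sub_cancel_left]; exact norm_log_QQ hp.zeta hh

lemma hasDerivAt_LL {α β h : ℂ} (hp : Par α β) (hh : 7 ≤ h.re) :
    ∃ D, HasDerivAt (LL α β) D h ∧ Cone (98 / 100) (1 / 60) D := by
  have d : ∀ w ∈ closedBall h 1, DifferentiableAt ℂ (fun w => Complex.log (QQ (β - α) w)) w ∧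
      ‖Complex.log (QQ (β - α) w)‖ ≤ 3 / 200 := by
    intro w hw
    have : 6 ≤ w.re := by
      have := abs_re_le_norm (w - h)
      rw [mem_closedBall_iff_norm] at hw
      rw [sub_re] at this
      linarith [(abs_le.1 (this.trans hw)).1]
    exact ⟨DifferentiableAt.clog (by unfold QQ; fun_prop) (QQ_slit hp.zeta this),
      norm_log_QQ hp.zeta this⟩
  have b := deriv_le one_pos (fun w hw => (d w hw).1) (fun w hw => (d w hw).2)
  refine ⟨_, ((((hasDerivAt_id h).add_const α).sub_const (Real.log 4 : ℂ)).add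
    (d h (mem_closedBall_self zero_le_one)).1.hasDerivAt), ?_⟩
  set e := deriv (fun w => Complex.log (QQ (β - α) w)) h
  have b1 := abs_le.1 ((abs_re_le_norm e).trans b)
  have b2 := (abs_im_le_norm e).trans b
  constructor <;> simp <;> linarith

lemma LL_par {α β α' β' h : ℂ} (hp : Par α β) (hp' : Par α' β') (hh : 6 ≤ h.re) {c : ℝ}
    (h1 : ‖α - α'‖ ≤ c) (h2 : ‖β - β'‖ ≤ c) : ‖LL α β h - LL α' β' h‖ ≤ 2 * c := by
  have a := lip (F := fun ζ => Complex.log (QQ ζ h))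
    (F' := fun ζ => -(cexp ζ * (1 - cexp (-h)) ^ 2) / QQ ζ h) (convex_re_le (-6))
    (fun ζ hζ => HasDerivAt.clog (by
      exact ((Complex.hasDerivAt_exp ζ).mul_const _).const_sub _) (QQ_slit hζ hh))
    (C := 1 / 2) (fun ζ hζ => by
      obtain ⟨b1, b2⟩ := QQ_near hζ hh
      have := norm_sub_norm_le 1 (QQ ζ h)
      rw [norm_one, norm_sub_rev] at this
      rw [norm_div, norm_neg, div_le_iff₀ (by linarith)]
      linarith) hp.zeta hp'.zeta
  have b : ‖β - α - (β' - α')‖ ≤ 2 * c := by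
    have := norm_sub_le (β - β') (α - α')
    rw [show β - β' - (α - α') = β - α - (β' - α') by ring] at this
    linarith
  have e : LL α β h - LL α' β' h =
      (α - α') + (Complex.log (QQ (β - α) h) - Complex.log (QQ (β' - α') h)) := by
    simp only [LL]; ring
  rw [e]
  linarith [norm_add_le (α - α') (Complex.log (QQ (β - α) h) - Complex.log (QQ (β' - α') h))]

lemma norm_gg {α β : ℂ} (hp : Par α β) (h : ℂ) : ‖gg α β h‖ ≤ Real.exp (16 + |h.re|) := by
  have a := abs_le.1 hp.1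
  have b := abs_le.1 hp.2.1
  have e : Real.exp |(h / 2).re| ^ 2 = Real.exp |h.re| := by
    rw [sq, ← Real.exp_add, div_ofNat_re, abs_div, abs_two, add_halves]
  have c1 : ‖Complex.cosh (h / 2)‖ ^ 2 ≤ Real.exp |h.re| := by
    rw [← e]; gcongr; exact norm_cosh_le_exp _
  have c2 : ‖Complex.sinh (h / 2)‖ ^ 2 ≤ Real.exp |h.re| := by
    rw [← e]; gcongr; exact norm_sinh_le_exp _
  have d1 : ‖cexp α‖ ≤ Real.exp 15 := by rw [Complex.norm_exp]; gcongr; linarith
  have d2 : ‖cexp β‖ ≤ Real.exp 15 := by rw [Complex.norm_exp]; gcongr; linarith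
  refine (norm_sub_le _ _).trans ?_
  rw [norm_mul, norm_mul, norm_pow, norm_pow, Real.exp_add,
    show (16 : ℝ) = 15 + 1 by norm_num, Real.exp_add]
  have f1 := mul_le_mul d1 c1 (by positivity) (by positivity)
  have f2 := mul_le_mul d2 c2 (by positivity) (by positivity)
  have f3 := Real.add_one_le_exp 1
  have f4 : 0 < Real.exp 15 * Real.exp |h.re| := by positivity
  nlinarith

/-- The trap. -/
def B0 : Set ℂ := {z | 10 * |z.im| ≤ -z.re}

lemma gg_trap {α β h : ℂ} (hp : Par α β) {s : ℝ} (hs : 0 ≤ s) (he : ‖h - hb + s‖ ≤ 1 / 50) :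
    gg α β h ∈ B0 := by
  have a1 := abs_le.1 ((abs_re_le_norm _).trans he)
  have a2 := abs_le.1 ((abs_im_le_norm _).trans he)
  simp [hb] at a1 a2
  have b : 6 ≤ (-h).re := by simp; linarith
  rw [← gg_neg, ← exp_LL hp b]
  have c := abs_le.1 ((abs_im_le_norm _).trans (LL_near hp b))
  have d := abs_le.1 hp.2.2.1
  simp only [sub_im, add_im, neg_im, ofReal_im] at c
  set η := LL α β (-h)
  have e : |η.im - Real.pi| ≤ 1 / 20 := abs_le.2 ⟨by linarith, by linarith⟩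
  have f1 := cos_ge_small e
  have f2 : |Real.sin (η.im - Real.pi)| ≤ 1 / 20 := Real.abs_sin_le_abs.trans e
  rw [Real.cos_sub_pi] at f1
  rw [Real.sin_sub_pi, abs_neg] at f2
  simp only [B0, mem_ofPred_eq, exp_re, exp_im, abs_mul, Real.abs_exp]
  nlinarith [Real.exp_pos η.re]

lemma not_InT {z : ℂ} (h : z ∈ B0) (κ : Option ℕ) : ¬ InT κ z := by
  intro h'
  have h : 10 * |z.im| ≤ -z.re := h
  cases κ with
  | none => linarith [InT_none h', abs_nonneg z.im]
  | some j =>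
    obtain ⟨-, b, c⟩ := InT_some h'
    have := abs_re_le_norm z
    rw [abs_of_neg b] at this
    linarith [le_abs_self z.im]

lemma hasDerivAt_UK (κ : Option ℕ) {lam : ℂ} (h : |lam.im| ≤ 4) :
    ∃ D, HasDerivAt (UK κ) D lam ∧ ‖D‖ ≤ 1 := by
  cases κ with
  | none => exact ⟨1, hasDerivAt_id lam, by simp⟩
  | some j =>
    exact ⟨_, hasDerivAt_ups (th_pos j) (th_le j) h,
      (norm_ups' (th_pos j) (th_le j) h).trans (by linarith [th_le j])⟩

lemma slit_add (κ : Option ℕ) {t : ℂ} (h : -6 < t.re) : t + MK κ ∈ slitPlane :=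
  Or.inl (by simp; linarith [MK_ge κ])

lemma hasDerivAt_lam (κ : Option ℕ) {t : ℂ} (h : -6 < t.re) :
    HasDerivAt (fun t => Complex.log (t + MK κ)) (1 / (t + MK κ)) t :=
  ((hasDerivAt_id t).add_const _).clog (slit_add κ h)

lemma norm_inv_le (κ : Option ℕ) {t : ℂ} (h : 0 ≤ t.re) : ‖1 / (t + MK κ)‖ ≤ 1 / 20 := by
  have := re_le_norm (t + MK κ)
  simp only [add_re, ofReal_re] at this
  rw [norm_div, norm_one]
  exact one_div_le_one_div_of_le (by norm_num) (by linarith [MK_ge κ])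

lemma lam_lip (κ : Option ℕ) {t t' : ℂ} (h : 0 ≤ t.re) (h' : 0 ≤ t'.re) :
    ‖Complex.log (t + MK κ) - Complex.log (t' + MK κ)‖ ≤ 1 / 20 * ‖t - t'‖ :=
  lip (convex_re_ge 0) (fun w (hw : 0 ≤ w.re) => hasDerivAt_lam κ (by linarith))
    (fun _ hw => norm_inv_le κ hw) h h'

lemma UK_lip (κ : Option ℕ) {u v : ℂ} (h : |u.im| ≤ 4) (h' : |v.im| ≤ 4) :
    ‖UK κ u - UK κ v‖ ≤ ‖u - v‖ := by
  have := lip (F := UK κ) (F' := deriv (UK κ)) (convex_im 0 4) (fun w hw => by
    obtain ⟨D, a, -⟩ := hasDerivAt_UK κ (lam := w) (by simpa using hw)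
    exact a.differentiableAt.hasDerivAt) (C := 1) (fun w hw => by
    obtain ⟨D, a, b⟩ := hasDerivAt_UK κ (lam := w) (by simpa using hw)
    rwa [a.deriv]) (u := u) (v := v) (by simpa using h) (by simpa using h')
  rwa [one_mul] at this

lemma Ups_lip (κ : Option ℕ) {t t' : ℂ} (h : 0 ≤ t.re) (h' : 0 ≤ t'.re) :
    ‖Ups κ t - Ups κ t'‖ ≤ ‖t - t'‖ :=
  (UK_lip κ (log_im_le _) (log_im_le _)).trans
    ((lam_lip κ h h').trans (by linarith [norm_nonneg (t - t')]))

lemma differentiableAt_Ups (κ : Option ℕ) {t : ℂ} (h : -6 < t.re) :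
    DifferentiableAt ℂ (Ups κ) t := by
  obtain ⟨D, a, -⟩ := hasDerivAt_UK κ (log_im_le (t + MK κ))
  exact (a.comp t (hasDerivAt_lam κ h)).differentiableAt

lemma differentiableAt_hh (κ : Option ℕ) {t : ℂ} (h : -6 < t.re) :
    DifferentiableAt ℂ (hh κ) t :=
  (differentiable_H _).comp t (differentiableAt_Ups κ h).cexp

lemma deriv_hh (κ : Option ℕ) {t : ℂ} (h : -5 < t.re) : ‖deriv (hh κ) t - cexp t‖ ≤ 1 / 500 := by
  have d : ∀ w ∈ closedBall t 1, -6 < w.re := by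
    intro w hw
    have := abs_re_le_norm (w - t)
    rw [mem_closedBall_iff_norm] at hw
    rw [sub_re] at this
    linarith [(abs_le.1 (this.trans hw)).1]
  have b := deriv_le (e := fun w => hh κ w - hb - cexp w) one_pos
    (fun w hw => ((differentiableAt_hh κ (d w hw)).sub_const _).sub (by fun_prop))
    (fun w hw => H_Psi κ (d w hw))
  have e := (((differentiableAt_hh κ (by linarith : -6 < t.re)).hasDerivAt.sub_const hb).sub
    (Complex.hasDerivAt_exp t)).deriv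
  have e2 : (fun w => hh κ w - hb - cexp w) = (fun x => hh κ x - hb) - cexp := rfl
  rw [e2, e, div_one] at b
  exact b

lemma hh_re (κ : Option ℕ) {t : ℂ} (h : t ∈ GG) : 7 ≤ (hh κ t).re := by
  have a := GG_re h
  obtain ⟨b, c⟩ := mem_GG.1 h
  have d := (abs_le.1 ((abs_re_le_norm _).trans (H_Psi κ (by linarith : -6 < t.re)))).1
  have e := Real.one_sub_sq_div_two_le_cos (x := t.im)
  have f : t.im ^ 2 ≤ (1 / 50) ^ 2 := by rw [← sq_abs]; gcongr
  have g := mul_le_mul b (show 9998 / 10000 ≤ Real.cos t.im by linarith) (by norm_num)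
    (by positivity)
  simp only [sub_re, exp_re, hb, add_re, neg_re, re_ofNat, mul_re, ofReal_re, I_re, mul_zero,
    ofReal_im, I_im, mul_one, sub_self, add_zero] at d
  unfold hh
  linarith

lemma cone_L {α β : ℂ} (hp : Par α β) (κ : Option ℕ) {t : ℂ} (h : t ∈ GG) :
    ∃ D, HasDerivAt (fun t => LL α β (hh κ t)) D t ∧ Cone 7000 (1 / 20) D := by
  have a := GG_re h
  obtain ⟨b, c⟩ := mem_GG.1 h
  obtain ⟨D, d1, d2⟩ := hasDerivAt_LL hp (hh_re κ h)
  refine ⟨_, d1.comp t (differentiableAt_hh κ (by linarith)).hasDerivAt, ?_⟩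
  have e := deriv_hh κ (by linarith : -5 < t.re)
  have e1 := abs_le.1 ((abs_re_le_norm _).trans e)
  have e2 := abs_le.1 ((abs_im_le_norm _).trans e)
  simp only [sub_re, sub_im, exp_re, exp_im] at e1 e2
  have f1 := cos_ge_small (y := t.im) (by linarith)
  have f2 := abs_le.1 ((Real.abs_sin_le_abs (x := t.im)).trans c)
  have p := Real.exp_pos t.re
  have g1 := mul_le_mul_of_nonneg_left f1 p.le
  have g2 := mul_le_mul_of_nonneg_left f2.1 p.le
  have g3 := mul_le_mul_of_nonneg_left f2.2 p.le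
  have k : Cone 9000 (1 / 40) (deriv (hh κ) t) :=
    ⟨by linarith, abs_le.2 ⟨by linarith, by linarith⟩⟩
  exact (d2.mul k (by norm_num) (by norm_num) (by norm_num) (by norm_num) (by norm_num)).mono
    (by norm_num) (by norm_num) (by norm_num)

lemma L_slope {α β : ℂ} (hp : Par α β) (κ : Option ℕ) {t t' : ℂ} (h : t ∈ GG) (h' : t' ∈ GG)
    (hne : t ≠ t') : Cone 7000 (1 / 20) ((LL α β (hh κ t) - LL α β (hh κ t')) / (t - t')) := by
  have := cone_slope (F := fun t => LL α β (hh κ t)) (F' := deriv fun t => LL α β (hh κ t))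
    convex_GG (fun w hw => by
      obtain ⟨D, a, -⟩ := cone_L hp κ hw
      exact a.differentiableAt.hasDerivAt) h h' hne (a := 7000) (κ := 1 / 20) 1 (fun w hw => by
      obtain ⟨D, a, b⟩ := cone_L hp κ hw
      rwa [a.deriv, one_mul])
  rwa [one_mul] at this

lemma L_expand {α β : ℂ} (hp : Par α β) (κ : Option ℕ) {t t' : ℂ} (h : t ∈ GG) (h' : t' ∈ GG) :
    7000 * ‖t - t'‖ ≤ ‖LL α β (hh κ t) - LL α β (hh κ t')‖ := by
  by_cases hne : t = t'
  · simp [hne]
  have := (L_slope hp κ h h' hne).1.trans (re_le_norm _)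
  rwa [norm_div, le_div_iff₀ (norm_pos_iff.2 (sub_ne_zero.2 hne))] at this

lemma lam_im (κ : Option ℕ) {t : ℂ} (h : t ∈ GG) :
    |(Complex.log (t + MK κ)).im| ≤ 1 / 1000 ∧ 3 ≤ (Complex.log (t + MK κ)).re := by
  have a := GG_re h
  have b := (mem_GG.1 h).2
  have c := MK_ge κ
  have p : 29 ≤ (t + MK κ).re := by simp; linarith
  constructor
  · rw [log_im]
    refine (abs_arg_le (by linarith)).trans ?_
    rw [div_le_iff₀ (by linarith)]
    simp only [add_im, ofReal_im, add_zero]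
    linarith
  · have q := re_le_norm (t + MK κ)
    rw [log_re, Real.le_log_iff_exp_le (by linarith)]
    have h3 : Real.exp 3 = Real.exp 1 ^ 3 := by rw [← Real.exp_nat_mul]; norm_num
    have h4 : Real.exp 1 ^ 3 ≤ 3 ^ 3 := by gcongr; linarith [Real.exp_one_lt_d9]
    linarith

/-- The monotone step from `lam` to the next logarithmic coordinate. -/
lemma mono_slope {α β : ℂ} (hp : Par α β) (κ : Option ℕ) {t t' : ℂ} (h : t ∈ GG) (h' : t' ∈ GG)
    (hne : t ≠ t') : ∃ D, Cone 1000 (1 / 4) D ∧ LL α β (hh κ t) - LL α β (hh κ t') =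
      D * (Complex.log (t + MK κ) - Complex.log (t' + MK κ)) := by
  have e1 := Complex.exp_log (slitPlane_ne_zero (slit_add κ (by linarith [GG_re h] : -6 < t.re)))
  have e2 := Complex.exp_log (slitPlane_ne_zero (slit_add κ (by linarith [GG_re h'] : -6 < t'.re)))
  obtain ⟨a1, a2⟩ := lam_im κ h
  obtain ⟨b1, b2⟩ := lam_im κ h'
  set u := Complex.log (t + MK κ)
  set v := Complex.log (t' + MK κ)
  have n : u ≠ v := fun e => hne (by rw [e, e2] at e1; exact (add_right_cancel e1).symm)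
  have c := cone_slope (F := cexp) (F' := cexp) ((convex_re_ge 0).inter (convex_im 0 (1 / 100)))
    (fun w _ => Complex.hasDerivAt_exp w) (u := u) (v := v)
    ⟨show 0 ≤ u.re by linarith, show |u.im - 0| ≤ 1 / 100 by rw [sub_zero]; linarith⟩
    ⟨show 0 ≤ v.re by linarith, show |v.im - 0| ≤ 1 / 100 by rw [sub_zero]; linarith⟩ n
    (a := 1 / 2) (κ := 1 / 50) 1 (fun w hw => by
      have w1 : 0 ≤ w.re := hw.1
      have w2 : |w.im| ≤ 1 / 100 := by simpa using hw.2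
      have f1 := cos_ge_small (y := w.im) (by linarith)
      have f2 := (Real.abs_sin_le_abs (x := w.im)).trans w2
      have p := Real.one_le_exp w1
      rw [one_mul]
      constructor
      · rw [exp_re]; nlinarith
      · rw [exp_re, exp_im, abs_mul, Real.abs_exp]; nlinarith)
  rw [one_mul, e1, e2, add_sub_add_right_eq_sub] at c
  refine ⟨_, ((L_slope hp κ h h' hne).mul c (by norm_num) (by norm_num) (by norm_num)
    (by norm_num) (by norm_num)).mono (by norm_num) (by norm_num) (by norm_num), ?_⟩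
  have := sub_ne_zero.2 hne
  have := sub_ne_zero.2 n
  field_simp

end Pool.Agent.MP_16212d_an.B

end MrgPart0

-- ======== part 1: formerly Pool.Agent.MP_16212d_an.B.Fix
section MrgPart1

/-! The three marked orbits. -/

open Complex Set Filter Topology Metric

namespace Pool.Agent.MP_16212d_an.B

def KK (n : ℕ) : Option ℕ := if (st n).2 = 0 then some (st n).1 else none

def sw (n : ℕ) (b : Fin 3) : Fin 3 := if (st n).2 = 0 then b.rev else b

noncomputable def TT (p : ℕ × Fin 3) : ℂ := (Tm (st p.1).1 (st p.1).2 p.2 : ℝ)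

def Box (t : ℕ × Fin 3 → ℂ) : Prop := ∀ p, ‖t p - TT p‖ ≤ 1 / 100

noncomputable def al (t : ℕ × Fin 3 → ℂ) : ℂ := Ups (KK 0) (t (0, 0))
noncomputable def be (t : ℕ × Fin 3 → ℂ) : ℂ := Ups (KK 0) (t (0, 2))

lemma MK_KK (n : ℕ) : MK (KK n) = MM (st n).1 (st n).2 := by
  unfold KK MM; split_ifs <;> rfl

lemma box_GG {p : ℕ × Fin 3} {t : ℂ} (h : ‖t - TT p‖ ≤ 1 / 100) : t ∈ GG := by
  have a := abs_le.1 ((abs_re_le_norm _).trans h)
  have b := (abs_im_le_norm _).trans h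
  have c := Tm_ge (st p.1).1 (st p.1).2 p.2
  simp only [TT, sub_re, ofReal_re, sub_im, ofReal_im, sub_zero] at a b
  refine mem_GG.2 ⟨?_, by linarith⟩
  have d : Real.exp 12 = Real.exp 11 * Real.exp 1 := by rw [← Real.exp_add]; norm_num
  have e := Real.exp_le_exp.2 (show 11 ≤ t.re by linarith)
  nlinarith [exp_twelve, Real.exp_one_lt_d9, Real.exp_pos 11]

lemma lam_box {n : ℕ} {b : Fin 3} {t : ℂ} (h : ‖t - TT (n, b)‖ ≤ 1 / 100) :
    ‖Complex.log (t + MK (KK n)) - Lm (st n).1 (st n).2 b‖ ≤ 1 / 2000 := by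
  have a := lam_lip (KK n) (t := t) (t' := TT (n, b)) (by linarith [GG_re (box_GG h)])
    (by simp only [TT, ofReal_re]; linarith [Tm_ge (st n).1 (st n).2 b])
  have e : TT (n, b) + MK (KK n) = cexp (Lm (st n).1 (st n).2 b) := by
    rw [MK_KK, TT, Tm]; simp
  rw [e, Complex.log_exp (by simpa using Real.pi_pos) (by simpa using Real.pi_pos.le)] at a
  linarith

lemma UK_model {j : ℕ} {b : Fin 3} {lam : ℂ} (h : ‖lam - Lm j 0 b.rev‖ ≤ 1) :
    |(UK (some j) lam).re - ent j b| ≤ 2 ∧ |(UK (some j) lam).im - ph j| ≤ 1 / 100 := by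
  have a := abs_le.1 ((abs_re_le_norm _).trans h)
  have a' := (abs_im_le_norm _).trans h
  simp only [sub_re, ofReal_re, sub_im, ofReal_im, sub_zero] at a a'
  have p := th_pos j
  have q := th_le j
  have c := ups_im (ρ := rho j) (ℓ := ell j) p q (lam := lam) (by linarith)
  obtain ⟨d1, d2⟩ := ups_re (ρ := rho j) (ℓ := ell j) p q (lam := lam) (by linarith)
  rw [rho_im] at c
  rw [rho_re] at d1 d2
  have e := Lm_hook j b
  have f := ((ent_sep j).le b).1
  have g1 : th j / 8 * (lam.re - Lm j 0 b.rev) ≤ 1 := by nlinarith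
  have g2 : -1 ≤ th j / 8 * (lam.re - Lm j 0 b.rev) := by nlinarith
  have k : th j / 8 * (lam.re - ell j) =
      th j / 8 * (lam.re - Lm j 0 b.rev) - (ent j b - ent j 0 + 3) := by linear_combination e
  rw [abs_of_neg (by linarith), k] at d1 d2
  exact ⟨abs_le.2 ⟨by simp only [UK]; linarith, by simp only [UK]; linarith⟩,
    by simp only [UK]; linarith⟩

lemma KK_zero : KK 0 = some 0 := rfl

lemma Box.par {t : ℕ × Fin 3 → ℂ} (h : Box t) : Par (al t) (be t) := by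
  have a := UK_model (j := 0) (b := 2) ((lam_box (h (0, 0))).trans (by norm_num))
  have b := UK_model (j := 0) (b := 0) ((lam_box (h (0, 2))).trans (by norm_num))
  exact ⟨a.1, b.1, a.2, b.2⟩

lemma Ups_model {n : ℕ} {b : Fin 3} {t : ℂ} (h : ‖t - TT (n + 1, sw (n + 1) b)‖ ≤ 1 / 100) :
    ‖Ups (KK (n + 1)) t - (Real.exp (Tm (st n).1 (st n).2 b) - 10000 : ℝ)‖ ≤ 5 := by
  have a := lam_box h
  rcases st_succ n with e | ⟨e, e'⟩
  · simp only [sw, KK, e, Nat.succ_ne_zero, if_false, Lm_succ] at a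
    simp only [KK, e, Nat.succ_ne_zero, if_false, Ups, UK]
    linarith
  · simp only [sw, KK, e, if_true] at a
    obtain ⟨c, d⟩ := UK_model (a.trans (by norm_num))
    simp only [KK, e, if_true, Ups, e', ← ent_succ]
    refine (norm_le_abs_re_add_abs_im _).trans ?_
    simp only [sub_re, ofReal_re, sub_im, ofReal_im, sub_zero]
    have p := ph_mem ((st n).1 + 1)
    have q := th_pos ((st n).1 + 1)
    have r := abs_le.1 d
    rw [abs_of_pos (by linarith : 0 < (UK (some ((st n).1 + 1))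
      (Complex.log (t + MK (some ((st n).1 + 1))))).im)]
    linarith

lemma L_model {α β : ℂ} (hp : Par α β) (κ : Option ℕ) {T : ℝ} (hT : (T : ℂ) ∈ GG) :
    ‖LL α β (hh κ T) - (Real.exp T - 10000 : ℝ)‖ ≤ 25 := by
  have a := LL_near hp (h := hh κ T) (by linarith [hh_re κ hT])
  have b := H_Psi κ (t := T) (by linarith [GG_re hT])
  have c1 := abs_le.1 hp.1
  have c2 := abs_le.1 hp.2.2.1
  have p := ph_mem 0
  have q := th_pos 0
  have c : ‖α‖ ≤ 18 := by
    refine (norm_le_abs_re_add_abs_im _).trans ?_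
    rw [abs_of_pos (by linarith), abs_of_pos (by linarith)]; linarith
  have d : ‖(Real.log 4 : ℂ)‖ ≤ 3 := by
    rw [norm_real, Real.norm_eq_abs, abs_of_pos (Real.log_pos (by norm_num))]
    linarith [Real.log_le_sub_one_of_pos (by norm_num : (0 : ℝ) < 4)]
  have e : ‖((ph 0 - Real.pi : ℝ) : ℂ) * I‖ ≤ 3 := by
    rw [norm_mul, norm_I, mul_one, norm_real, Real.norm_eq_abs, abs_le]
    constructor <;> linarith [Real.pi_gt_three, Real.pi_le_four]
  have f : LL α β (hh κ T) - (Real.exp T - 10000 : ℝ) =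
      (LL α β (hh κ T) - (hh κ T + α - Real.log 4)) + (H (Psi κ T) - hb - cexp T) +
        (((ph 0 - Real.pi : ℝ) : ℂ) * I + (α - Real.log 4)) := by
    simp only [hb, hh]; push_cast; ring
  rw [f]
  have g1 := norm_sub_le α (Real.log 4 : ℂ)
  have g2 := norm_add_le (((ph 0 - Real.pi : ℝ) : ℂ) * I) (α - Real.log 4)
  refine norm_add₃_le.trans ?_
  linarith

/-- The marked orbits. -/
def Mk (t : ℕ × Fin 3 → ℂ) : Prop := Box t ∧ ∀ n b,
  LL (al t) (be t) (hh (KK n) (t (n, b))) = Ups (KK (n + 1)) (t (n + 1, sw (n + 1) b))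

lemma exists_Mk : ∃ t, Mk t := by
  have key : ∀ t : ℕ × Fin 3 → ℂ, ∀ p : ℕ × Fin 3, ∃ τ, Box t → (‖τ - TT p‖ ≤ 1 / 100 ∧
      LL (al t) (be t) (hh (KK p.1) τ) = Ups (KK (p.1 + 1)) (t (p.1 + 1, sw (p.1 + 1) p.2))) := by
    intro t p
    by_cases h : Box t
    swap
    · exact ⟨0, fun h' => absurd h' h⟩
    have c : TT p ∈ GG := box_GG (p := p) (by simp)
    obtain ⟨τ, a, b⟩ := cover (L := fun τ => LL (al t) (be t) (hh (KK p.1) τ)) (a := TT p)
      (b := Ups (KK (p.1 + 1)) (t (p.1 + 1, sw (p.1 + 1) p.2))) (r := 1 / 100) (K := 7000)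
      (by norm_num) (fun z hz => by
        obtain ⟨D, d, -⟩ := cone_L h.par (KK p.1) (box_GG (mem_closedBall_iff_norm.1 hz))
        exact d.differentiableAt)
      (fun z hz => L_expand h.par _ (box_GG (mem_closedBall_iff_norm.1 hz)) c) (by
        have a1 := L_model h.par (KK p.1) c
        have a2 := Ups_model (h (p.1 + 1, sw (p.1 + 1) p.2))
        have := norm_sub_le_norm_sub_add_norm_sub
          (LL (al t) (be t) (hh (KK p.1) (TT p)))
          ((Real.exp (Tm (st p.1).1 (st p.1).2 p.2) - 10000 : ℝ) : ℂ)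
          (Ups (KK (p.1 + 1)) (t (p.1 + 1, sw (p.1 + 1) p.2)))
        rw [norm_sub_rev] at a2
        simp only [TT] at this ⊢
        linarith)
    exact ⟨τ, fun _ => ⟨mem_closedBall_iff_norm.1 a, b⟩⟩
  choose Φ hΦ using key
  obtain ⟨t, h1, h2⟩ := fix TT (by norm_num : (0 : ℝ) ≤ 1 / 100) Φ
    (fun t ht p => (hΦ t p ht).1) (fun t t' ht ht' c hc p => by
      have ht : Box t := ht
      have ht' : Box t' := ht'
      have u : ∀ κ q, ‖Ups κ (t q) - Ups κ (t' q)‖ ≤ c := fun κ q =>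
        (Ups_lip κ (by linarith [GG_re (box_GG (ht q))])
          (by linarith [GG_re (box_GG (ht' q))])).trans (hc q)
      obtain ⟨a1, a2⟩ := hΦ t p ht
      obtain ⟨b1, b2⟩ := hΦ t' p ht'
      have d1 := L_expand ht.par (KK p.1) (box_GG a1) (box_GG b1)
      have d2 := LL_par ht'.par ht.par (h := hh (KK p.1) (Φ t' p))
        (by linarith [hh_re (KK p.1) (box_GG b1)]) (c := c)
        (by rw [norm_sub_rev]; exact u _ _) (by rw [norm_sub_rev]; exact u _ _)
      have d3 := u (KK (p.1 + 1)) (p.1 + 1, sw (p.1 + 1) p.2)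
      rw [← a2, ← b2] at d3
      have d4 := norm_sub_le_norm_sub_add_norm_sub (LL (al t) (be t) (hh (KK p.1) (Φ t p)))
        (LL (al t') (be t') (hh (KK p.1) (Φ t' p))) (LL (al t) (be t) (hh (KK p.1) (Φ t' p)))
      have d5 : 0 ≤ c := (norm_nonneg _).trans (hc p)
      linarith)
  refine ⟨t, h1, fun n b => ?_⟩
  have := (hΦ t (n, b) h1).2
  rwa [h2] at this

end Pool.Agent.MP_16212d_an.B

end MrgPart1

-- ======== part 2: formerly Pool.Agent.MP_16212d_an.B.Lift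
section MrgPart2

/-! Lifting steps of the dynamics through the hyperbolic cosine. -/

open Complex Set Filter Topology Metric

namespace Pool.Agent.MP_16212d_an.B

noncomputable def rt (r : ℂ) : ℂ := cexp (Complex.log r / 2)

/-- The admissible ratios. -/
def Adm (r : ℂ) : Prop := 0 < r.im ∨ 0 < r.re

lemma Adm.slit {r : ℂ} (h : Adm r) : r ∈ slitPlane := h.elim (fun h => Or.inr h.ne') Or.inl

lemma rt_spec {r : ℂ} (h : Adm r) : rt r ^ 2 = r ∧ 0 < (rt r).re ∧ -(rt r).re < (rt r).im := by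
  have e : rt r ^ 2 = r := by
    rw [rt, sq, ← Complex.exp_add, add_halves, Complex.exp_log (slitPlane_ne_zero h.slit)]
  have p : 0 < (rt r).re := by
    have a := neg_pi_lt_arg r
    have b := lt_of_le_of_ne (arg_le_pi r) (slitPlane_arg_ne_pi h.slit)
    rw [rt, exp_re]
    refine mul_pos (Real.exp_pos _) (Real.cos_pos_of_mem_Ioo ⟨?_, ?_⟩) <;>
      rw [div_ofNat_im, log_im] <;> linarith
  refine ⟨e, p, ?_⟩
  by_contra hh
  have e1 := congrArg re e
  have e2 := congrArg im e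
  rw [sq, mul_re] at e1
  rw [sq, mul_im] at e2
  rcases h with h | h <;> nlinarith

lemma ratio_slit {ω a b : ℂ} (ha : 0 < a.re) (hb : 0 < b.re)
    (h : (a * Complex.cosh ω) ^ 2 - (b * Complex.sinh ω) ^ 2 = 1) :
    (a * Complex.cosh ω + b * Complex.sinh ω) * cexp (-ω) ∈ slitPlane := by
  by_contra hh
  rw [mem_slitPlane_iff] at hh
  push Not at hh
  set E := a * Complex.cosh ω + b * Complex.sinh ω with hE
  have h1 : E * (a * Complex.cosh ω - b * Complex.sinh ω) = 1 := by linear_combination h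
  have h2 : E ≠ 0 := left_ne_zero_of_mul_eq_one h1
  obtain ⟨c, hc⟩ : ∃ c : ℝ, E * cexp (-ω) = -c :=
    ⟨-(E * cexp (-ω)).re, by apply Complex.ext <;> simp [hh.2]⟩
  have c0 : 0 < c := by
    have := hh.1
    rw [hc] at this
    refine lt_of_le_of_ne (by simpa using this) fun e => ?_
    rw [← e] at hc
    simp [h2] at hc
  have cn : (c : ℂ) ≠ 0 := by exact_mod_cast c0.ne'
  set q := cexp ω with hq
  set p := cexp (-ω) with hp
  have qp : q * p = 1 := by rw [hq, hp, ← Complex.exp_add]; simp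
  have e1 : E = -c * q := by linear_combination q * hc - E * qp
  have e2 : a * Complex.cosh ω - b * Complex.sinh ω = -(c⁻¹ : ℝ) * p := by
    have : E * (-(c⁻¹ : ℝ) * p) = 1 := by
      rw [e1]; push_cast; field_simp; exact qp
    exact mul_left_cancel₀ h2 (h1.trans this.symm)
  have e3 : a * (q + p) = -c * q - (c⁻¹ : ℝ) * p := by
    have : Complex.cosh ω = (q + p) / 2 := rfl
    linear_combination e1 + e2 - hE - 2 * a * this
  have e4 : b * (q - p) = -c * q + (c⁻¹ : ℝ) * p := by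
    have : Complex.sinh ω = (q - p) / 2 := rfl
    linear_combination e1 - e2 - hE - 2 * b * this
  have f : a * normSq (q + p) + b * normSq (q - p) =
      -(2 * c * normSq q + 2 * (c⁻¹ : ℝ) * normSq p) := by
    simp only [← mul_conj, map_add, map_sub]
    linear_combination ((starRingEnd ℂ) q + (starRingEnd ℂ) p) * e3 +
      ((starRingEnd ℂ) q - (starRingEnd ℂ) p) * e4
  have g := congrArg re f
  simp only [add_re, mul_re, ofReal_re, ofReal_im, mul_zero, sub_zero, neg_re, re_ofNat,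
    im_ofNat, mul_im, zero_mul, add_zero] at g
  have g1 := mul_nonneg ha.le (normSq_nonneg (q + p))
  have g2 := mul_nonneg hb.le (normSq_nonneg (q - p))
  have g3 : 0 < 2 * c * normSq q := by
    have := normSq_pos.2 (exp_ne_zero ω); positivity
  have g4 : 0 ≤ 2 * c⁻¹ * normSq p := by
    have := normSq_nonneg p; positivity
  linarith

noncomputable def lift (ω v : ℂ) : ℂ :=
  ω + Complex.log ((rt ((v + 1) / Complex.cosh ω ^ 2) * Complex.cosh ω +
    rt (v / Complex.sinh ω ^ 2) * Complex.sinh ω) * cexp (-ω))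

/-- The relation between consecutive lifts. -/
def Rel (ω ω' : ℂ) : Prop := ∃ a b : ℂ, 0 < a.re ∧ 0 < b.re ∧ -a.re < a.im ∧ -b.re < b.im ∧
  Complex.cosh ω' = a * Complex.cosh ω ∧ Complex.sinh ω' = b * Complex.sinh ω ∧
  |ω'.im - ω.im| < Real.pi

lemma lift_aux {ω v : ℂ} (h1 : Adm ((v + 1) / Complex.cosh ω ^ 2))
    (h2 : Adm (v / Complex.sinh ω ^ 2)) :
    (rt ((v + 1) / Complex.cosh ω ^ 2) * Complex.cosh ω) ^ 2 = v + 1 ∧
    (rt (v / Complex.sinh ω ^ 2) * Complex.sinh ω) ^ 2 = v := by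
  have n1 := (div_ne_zero_iff.1 (slitPlane_ne_zero h1.slit)).2
  have n2 := (div_ne_zero_iff.1 (slitPlane_ne_zero h2.slit)).2
  rw [mul_pow, mul_pow, (rt_spec h1).1, (rt_spec h2).1, div_mul_cancel₀ _ n1, div_mul_cancel₀ _ n2]
  exact ⟨rfl, rfl⟩

lemma lift_spec {ω v : ℂ} (h1 : Adm ((v + 1) / Complex.cosh ω ^ 2))
    (h2 : Adm (v / Complex.sinh ω ^ 2)) :
    Rel ω (lift ω v) ∧ Complex.sinh (lift ω v) ^ 2 = v := by
  obtain ⟨e1, e2⟩ := lift_aux h1 h2
  obtain ⟨-, a1, a2⟩ := rt_spec h1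
  obtain ⟨-, b1, b2⟩ := rt_spec h2
  unfold lift
  set a := rt ((v + 1) / Complex.cosh ω ^ 2)
  set b := rt (v / Complex.sinh ω ^ 2)
  have h : (a * Complex.cosh ω) ^ 2 - (b * Complex.sinh ω) ^ 2 = 1 := by rw [e1, e2]; ring
  have s := ratio_slit a1 b1 h
  set ω' := ω + Complex.log ((a * Complex.cosh ω + b * Complex.sinh ω) * cexp (-ω)) with hω
  have f1 : cexp ω' = a * Complex.cosh ω + b * Complex.sinh ω := by
    rw [hω, Complex.exp_add, Complex.exp_log (slitPlane_ne_zero s), Complex.exp_neg]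
    field_simp
  have f2 : cexp (-ω') = a * Complex.cosh ω - b * Complex.sinh ω := by
    rw [Complex.exp_neg, f1]
    exact inv_eq_of_mul_eq_one_right (by linear_combination h)
  have g1 : Complex.cosh ω' = a * Complex.cosh ω := by
    rw [Complex.cosh, f1, f2]; ring
  have g2 : Complex.sinh ω' = b * Complex.sinh ω := by
    rw [Complex.sinh, f1, f2]; ring
  refine ⟨⟨a, b, a1, b1, a2, b2, g1, g2, ?_⟩, by rw [g2, e2]⟩
  rw [hω, add_im, add_sub_cancel_left, log_im, abs_lt]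
  exact ⟨neg_pi_lt_arg _, lt_of_le_of_ne (arg_le_pi _) (slitPlane_arg_ne_pi s)⟩

lemma continuous_lift {Z : Type*} [TopologicalSpace Z] {ω v : Z → ℂ} (hω : Continuous ω)
    (hv : Continuous v) (h1 : ∀ z, Adm ((v z + 1) / Complex.cosh (ω z) ^ 2))
    (h2 : ∀ z, Adm (v z / Complex.sinh (ω z) ^ 2)) : Continuous fun z => lift (ω z) (v z) := by
  have c1 : Continuous fun z => rt ((v z + 1) / Complex.cosh (ω z) ^ 2) :=
    ((Continuous.clog (Continuous.div (by fun_prop) (by fun_prop) fun z =>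
      (div_ne_zero_iff.1 (slitPlane_ne_zero (h1 z).slit)).2)
        fun z => (h1 z).slit).div_const 2).cexp
  have c2 : Continuous fun z => rt (v z / Complex.sinh (ω z) ^ 2) :=
    ((Continuous.clog (Continuous.div (by fun_prop) (by fun_prop) fun z =>
      (div_ne_zero_iff.1 (slitPlane_ne_zero (h2 z).slit)).2)
        fun z => (h2 z).slit).div_const 2).cexp
  refine hω.add (Continuous.clog (by fun_prop) fun z => ?_)
  obtain ⟨e1, e2⟩ := lift_aux (h1 z) (h2 z)
  exact ratio_slit (rt_spec (h1 z)).2.1 (rt_spec (h2 z)).2.1 (by rw [e1, e2]; ring)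

/-- A cone condition. -/
def Cn (r : ℂ) : Prop := 0 < r.re ∧ 3 * |r.im| ≤ r.re

def Nar (x : ℂ) : Prop := 0 < x.re ∧ 6 * |x.im| ≤ x.re

lemma Cn.re_ne {x : ℂ} (h : Cn (x ^ 2)) : x.re ≠ 0 := by
  intro e
  have := h.1
  rw [sq, mul_re, e] at this
  nlinarith [mul_self_nonneg x.im]

lemma Cn.nar {x : ℂ} (h : Cn (x ^ 2)) (h0 : 0 < x.re) : Nar x := by
  refine ⟨h0, ?_⟩
  have := h.2
  rw [sq, mul_re, mul_im, mul_comm x.im, ← two_mul, abs_mul, abs_mul, abs_two,
    abs_of_pos h0] at this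
  by_contra hh
  nlinarith [mul_self_nonneg x.im, not_le.1 hh]

lemma Nar.mul {x c : ℂ} (hx : Nar x) (h : Cn ((c * x) ^ 2)) (hc : -c.re ≤ |c.im|) :
    Nar (c * x) := by
  refine h.nar (lt_of_le_of_ne (not_lt.1 fun hh => ?_) h.re_ne.symm)
  have hy : Nar (-(c * x)) := Cn.nar (by rwa [neg_sq]) (by simpa using hh)
  set y := -(c * x) with hy'
  have n : 0 < normSq x := normSq_pos.2 fun e => by have := hx.1; rw [e] at this; simp at this
  have e : -c * normSq x = y * (starRingEnd ℂ) x := by rw [hy', ← mul_conj]; ring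
  have e1 := congrArg re e
  have e2 := congrArg im e
  simp only [mul_re, neg_re, ofReal_re, ofReal_im, mul_zero, sub_zero, conj_re, conj_im, mul_im,
    neg_im, zero_add] at e1 e2
  obtain ⟨x1, x2⟩ := hx
  obtain ⟨y1, y2⟩ := hy
  have b1 : |c.im| * normSq x ≤ y.re * x.re / 3 := by
    rw [← abs_neg, ← abs_of_pos n, ← abs_mul, e2]
    refine (abs_add_le _ _).trans ?_
    rw [abs_mul, abs_mul, abs_neg, abs_of_pos x1, abs_of_pos y1]
    nlinarith
  have b2 : |y.im * x.im| ≤ y.re * x.re / 36 := by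
    rw [abs_mul]
    nlinarith [abs_nonneg y.im, abs_nonneg x.im]
  have b3 := mul_le_mul_of_nonneg_right hc n.le
  have b4 := mul_pos y1 x1
  linarith [neg_abs_le (y.im * x.im)]

lemma cosh_shift (V : ℂ) : Complex.cosh (V - Real.pi / 2 * I) = -I * Complex.sinh V := by
  rw [Complex.cosh_sub, cosh_mul_I, sinh_mul_I, Complex.cos_pi_div_two, Complex.sin_pi_div_two]
  ring

lemma sinh_shift (V : ℂ) : Complex.sinh (V - Real.pi / 2 * I) = -I * Complex.cosh V := by
  rw [Complex.sinh_sub, cosh_mul_I, sinh_mul_I, Complex.cos_pi_div_two, Complex.sin_pi_div_two]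
  ring

lemma shift_int (V : ℂ) (d : ℤ) : Complex.cosh (V - d * Real.pi * I) =
    Complex.cos (d * Real.pi) * Complex.cosh V ∧ Complex.sinh (V - d * Real.pi * I) =
    Complex.cos (d * Real.pi) * Complex.sinh V := by
  rw [Complex.cosh_sub, Complex.sinh_sub, cosh_mul_I, sinh_mul_I, Complex.sin_int_mul_pi]
  constructor <;> ring

lemma cos_int_sq (d : ℤ) : Complex.cos (d * Real.pi) ^ 2 = 1 := by
  have := Complex.sin_sq_add_cos_sq (d * Real.pi)
  rw [Complex.sin_int_mul_pi] at this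
  linear_combination this

lemma shift_sq (V : ℂ) (d : ℤ) : Complex.cosh (V - d * Real.pi * I) ^ 2 = Complex.cosh V ^ 2 ∧
    Complex.sinh (V - d * Real.pi * I) ^ 2 = Complex.sinh V ^ 2 := by
  rw [(shift_int V d).1, (shift_int V d).2, mul_pow, mul_pow, cos_int_sq, one_mul, one_mul]
  exact ⟨rfl, rfl⟩

lemma Rel.shift {ω ω' : ℂ} (h : Rel ω ω') (d : ℤ) :
    Rel (ω - d * Real.pi * I) (ω' - d * Real.pi * I) := by
  obtain ⟨a, b, a1, b1, a2, b2, e1, e2, e3⟩ := h
  refine ⟨a, b, a1, b1, a2, b2, ?_, ?_, by simpa using e3⟩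
  · rw [(shift_int _ d).1, (shift_int _ d).1, e1]; ring
  · rw [(shift_int _ d).2, (shift_int _ d).2, e2]; ring

lemma Rel.neg {ω ω' : ℂ} (h : Rel ω ω') : Rel (-ω) (-ω') := by
  obtain ⟨a, b, a1, b1, a2, b2, e1, e2, e3⟩ := h
  refine ⟨a, b, a1, b1, a2, b2, by simpa using e1, by simpa using e2, ?_⟩
  rw [← abs_neg]; convert e3 using 2; simp; ring

lemma persist_cosh {V V' a : ℂ} (ha : 0 < a.re) (e : Complex.cosh V' = a * Complex.cosh V)
    (hd : |V'.im - V.im| < Real.pi) (h : |V.im| < Real.pi / 2) (c : Cn (Complex.cosh V ^ 2))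
    (c' : Cn (Complex.cosh V' ^ 2)) : |V'.im| < Real.pi / 2 := by
  have n : Nar (Complex.cosh V) := c.nar (by
    rw [cosh_re]; exact mul_pos (Real.cosh_pos _) (Real.cos_pos_of_mem_Ioo (abs_lt.1 h)))
  have n' := (n.mul (e ▸ c') (by linarith [abs_nonneg a.im])).1
  rw [← e, cosh_re] at n'
  have p := (pos_iff_pos_of_mul_pos n').1 (Real.cosh_pos _)
  by_contra hh
  have := Real.cos_nonpos_of_pi_div_two_le_of_le (not_lt.1 hh)
    (by linarith [abs_sub_abs_le_abs_sub V'.im V.im])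
  rw [Real.cos_abs] at this
  linarith

lemma Rel.up {ω ω' : ℂ} (h : Rel ω ω') {d : ℤ} (h0 : |ω.im - d * Real.pi| < Real.pi / 2)
    (c : Cn (Complex.cosh ω ^ 2)) (c' : Cn (Complex.cosh ω' ^ 2)) :
    |ω'.im - d * Real.pi| < Real.pi / 2 := by
  obtain ⟨a, b, a1, -, -, -, e1, -, e3⟩ := h.shift d
  simpa using persist_cosh a1 e1 e3 (by simpa using h0) (by rwa [(shift_sq _ d).1])
    (by rwa [(shift_sq _ d).1])

lemma Rel.dn {ω ω' : ℂ} (h : Rel ω ω') {d : ℤ}
    (h0 : |ω.im - d * Real.pi - Real.pi / 2| < Real.pi / 2)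
    (c : Cn (-Complex.sinh ω ^ 2)) (c' : Cn (-Complex.sinh ω' ^ 2)) :
    |ω'.im - d * Real.pi - Real.pi / 2| < Real.pi / 2 := by
  obtain ⟨a, b, -, b1, -, -, -, e2, e3⟩ := h.shift d
  have k : ∀ V : ℂ, Complex.cosh (V - d * Real.pi * I - Real.pi / 2 * I) ^ 2 =
      -Complex.sinh V ^ 2 := fun V => by
    rw [cosh_shift, mul_pow, (shift_sq _ d).2, neg_sq, I_sq]; ring
  simpa using persist_cosh (V := ω - d * Real.pi * I - Real.pi / 2 * I)
    (V' := ω' - d * Real.pi * I - Real.pi / 2 * I) b1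
    (by rw [cosh_shift, cosh_shift, e2]; ring) (by simpa using e3) (by simpa using h0)
    (by rwa [k]) (by rwa [k])

lemma exists_arg {V : ℂ} (h1 : Nar (Complex.cosh V)) (h2 : Nar (Complex.sinh V)) :
    0 < V.re ∧ ∃ k : ℤ, |V.im - k * (2 * Real.pi)| ≤ 1 / 6 := by
  have a := h1.1
  have b := h2.1
  constructor
  · rw [cosh_re] at a
    rw [sinh_re] at b
    have p := (pos_iff_pos_of_mul_pos a).1 (Real.cosh_pos _)
    exact Real.sinh_pos_iff.1 ((pos_iff_pos_of_mul_pos b).2 p)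
  · have e : cexp V = Complex.cosh V + Complex.sinh V := (Complex.cosh_add_sinh V).symm
    have p : 0 < (cexp V).re := by rw [e, add_re]; linarith
    have q := abs_arg_le p
    obtain ⟨k, hk⟩ := Complex.exp_eq_exp_iff_exists_int.1
      (Complex.exp_log (exp_ne_zero V)).symm
    refine ⟨k, ?_⟩
    have := congrArg im hk
    simp only [add_im, log_im, mul_im, intCast_re, mul_re, re_ofNat, ofReal_re, im_ofNat,
      ofReal_im, mul_zero, sub_zero, I_im, mul_one, zero_mul, add_zero, I_re, sub_self,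
      intCast_im] at this
    rw [this, add_sub_cancel_right]
    refine q.trans ?_
    rw [div_le_iff₀ p, e, add_re, add_im]
    linarith [abs_add_le (Complex.cosh V).im (Complex.sinh V).im, h1.2, h2.2]

lemma small_of_nar {V : ℂ} (h1 : Nar (Complex.cosh V)) (h2 : Nar (Complex.sinh V))
    (h : |V.im| < 7 * Real.pi / 4) : 0 < V.re ∧ |V.im| < Real.pi / 4 := by
  obtain ⟨a, k, hk⟩ := exists_arg h1 h2
  have p := Real.pi_gt_three
  have b : |(k : ℝ)| < 1 := by
    have := abs_sub_abs_le_abs_sub (k * (2 * Real.pi)) V.im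
    rw [abs_sub_comm, abs_mul, abs_of_pos (by linarith : 0 < 2 * Real.pi)] at this
    by_contra hh
    nlinarith [not_lt.1 hh]
  have : k = 0 := Int.abs_lt_one_iff.1 (by exact_mod_cast b)
  rw [this] at hk
  exact ⟨a, by simp at hk; linarith⟩

lemma nar_of {V : ℂ} (h0 : 0 < V.re) (h : |V.im| < Real.pi / 4) (c : Cn (Complex.cosh V ^ 2))
    (s : Cn (Complex.sinh V ^ 2)) : Nar (Complex.cosh V) ∧ Nar (Complex.sinh V) := by
  have p := Real.cos_pos_of_mem_Ioo (abs_lt.1 (show |V.im| < Real.pi / 2 by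
    linarith [Real.pi_pos]))
  exact ⟨c.nar (by rw [cosh_re]; exact mul_pos (Real.cosh_pos _) p),
    s.nar (by rw [sinh_re]; exact mul_pos (Real.sinh_pos_iff.2 h0) p)⟩

lemma Rel.far {ω ω' : ℂ} (h : Rel ω ω') {d : ℤ} (h0 : 0 < ω.re)
    (h1 : |ω.im - d * Real.pi| < Real.pi / 4) (c : Cn (Complex.cosh ω ^ 2))
    (s : Cn (Complex.sinh ω ^ 2)) (c' : Cn (Complex.cosh ω' ^ 2)) (s' : Cn (Complex.sinh ω' ^ 2)) :
    0 < ω'.re ∧ |ω'.im - d * Real.pi| < Real.pi / 4 := by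
  obtain ⟨a, b, a1, b1, -, -, e1, e2, e3⟩ := h.shift d
  obtain ⟨n1, n2⟩ := nar_of (V := ω - d * Real.pi * I) (by simpa using h0) (by simpa using h1)
    (by rwa [(shift_sq _ d).1]) (by rwa [(shift_sq _ d).2])
  have m1 := n1.mul (c := a) (by rwa [← e1, (shift_sq _ d).1]) (by linarith [abs_nonneg a.im])
  have m2 := n2.mul (c := b) (by rwa [← e2, (shift_sq _ d).2]) (by linarith [abs_nonneg b.im])
  rw [← e1] at m1
  rw [← e2] at m2
  simpa using small_of_nar m1 m2 (by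
    have := abs_sub_abs_le_abs_sub (ω' - d * Real.pi * I).im (ω - d * Real.pi * I).im
    have h1' : |(ω - d * Real.pi * I).im| < Real.pi / 4 := by simpa using h1
    linarith [Real.pi_pos])

lemma Rel.fold {ω ω' : ℂ} (h : Rel ω ω') {d : ℤ} (h0 : 0 < ω.re)
    (h1 : |ω.im - d * Real.pi| < Real.pi / 4) (c : Cn (Complex.cosh ω ^ 2))
    (s : Cn (Complex.sinh ω ^ 2)) (c' : Cn (-Complex.cosh ω' ^ 2))
    (s' : Cn (-Complex.sinh ω' ^ 2)) :
    0 < ω'.re ∧ |ω'.im - Real.pi / 2 - d * Real.pi| < Real.pi / 4 := by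
  obtain ⟨a, b, a1, b1, a2, b2, e1, e2, e3⟩ := h.shift d
  obtain ⟨n1, n2⟩ := nar_of (V := ω - d * Real.pi * I) (by simpa using h0) (by simpa using h1)
    (by rwa [(shift_sq _ d).1]) (by rwa [(shift_sq _ d).2])
  have m1 := n1.mul (c := -I * a) (by
    rw [mul_assoc, ← e1, mul_pow, (shift_sq _ d).1, neg_sq, I_sq]; simpa using c')
    (by simp; linarith [le_abs_self a.re])
  have m2 := n2.mul (c := -I * b) (by
    rw [mul_assoc, ← e2, mul_pow, (shift_sq _ d).2, neg_sq, I_sq]; simpa using s')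
    (by simp; linarith [le_abs_self b.re])
  rw [mul_assoc, ← e1, ← sinh_shift] at m1
  rw [mul_assoc, ← e2, ← cosh_shift] at m2
  have := small_of_nar m2 m1 (by
    have h1' := abs_lt.1 h1
    have e3' := abs_lt.1 e3
    simp at e3' ⊢
    rw [abs_lt]; constructor <;> linarith [Real.pi_pos])
  simp only [sub_re, mul_re, intCast_re, ofReal_re, intCast_im, ofReal_im, mul_zero, sub_zero,
    I_re, mul_im, zero_mul, add_zero, I_im, mul_one, sub_self, div_ofNat_re, div_ofNat_im,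
    zero_div, sub_im] at this
  refine ⟨this.1, ?_⟩
  convert this.2 using 2; ring

lemma exists_up {ω : ℂ} (c : Cn (Complex.cosh ω ^ 2)) :
    ∃ d : ℤ, |ω.im - d * Real.pi| < Real.pi / 2 := by
  have n := c.re_ne
  rw [cosh_re] at n
  have n' := right_ne_zero_of_mul n
  have p := Real.pi_pos
  refine ⟨round (ω.im / Real.pi), lt_of_le_of_ne ?_ fun e => n' ?_⟩
  · have := abs_sub_round (ω.im / Real.pi)
    have e : ω.im - round (ω.im / Real.pi) * Real.pi =
        (ω.im / Real.pi - round (ω.im / Real.pi)) * Real.pi := by field_simp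
    rw [e, abs_mul, abs_of_pos p]
    nlinarith
  · rw [Real.cos_eq_zero_iff]
    rcases (abs_eq (by positivity)).1 e with e | e
    · exact ⟨round (ω.im / Real.pi), by linarith⟩
    · exact ⟨round (ω.im / Real.pi) - 1, by push_cast; linarith⟩

lemma exists_dn {ω : ℂ} (c : Cn (-Complex.sinh ω ^ 2)) :
    ∃ d : ℤ, |ω.im - d * Real.pi - Real.pi / 2| < Real.pi / 2 := by
  obtain ⟨d, hd⟩ := exists_up (ω := ω - Real.pi / 2 * I)
    (by rw [cosh_shift, mul_pow, neg_sq, I_sq]; simpa using c)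
  refine ⟨d, ?_⟩
  convert hd using 2; simp; ring

lemma exists_far {ω : ℂ} (h0 : 0 < ω.re) (c : Cn (Complex.cosh ω ^ 2))
    (s : Cn (Complex.sinh ω ^ 2)) : ∃ d : ℤ, |ω.im - d * Real.pi| < Real.pi / 4 := by
  obtain ⟨d, hd⟩ := exists_up c
  have p := Real.cos_pos_of_mem_Ioo (abs_lt.1 (show |(ω - d * Real.pi * I).im| < Real.pi / 2 by
    simpa using hd))
  have n1 : Nar (Complex.cosh (ω - d * Real.pi * I)) := Cn.nar (by rwa [(shift_sq _ d).1])
    (by rw [cosh_re]; exact mul_pos (Real.cosh_pos _) p)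
  have n2 : Nar (Complex.sinh (ω - d * Real.pi * I)) := Cn.nar (by rwa [(shift_sq _ d).2])
    (by rw [sinh_re]; exact mul_pos (Real.sinh_pos_iff.2 (by simpa using h0)) p)
  exact ⟨d, by simpa using (small_of_nar n1 n2 (by simp; linarith [Real.pi_pos])).2⟩

lemma far_re {ω : ℂ} (s : Cn (Complex.sinh ω ^ 2)) : ω.re ≠ 0 := by
  intro e
  have := s.re_ne
  rw [sinh_re, e] at this
  simp at this

end Pool.Agent.MP_16212d_an.B

end MrgPart2

-- ======== part 3: formerly Pool.Agent.MP_16212d_an.B.Top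
section MrgPart3

/-! The combinatorial and topological core: a connected family of lifted orbits is bounded. -/

open Complex Set Filter Topology Metric

namespace Pool.Agent.MP_16212d_an.B

variable {Z : Type*} [TopologicalSpace Z]

structure Sys (ω : ℕ → Z → ℂ) (p : ℕ → ℕ) (Up Dn Far : ℕ → Set Z) : Prop where
  p0 : p 0 = 0
  pt : Tendsto p atTop atTop
  cont : ∀ m, Continuous (ω m)
  step : ∀ m, (p (m + 1) = p m ∧ (∀ z, Rel (ω m z) (ω (m + 1) z)) ∧ Up m ⊆ Up (m + 1) ∧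
      Dn m ⊆ Dn (m + 1)) ∨
    (p (m + 1) = p m + 1 ∧ (∀ z, Rel (ω m z) (ω (m + 1) z + Real.pi / 2 * I)) ∧
      Dn m ⊆ Up (m + 1) ∧ Up m ⊆ Dn (m + 1) ∪ Far (m + 1))
  oU : ∀ m, IsOpen (Up m)
  oD : ∀ m, IsOpen (Dn m)
  oF : ∀ m, IsOpen (Far m)
  cU : ∀ m, ∀ z ∈ Up m, Cn (Complex.cosh (ω m z) ^ 2)
  cD : ∀ m, ∀ z ∈ Dn m, Cn (-Complex.sinh (ω m z) ^ 2)
  cF : ∀ m, ∀ z ∈ Far m, Cn (Complex.cosh (ω m z) ^ 2) ∧ Cn (Complex.sinh (ω m z) ^ 2)
  cov : ∀ z, z ∈ Up 0 ∨ z ∈ Dn 0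
  far : ∀ m, Far m ⊆ Far (m + 1)
  cl : ∀ m, closure (Far m) ⊆ Far (m + 2)

def Inv (ω : ℕ → Z → ℂ) (p : ℕ → ℕ) (Up Dn : ℕ → Set Z) (c : ℤ) (m : ℕ) : Set Z :=
  {z | ∃ d : ℤ, (z ∈ Up m ∧ c = 2 * d + p m ∧ |(ω m z).im - d * Real.pi| < Real.pi / 2) ∨
    (z ∈ Dn m ∧ c = 2 * d + 1 + p m ∧ |(ω m z).im - d * Real.pi - Real.pi / 2| < Real.pi / 2)}

def Lab (ω : ℕ → Z → ℂ) (p : ℕ → ℕ) (Far : ℕ → Set Z) (σ : Bool) (c : ℤ) (m : ℕ) : Set Z :=
  {z | z ∈ Far m ∧ if σ then 0 < (ω m z).re ∧ |(ω m z).im - c * Real.pi| < Real.pi / 4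
    else 0 < (-ω m z).re ∧ |(-ω m z).im - (c + p m : ℤ) * Real.pi| < Real.pi / 4}

lemma cosh_shift' (V : ℂ) : Complex.cosh (V + Real.pi / 2 * I) ^ 2 = -Complex.sinh V ^ 2 := by
  have := sinh_shift (V + Real.pi / 2 * I)
  rw [add_sub_cancel_right] at this
  rw [this, mul_pow, neg_sq, I_sq]; ring

lemma sinh_shift' (V : ℂ) : Complex.sinh (V + Real.pi / 2 * I) ^ 2 = -Complex.cosh V ^ 2 := by
  have := cosh_shift (V + Real.pi / 2 * I)
  rw [add_sub_cancel_right] at this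
  rw [this, mul_pow, neg_sq, I_sq]; ring

lemma int_eq_of {c c' : ℤ} {y a : ℝ} (ha : 0 < a) (h1 : |y - c * a| < a / 2)
    (h2 : |y - c' * a| < a / 2) : c = c' := by
  have b1 := abs_lt.1 h1
  have b2 := abs_lt.1 h2
  have c1 : ((c - c' : ℤ) : ℝ) < 1 := by push_cast; by_contra hh; nlinarith [not_lt.1 hh]
  have c2 : ((c' - c : ℤ) : ℝ) < 1 := by push_cast; by_contra hh; nlinarith [not_lt.1 hh]
  have c3 : c - c' < 1 := by exact_mod_cast c1
  have c4 : c' - c < 1 := by exact_mod_cast c2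
  omega

namespace Sys

variable {ω : ℕ → Z → ℂ} {p : ℕ → ℕ} {Up Dn Far : ℕ → Set Z} (S : Sys ω p Up Dn Far)

omit [TopologicalSpace Z] in
lemma inv_abs {c : ℤ} {m : ℕ} {z : Z} (h : z ∈ Inv ω p Up Dn c m) :
    |(ω m z).im + p m * (Real.pi / 2) - c * (Real.pi / 2)| < Real.pi / 2 := by
  obtain ⟨d, ⟨-, e, h⟩ | ⟨-, e, h⟩⟩ := h <;> rw [e] <;> convert h using 2 <;> push_cast <;> ring

include S

lemma p_mono : Monotone p :=
  monotone_nat_of_le_succ fun m => by rcases S.step m with h | h <;> rw [h.1]; omega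

lemma far_mono {m n : ℕ} (h : m ≤ n) : Far m ⊆ Far n :=
  monotone_nat_of_le_succ (f := Far) S.far h

lemma inv_step {c : ℤ} {m : ℕ} {z : Z} (h : z ∈ Inv ω p Up Dn c m) (hf : z ∉ Far (m + 1)) :
    z ∈ Inv ω p Up Dn c (m + 1) := by
  rcases S.step m with ⟨e0, r, u1, u2⟩ | ⟨e0, r, u1, u2⟩
  · obtain ⟨d, ⟨a, e, h⟩ | ⟨a, e, h⟩⟩ := h
    · exact ⟨d, Or.inl ⟨u1 a, by rw [e0, e], (r z).up h (S.cU _ _ a) (S.cU _ _ (u1 a))⟩⟩
    · exact ⟨d, Or.inr ⟨u2 a, by rw [e0, e], (r z).dn h (S.cD _ _ a) (S.cD _ _ (u2 a))⟩⟩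
  · obtain ⟨d, ⟨a, e, h⟩ | ⟨a, e, h⟩⟩ := h
    · have b := (u2 a).resolve_right hf
      have := (r z).up h (S.cU _ _ a) (by rw [cosh_shift']; exact S.cD _ _ b)
      refine ⟨d - 1, Or.inr ⟨b, by rw [e0, e]; push_cast; ring, ?_⟩⟩
      convert this using 2; simp; ring
    · have := (r z).dn h (S.cD _ _ a) (by rw [sinh_shift', neg_neg]; exact S.cU _ _ (u1 a))
      refine ⟨d, Or.inl ⟨u1 a, by rw [e0, e]; push_cast; ring, ?_⟩⟩
      convert this using 2; simp; ring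

lemma inv_mono {c : ℤ} {m n : ℕ} {z : Z} (h : z ∈ Inv ω p Up Dn c m) (hmn : m ≤ n)
    (hf : z ∉ Far n) : z ∈ Inv ω p Up Dn c n := by
  induction n, hmn using Nat.le_induction with
  | base => exact h
  | succ n _ ih => exact S.inv_step (ih fun h => hf (S.far n h)) hf

lemma inv_zero (z : Z) : ∃ c, z ∈ Inv ω p Up Dn c 0 := by
  rcases S.cov z with h | h
  · obtain ⟨d, hd⟩ := exists_up (S.cU _ _ h)
    exact ⟨_, d, Or.inl ⟨h, rfl, hd⟩⟩
  · obtain ⟨d, hd⟩ := exists_dn (S.cD _ _ h)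
    exact ⟨_, d, Or.inr ⟨h, rfl, hd⟩⟩

lemma isOpen_inv (c : ℤ) (m : ℕ) : IsOpen (Inv ω p Up Dn c m) := by
  have hc := S.cont m
  simp only [Inv, ofPred_exists]
  refine isOpen_iUnion fun d => ?_
  have h1 : IsOpen {z | |(ω m z).im - d * Real.pi| < Real.pi / 2} :=
    isOpen_lt (by fun_prop) continuous_const
  have h2 : IsOpen {z | |(ω m z).im - d * Real.pi - Real.pi / 2| < Real.pi / 2} :=
    isOpen_lt (by fun_prop) continuous_const
  exact IsOpen.union (IsOpen.inter (S.oU m) (IsOpen.inter isOpen_const h1))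
    (IsOpen.inter (S.oD m) (IsOpen.inter isOpen_const h2))

lemma drift {m : ℕ} {z : Z} (h : ∀ k < m, z ∉ Far k) :
    |(ω m z).im + p m * (Real.pi / 2) - (ω 0 z).im| < 2 * Real.pi := by
  cases m with
  | zero => simp [S.p0, Real.pi_pos]
  | succ m =>
    obtain ⟨c, hc⟩ := S.inv_zero z
    have a := abs_lt.1 (inv_abs hc)
    have b := abs_lt.1 (inv_abs (S.inv_mono hc (Nat.zero_le m) (h m (Nat.lt_succ_self m))))
    rw [S.p0] at a
    rcases S.step m with ⟨e0, r, -⟩ | ⟨e0, r, -⟩ <;> obtain ⟨-, -, -, -, -, -, -, -, e⟩ := r z <;>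
      have e' := abs_lt.1 e <;> simp at e' a <;> rw [e0, abs_lt] <;> push_cast <;>
      constructor <;> linarith

lemma lab_step {σ : Bool} {c : ℤ} {m : ℕ} {z : Z} (h : z ∈ Lab ω p Far σ c m) :
    z ∈ Lab ω p Far σ c (m + 1) := by
  obtain ⟨a, h⟩ := h
  have b := S.far m a
  obtain ⟨a1, a2⟩ := S.cF _ _ a
  obtain ⟨b1, b2⟩ := S.cF _ _ b
  refine ⟨b, ?_⟩
  rcases S.step m with ⟨e0, r, -⟩ | ⟨e0, r, -⟩ <;> cases σ <;>
    simp only [Bool.false_eq_true, if_false, if_true] at h ⊢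
  · rw [e0]
    exact (r z).neg.far h.1 h.2 (by simpa using a1) (by simpa using a2) (by simpa using b1)
      (by simpa using b2)
  · exact (r z).far h.1 h.2 a1 a2 b1 b2
  · have := (r z).neg.fold h.1 h.2 (by simpa using a1) (by simpa using a2)
      (by rw [Complex.cosh_neg, cosh_shift', neg_neg]; exact b2)
      (by rw [Complex.sinh_neg, neg_sq, sinh_shift', neg_neg]; exact b1)
    refine ⟨by simpa using this.1, ?_⟩
    rw [e0]
    convert this.2 using 2; simp; ring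
  · have := (r z).fold h.1 h.2 a1 a2 (by rw [cosh_shift', neg_neg]; exact b2)
      (by rw [sinh_shift', neg_neg]; exact b1)
    refine ⟨by simpa using this.1, ?_⟩
    convert this.2 using 2; simp

lemma lab_mono {σ : Bool} {c : ℤ} {m n : ℕ} (hmn : m ≤ n) :
    Lab ω p Far σ c m ⊆ Lab ω p Far σ c n :=
  monotone_nat_of_le_succ (f := Lab ω p Far σ c) (fun _ _ h => S.lab_step h) hmn

lemma lab_exists {m : ℕ} {z : Z} (h : z ∈ Far m) : ∃ σ c, z ∈ Lab ω p Far σ c m := by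
  obtain ⟨a1, a2⟩ := S.cF _ _ h
  rcases (far_re a2).lt_or_gt with e | e
  · obtain ⟨d, hd⟩ := exists_far (ω := -ω m z) (by simpa using e) (by simpa using a1)
      (by simpa using a2)
    exact ⟨false, d - p m, h, by simpa using ⟨e, by simpa using hd⟩⟩
  · obtain ⟨d, hd⟩ := exists_far e a1 a2
    exact ⟨true, d, h, by simpa using ⟨e, hd⟩⟩

lemma lab_unique {σ σ' : Bool} {c c' : ℤ} {m n : ℕ} {z : Z} (h : z ∈ Lab ω p Far σ c m)
    (h' : z ∈ Lab ω p Far σ' c' n) : σ = σ' ∧ c = c' := by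
  have a := (S.lab_mono (le_max_left m n) h).2
  have b := (S.lab_mono (le_max_right m n) h').2
  have q := Real.pi_pos
  have q' : Real.pi / 4 < Real.pi / 2 := by linarith
  cases σ <;> cases σ' <;> simp only [Bool.false_eq_true, if_false, if_true] at a b
  · have := int_eq_of q (a.2.trans q') (b.2.trans q')
    exact ⟨rfl, by omega⟩
  · have := a.1; simp at this; linarith [b.1]
  · have := b.1; simp at this; linarith [a.1]
  · exact ⟨rfl, int_eq_of q (a.2.trans q') (b.2.trans q')⟩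

lemma isOpen_lab (σ : Bool) (c : ℤ) (m : ℕ) : IsOpen (Lab ω p Far σ c m) := by
  have hc := S.cont m
  have h1 : IsOpen {z | 0 < (ω m z).re} := isOpen_lt continuous_const (by fun_prop)
  have h2 : IsOpen {z | 0 < (-ω m z).re} := isOpen_lt continuous_const (by fun_prop)
  have h3 : IsOpen {z | |(ω m z).im - c * Real.pi| < Real.pi / 4} :=
    isOpen_lt (by fun_prop) continuous_const
  have h4 : IsOpen {z | |(-ω m z).im - (c + p m : ℤ) * Real.pi| < Real.pi / 4} :=
    isOpen_lt (by fun_prop) continuous_const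
  cases σ
  · exact (S.oF m).inter (h2.inter h4)
  · exact (S.oF m).inter (h1.inter h3)

lemma lab_bound {σ : Bool} {c : ℤ} {m n : ℕ} {z : Z} (h : z ∈ Lab ω p Far σ c m)
    (hn : 10 + |(ω 0 z).im| + 4 * |(c : ℝ)| ≤ p n) : z ∈ Far n := by
  classical
  have ex : ∃ k, z ∈ Far k := ⟨m, h.1⟩
  have a := abs_lt.1 (S.drift fun k hk => Nat.find_min ex hk)
  obtain ⟨σ', c', h'⟩ := S.lab_exists (Nat.find_spec ex)
  obtain ⟨rfl, rfl⟩ := S.lab_unique h h'
  by_contra hh
  have b : n ≤ Nat.find ex := not_lt.1 fun hlt => hh (S.far_mono hlt.le (Nat.find_spec ex))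
  have b' : (p n : ℝ) ≤ p (Nat.find ex) := by exact_mod_cast S.p_mono b
  have p3 := Real.pi_gt_three
  have p4 := Real.pi_le_four
  have d1 : |c * Real.pi| ≤ 4 * |(c : ℝ)| := by
    rw [abs_mul, abs_of_pos Real.pi_pos, mul_comm]; gcongr
  have d2 := abs_le.1 d1
  have d3 := abs_le.1 (le_refl |(ω 0 z).im|)
  have d4 : (p (Nat.find ex) : ℝ) * 1 ≤ p (Nat.find ex) * (Real.pi / 2) :=
    mul_le_mul_of_nonneg_left (by linarith) (Nat.cast_nonneg _)
  have e := h'.2
  cases σ <;> simp only [Bool.false_eq_true, if_false, if_true] at e <;>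
    have e' := abs_lt.1 e.2
  · simp only [neg_im, Int.cast_add, Int.cast_natCast] at e'
    linarith
  · linarith

lemma isClopen_lab (σ : Bool) (c : ℤ) : IsClopen (⋃ m, Lab ω p Far σ c m) := by
  refine ⟨isClosed_of_closure_subset fun z hz => ?_, isOpen_iUnion fun m => S.isOpen_lab σ c m⟩
  obtain ⟨n, hn⟩ := ((tendsto_natCast_atTop_atTop (R := ℝ)).comp S.pt).eventually_ge_atTop
    (10 + (|(ω 0 z).im| + 1) + 4 * |(c : ℝ)|) |>.exists
  have a : ∀ᶠ w in 𝓝 z, |(ω 0 w).im| < |(ω 0 z).im| + 1 := by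
    have := S.cont 0
    exact (show Continuous fun w => |(ω 0 w).im| by fun_prop).continuousAt.eventually
      (gt_mem_nhds (by linarith))
  have fr := mem_closure_iff_frequently.1 hz
  have b : z ∈ closure (Far n) := by
    rw [mem_closure_iff_frequently]
    refine (fr.and_eventually a).mono fun w ⟨h1, h2⟩ => ?_
    obtain ⟨m, hm⟩ := mem_iUnion.1 h1
    exact S.lab_bound hm (le_trans (by linarith) hn)
  obtain ⟨σ', c', h'⟩ := S.lab_exists (S.cl n b)
  obtain ⟨w, h1, h2⟩ := (fr.and_eventually ((S.isOpen_lab σ' c' _).mem_nhds h')).exists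
  obtain ⟨m, hm⟩ := mem_iUnion.1 h1
  obtain ⟨rfl, rfl⟩ := S.lab_unique hm h2
  exact mem_iUnion.2 ⟨_, h'⟩

lemma no_far [PreconnectedSpace Z] {x : Z} (hx : ∀ m, x ∉ Far m) (m : ℕ) (z : Z) : z ∉ Far m := by
  intro h
  obtain ⟨σ, c, h'⟩ := S.lab_exists h
  have := (S.isClopen_lab σ c).eq_univ ⟨z, mem_iUnion.2 ⟨m, h'⟩⟩
  obtain ⟨n, hn⟩ := mem_iUnion.1 (this ▸ mem_univ x : x ∈ ⋃ m, Lab ω p Far σ c m)
  exact hx n hn.1

lemma bounded [PreconnectedSpace Z] {x : Z} (hx : ∀ m, x ∉ Far m)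
    (hm : ∀ z, ∃ m m', z ∈ Up m ∧ z ∈ Up m' ∧ p m' = p m + 1) : ∃ C, ∀ z, |(ω 0 z).im| ≤ C := by
  have nf := S.no_far hx
  have q := Real.pi_pos
  set Ce : ℤ → Set Z := fun j => ⋃ m, Inv ω p Up Dn j m ∩ Inv ω p Up Dn (j + 1) m with hCe
  have o : ∀ j, IsOpen (Ce j) := fun j =>
    isOpen_iUnion fun m => (S.isOpen_inv _ _).inter (S.isOpen_inv _ _)
  have cv : ∀ z, ∃ j, z ∈ Ce j := by
    intro z
    obtain ⟨m, m', a, b, e⟩ := hm z
    obtain ⟨d, hd⟩ := exists_up (S.cU _ _ a)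
    obtain ⟨d', hd'⟩ := exists_up (S.cU _ _ b)
    have i1 : z ∈ Inv ω p Up Dn (2 * d + p m) (max m m') :=
      S.inv_mono ⟨d, Or.inl ⟨a, rfl, hd⟩⟩ (le_max_left _ _) (nf _ _)
    have i2 : z ∈ Inv ω p Up Dn (2 * d' + p m + 1) (max m m') :=
      S.inv_mono ⟨d', Or.inl ⟨b, by rw [e]; push_cast; ring, hd'⟩⟩ (le_max_right _ _) (nf _ _)
    have e1 := abs_lt.1 (inv_abs i1)
    have e2 := abs_lt.1 (inv_abs i2)
    push_cast at e1 e2
    have c1 : ((d' - d : ℤ) : ℝ) < 1 := by push_cast; by_contra hh; nlinarith [not_lt.1 hh]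
    have c2 : ((d - d' : ℤ) : ℝ) < 2 := by push_cast; by_contra hh; nlinarith [not_lt.1 hh]
    have c3 : d' - d < 1 := by exact_mod_cast c1
    have c4 : d - d' < 2 := by exact_mod_cast c2
    rcases (by omega : d' = d ∨ d = d' + 1) with e | e
    · subst e
      exact ⟨_, mem_iUnion.2 ⟨_, i1, i2⟩⟩
    · subst e
      exact ⟨_, mem_iUnion.2 ⟨_, i2, by convert i1 using 2; ring⟩⟩
  have un : ∀ j j' z, z ∈ Ce j → z ∈ Ce j' → j = j' := by
    intro j j' z h h'
    obtain ⟨m, a1, a2⟩ := mem_iUnion.1 h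
    obtain ⟨n, b1, b2⟩ := mem_iUnion.1 h'
    have c1 := abs_lt.1 (inv_abs (S.inv_mono a1 (le_max_left m n) (nf _ _)))
    have c2 := abs_lt.1 (inv_abs (S.inv_mono a2 (le_max_left m n) (nf _ _)))
    have c3 := abs_lt.1 (inv_abs (S.inv_mono b1 (le_max_right m n) (nf _ _)))
    have c4 := abs_lt.1 (inv_abs (S.inv_mono b2 (le_max_right m n) (nf _ _)))
    push_cast at c2 c4
    exact int_eq_of (a := Real.pi / 2)
      (y := (ω (max m n) z).im + p (max m n) * (Real.pi / 2) - Real.pi / 4) (by positivity)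
      (abs_lt.2 ⟨by linarith, by linarith⟩) (abs_lt.2 ⟨by linarith, by linarith⟩)
  obtain ⟨j, hj⟩ := cv x
  have cl : IsClopen (Ce j) := by
    refine ⟨isOpen_compl_iff.1 (isOpen_iff_mem_nhds.2 fun z hz => ?_), o j⟩
    obtain ⟨j', hj'⟩ := cv z
    filter_upwards [(o j').mem_nhds hj'] with w hw hw'
    exact hz (un _ _ _ hw hw' ▸ hj')
  have al := cl.eq_univ ⟨x, hj⟩
  refine ⟨|j * (Real.pi / 2)| + 3 * Real.pi, fun z => ?_⟩
  obtain ⟨m, a1, -⟩ := mem_iUnion.1 (al ▸ mem_univ z : z ∈ Ce j)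
  have b := abs_lt.1 (inv_abs a1)
  have c := abs_lt.1 (S.drift (m := m) fun k _ => nf k z)
  have d := abs_le.1 (le_refl |j * (Real.pi / 2)|)
  rw [abs_le]
  constructor <;> linarith

end Sys

open Classical in
/-- The recursively lifted orbit. -/
noncomputable def om (q : ℕ → Z → ℂ) (fold : ℕ → Prop) (ω₀ : Z → ℂ) : ℕ → Z → ℂ
  | 0 => ω₀
  | m + 1 => fun z => if fold m then lift (om q fold ω₀ m z) (-(q (m + 1) z + 1)) - Real.pi / 2 * I
      else lift (om q fold ω₀ m z) (q (m + 1) z)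

lemma om_spec {q : ℕ → Z → ℂ} {fold : ℕ → Prop} {ω₀ : Z → ℂ} (hq : ∀ m, Continuous (q m))
    (h0 : Continuous ω₀) (e0 : ∀ z, Complex.sinh (ω₀ z) ^ 2 = q 0 z)
    (h1 : ∀ m z, ¬ fold m → Adm ((q (m + 1) z + 1) / (q m z + 1)) ∧ Adm (q (m + 1) z / q m z))
    (h2 : ∀ m z, fold m → Adm (-q (m + 1) z / (q m z + 1)) ∧ Adm (-(q (m + 1) z + 1) / q m z))
    (m : ℕ) : (Continuous (om q fold ω₀ m) ∧ ∀ z, Complex.sinh (om q fold ω₀ m z) ^ 2 = q m z) ∧
      (¬ fold m → ∀ z, Rel (om q fold ω₀ m z) (om q fold ω₀ (m + 1) z)) ∧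
      (fold m → ∀ z, Rel (om q fold ω₀ m z) (om q fold ω₀ (m + 1) z + Real.pi / 2 * I)) := by
  have key : ∀ m, (Continuous (om q fold ω₀ m) ∧ ∀ z, Complex.sinh (om q fold ω₀ m z) ^ 2 = q m z) →
      (Continuous (om q fold ω₀ (m + 1)) ∧
        ∀ z, Complex.sinh (om q fold ω₀ (m + 1) z) ^ 2 = q (m + 1) z) ∧
      (¬ fold m → ∀ z, Rel (om q fold ω₀ m z) (om q fold ω₀ (m + 1) z)) ∧
      (fold m → ∀ z, Rel (om q fold ω₀ m z) (om q fold ω₀ (m + 1) z + Real.pi / 2 * I)) := by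
    rintro m ⟨c, e⟩
    have e' : ∀ z, Complex.cosh (om q fold ω₀ m z) ^ 2 = q m z + 1 := fun z => by
      rw [Complex.cosh_sq, e]
    have := hq (m + 1)
    by_cases hf : fold m
    · have a1 : ∀ z, Adm ((-(q (m + 1) z + 1) + 1) / Complex.cosh (om q fold ω₀ m z) ^ 2) :=
        fun z => by rw [e']; convert (h2 m z hf).1 using 2; ring
      have a2 : ∀ z, Adm (-(q (m + 1) z + 1) / Complex.sinh (om q fold ω₀ m z) ^ 2) :=
        fun z => by rw [e]; exact (h2 m z hf).2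
      simp only [om, if_pos hf]
      refine ⟨⟨(continuous_lift c (by fun_prop) a1 a2).sub continuous_const, fun z => ?_⟩,
        fun h => absurd hf h, fun _ z => ?_⟩
      · rw [sinh_shift, mul_pow, neg_sq, I_sq, Complex.cosh_sq, (lift_spec (a1 z) (a2 z)).2]
        ring
      · rw [sub_add_cancel]; exact (lift_spec (a1 z) (a2 z)).1
    · have a1 : ∀ z, Adm ((q (m + 1) z + 1) / Complex.cosh (om q fold ω₀ m z) ^ 2) :=
        fun z => by rw [e']; exact (h1 m z hf).1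
      have a2 : ∀ z, Adm (q (m + 1) z / Complex.sinh (om q fold ω₀ m z) ^ 2) :=
        fun z => by rw [e]; exact (h1 m z hf).2
      simp only [om, if_neg hf]
      exact ⟨⟨continuous_lift c this a1 a2, fun z => (lift_spec (a1 z) (a2 z)).2⟩,
        fun _ z => (lift_spec (a1 z) (a2 z)).1, fun h => absurd h hf⟩
  have all : ∀ m, Continuous (om q fold ω₀ m) ∧
      ∀ z, Complex.sinh (om q fold ω₀ m z) ^ 2 = q m z := by
    intro m
    induction m with
    | zero => exact ⟨h0, e0⟩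
    | succ m ih => exact (key m ih).1
  exact ⟨all m, (key m (all m)).2⟩

end Pool.Agent.MP_16212d_an.B

end MrgPart3

-- marker of a merged file
example : 731051 + 507666 = 731051 + 507666 := rfl
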